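import Pool.Agent.OIE.Defs

/-!
# A principal ideal domain that satisfies all true universal sentences about divisibility, open induction with divisibility, the
pigeonhole principle, and a largest prime: definitions

`Tm`, `Fm`, `OpenInduction`, `Pigeonhole`, `IsPr`, `ModelQ` are those of `Pool/Agent/OID/Defs.lean`, `Dio` is that of
`Pool/Agent/OIE/Defs.lean` (it occurs in the proofs only).
-/

namespace OIF

open OID OIE

/-- Quantifier-free formulas in `n` variables. The atoms are `p = 0`, `p ∣ q`, and: `r` is a greatest common divisor of `p`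
and `q`, where `p`, `q`, `r` are polynomials with integer coefficients. -/
inductive Qf (n : ℕ) : Type
  | eq : MvPolynomial (Fin n) ℤ → Qf n
  | dvd : MvPolynomial (Fin n) ℤ → MvPolynomial (Fin n) ℤ → Qf n
  | gcd : MvPolynomial (Fin n) ℤ → MvPolynomial (Fin n) ℤ → MvPolynomial (Fin n) ℤ → Qf n
  | not : Qf n → Qf n
  | and : Qf n → Qf n → Qf n

/-- The truth of a formula at `x`. -/
def Qf.holds {n : ℕ} {M : Type} [CommRing M] (x : Fin n → M) : Qf n → Prop
  | .eq p => MvPolynomial.aeval x p = 0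
  | .dvd p q => MvPolynomial.aeval x p ∣ MvPolynomial.aeval x q
  | .gcd p q r => ∀ d : M, d ∣ MvPolynomial.aeval x r ↔
      d ∣ MvPolynomial.aeval x p ∧ d ∣ MvPolynomial.aeval x q
  | .not φ => ¬ φ.holds x
  | .and φ ψ => φ.holds x ∧ ψ.holds x

/-- All universal sentences, in the language of rings with divisibility and greatest common divisors, that are true in the
integers are true in `M`. -/
def Universal (M : Type) [CommRing M] : Prop :=
  ∀ (n : ℕ) (φ : Qf n), (∀ z : Fin n → ℤ, φ.holds z) → ∀ x : Fin n → M, φ.holds x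

/-- The main theorem. -/
def MainStatement : Prop :=
  ∃ (M : Type) (_ : CommRing M) (_ : LinearOrder M) (_ : IsStrictOrderedRing M),
    (∀ x : M, 0 < x → 1 ≤ x) ∧
    ModelQ {x : M // 0 ≤ x} ⟨0, le_rfl⟩ (fun x => ⟨x.1 + 1, add_nonneg x.2 zero_le_one⟩)
      (fun x y => ⟨x.1 + y.1, add_nonneg x.2 y.2⟩) (fun x y => ⟨x.1 * y.1, mul_nonneg x.2 y.2⟩)
      (fun x y => x.1 ≤ y.1) ∧
    OpenInduction M ∧ Pigeonhole M ∧ Universal M ∧
    IsDomain M ∧ IsPrincipalIdealRing M ∧
    (∀ (p : ℕ) [Fact p.Prime], ∃ f : M →+* ℤ_[p], Function.Injective f) ∧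
    ∃ P : M, (∀ n : ℕ, (n : M) < P) ∧ IsPr P ∧ (∀ y, IsPr y → y ≤ P) ∧ ∀ x : M, ∃ k : ℕ, x < P ^ k

end OIF
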