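import Pool.Agent.OIE.St
import Pool.Agent.OIF.Defs

/-!
# Statements of the modules: a PID that satisfies all true universal ring sentences

`S_X` is proved in the file `Pool/Agent/OIF/X.lean` as `theorem t_X : S_X`, or `theorem t_X : M_X` if `M_X` is defined
(an implication `S_Y → … → S_X`). `F`, `Om`, `Nz`, `Good`, `Ext`, `chart`, … are those of
`Pool/Agent/OID/Stmts3.lean`.

Idea: in `OIE` every stage `A` of the construction has a homomorphism `ι` to a polynomial ring over `ℚ`, compatible with the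
`p`-adic components. Here we require moreover that coprime elements of `A` have coprime images (`Cop ι`); then step `F`
of `OID` (making `p` and `a` comaximal) is possible as well: the polynomial ring is embedded in another one, in which the images of `p` and
`a` are comaximal (`S_PHI`).
-/

set_option autoImplicit false

namespace OIF

open Polynomial OID OIE

/-- The inverse images of the ideals generated by prime elements are principal. -/
def Cop {A R : Type} [CommRing A] [CommRing R] (i : A →+* R) : Prop :=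
  ∀ π : R, Prime π → (Ideal.comap i (Ideal.span {π})).IsPrincipal

/-- As `OIE.Emb`, with a polynomial ring in finitely many variables, and `Cop`. -/
def EmbC (A : Subalgebra ℚ F) : Prop :=
  ∃ (σ : Type) (_ : Finite σ) (ι : A →ₐ[ℚ] MvPolynomial σ ℚ)
    (t : ∀ p : Nat.Primes, σ → ℚ_[(p : ℕ)]),
    (∀ (a : A) (p : Nat.Primes), (a : F).2 p = MvPolynomial.aeval (t p) (ι a)) ∧
    Cop (ι : A →+* MvPolynomial σ ℚ)

/-! ### Commutative algebra -/

/-- Composition. Let `J = comap j (π)`, a prime ideal (`π` is prime), generated by `ρ`. If `ρ = 0` then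
`comap i J = ker i = 0` is principal. Otherwise `ρ` is prime and `comap i (ρ)` is principal by `Cop i`. -/
def S_CPA : Prop :=
  ∀ (A B R : Type) [CommRing A] [CommRing B] [IsDomain B] [CommRing R] (i : A →+* B)
    (j : B →+* R), Function.Injective i → Cop i → ∀ π : R, Prime π →
    (Ideal.comap j (Ideal.span {π})).IsPrincipal →
    (Ideal.comap (j.comp i) (Ideal.span {π})).IsPrincipal

/-- Birational homomorphisms. Let `J = comap ι (π)`, a prime ideal, `ι G ∉ (π)`. Take `N`, `π'` with `ι π' = ι G ^ N * π`; `π' ∈ J` is not `0`; it has a prime factor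
`q ∈ J` (`Ideal.IsPrime.exists_mem_prime_of_ne_bot` or factorization). `J = (q)`: let `g ∈ J`, `ι g = π h`, `ι h' = ι G ^ M h`; then
`ι (G ^ (N + M) g) = ι (π' h')`, so `G ^ (N + M) g = π' h'` is divisible by `q`, and `q` does not divide `G` (else `π` divides
`ι G`), so `q` divides `g`. -/
def S_CPB : Prop :=
  ∀ (A R : Type) [CommRing A] [IsDomain A] [UniqueFactorizationMonoid A] [CommRing R] [IsDomain R]
    (ι : A →+* R) (G : A), Function.Injective ι →
    (∀ h : R, ∃ (N : ℕ) (h' : A), ι h' = ι G ^ N * h) → ∀ π : R, Prime π → ¬ π ∣ ι G →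
    (Ideal.comap ι (Ideal.span {π})).IsPrincipal

/-- Charts. Let `J = comap θ (π)`, a prime ideal that does not contain `i y`. If `J ≠ 0` it contains a prime element `q` (`Ideal.IsPrime.exists_mem_prime_of_ne_bot`). Let `g` generate
`comap (θ ∘ i) (π)`. `(i y) ^ m q = i g'`, `g' = g h`. `q` divides `i g * i h`. If `q ∣ i h`, `i h = q c`, then `(i y) ^ m = i g * c`, and applying `θ` we get
`π ∣ θ (i y)`, a contradiction. So `q ∣ i g`. For `r ∈ J`: `(i y) ^ m' r = i g''`, `g''` is a multiple of `g`, so `q ∣ (i y) ^ m' r`; `q` does not divide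
`i y`, so `q ∣ r`. Hence `J = (q)`. -/
def S_CPC : Prop :=
  ∀ (B A R : Type) [CommRing B] [CommRing A] [IsDomain A] [UniqueFactorizationMonoid A]
    [CommRing R] [IsDomain R] (i : B →+* A) (y : B) (θ : A →+* R) (π : R),
    (∀ r : A, ∃ (m : ℕ) (g : B), i y ^ m * r = i g) → Prime π → ¬ π ∣ θ (i y) →
    (Ideal.comap (θ.comp i) (Ideal.span {π})).IsPrincipal →
    (Ideal.comap θ (Ideal.span {π})).IsPrincipal

/-- Polynomial rings in one variable. Let `π` be prime in `S[X]`. If `π = C ρ` is constant then `ρ` is prime (`Polynomial.prime_C_iff`), `comap ι (ρ) = (q)`, and a polynomial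
is in the inverse image of `(π)` if and only if all its coefficients are divisible by `q` (`Polynomial.C_dvd_iff_dvd_coeff`), so the inverse image is `(C q)`. Otherwise
let `J` be the inverse image; it contains no nonzero constant (`π` does not divide a nonzero constant: degrees). If `J ≠ 0` it contains a prime element
`g` of `A[X]`, of positive degree, so `g` is primitive and irreducible over `K = Frac A` (Gauss:
`Polynomial.IsPrimitive.irreducible_iff_irreducible_map_fraction_map`). For `h ∈ J` with `g ∤ h` (over `A`, hence over `K`: `Polynomial.IsPrimitive.dvd_of_fraction_map_dvd_fraction_map`)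
`g` and `h` are coprime over `K`, so a nonzero constant `C c = u g + v h` with `u, v ∈ A[X]` is in `J`, a contradiction. So `J = (g)`. -/
def S_PR : Prop :=
  ∀ (A S : Type) [CommRing A] [IsDomain A] [UniqueFactorizationMonoid A] [CommRing S] [IsDomain S]
    (ι : A →+* S), Function.Injective ι → Cop ι → Cop (Polynomial.mapRingHom ι)

/-- Polynomial rings in finitely many variables: induction on `σ` (`Finite.induction_empty_option`) with `MvPolynomial.optionEquivLeft`, `MvPolynomial.isEmptyRingEquiv`,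
`MvPolynomial.renameEquiv` (composition with isomorphisms preserves `Cop`). -/
def S_PRM : Prop :=
  ∀ (σ A S : Type) [Finite σ] [CommRing A] [IsDomain A] [UniqueFactorizationMonoid A] [CommRing S]
    [IsDomain S] (ι : A →+* S), Function.Injective ι → Cop ι →
    Cop (MvPolynomial.map (σ := σ) ι)

def M_PRM : Prop := S_PR → S_PRM

/-- The homomorphism `X j ↦ e j + G X j` over `S`. -/
noncomputable def lam {σ S : Type} [CommRing S] (e : σ → S) (G : S) :
    MvPolynomial σ S →ₐ[S] MvPolynomial σ S :=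
  MvPolynomial.aeval fun j => MvPolynomial.C (e j) + MvPolynomial.C G * MvPolynomial.X j

/-- `lam e G` is birational. Injective: over `K = Frac S` it has the inverse `X j ↦ (X j - e j) / G` (or: the composition with `X j ↦ X j - e j`, `X j ↦ G X j` multiplies coefficients by powers of `G`). For
every `h` there are `N`, `h'` with `lam e G h' = C G ^ N * h` (induction on `h`: `C G * X j = lam e G (X j - C (e j))`). Use S_CPB with `G := C G` (`lam e G (C G) = C G`). -/
def S_LAM : Prop :=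
  ∀ (σ S : Type) [CommRing S] [IsDomain S] [UniqueFactorizationMonoid S] (e : σ → S) (G : S),
    G ≠ 0 → ∀ π : MvPolynomial σ S, Prime π → ¬ π ∣ MvPolynomial.C G →
    (Ideal.comap (lam e G).toRingHom (Ideal.span {π})).IsPrincipal

def M_LAM : Prop := S_CPB → S_LAM

/-! ### Step `I` -/

/-- The substitution `X j ↦ X (inl j) + G * X (inr j)`. -/
noncomputable def tau {σ : Type} (G : MvPolynomial σ ℚ) :
    MvPolynomial σ ℚ →ₐ[ℚ] MvPolynomial (σ ⊕ σ) ℚ :=
  MvPolynomial.aeval fun j => MvPolynomial.X (Sum.inl j) +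
    MvPolynomial.rename Sum.inl G * MvPolynomial.X (Sum.inr j)

/-- `G` is the radical of `H`, and `Z` is the cofactor of `H` in `tau G H`. -/
structure Rad {σ : Type} (H G : MvPolynomial σ ℚ) (Z : MvPolynomial (σ ⊕ σ) ℚ) : Prop where
  ne : G ≠ 0
  dvd : ∀ ρ, Prime ρ → (ρ ∣ G ↔ ρ ∣ H)
  sqf : ∀ ρ, Prime ρ → ¬ ρ * ρ ∣ G
  cof : tau G H = MvPolynomial.rename Sum.inl H * Z

/-- Radicals. `G`: induction on the factorization of `H` (`UniqueFactorizationMonoid.induction_on_prime`): for `ρ H` take `G` if `ρ ∣ G` and `ρ G` otherwise. Cofactor: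
`tau G φ - rename inl φ` is divisible by `rename inl G` for all `φ` (compare `OIE.EI.tau_dvd`), so for a prime factor `ρ` of `H` `rename inl ρ` divides
`tau G ρ`; hence (induction on the factorization of a divisor of `H`) `rename inl H` divides `tau G H`. -/
def S_RAD : Prop :=
  ∀ (σ : Type) (H : MvPolynomial σ ℚ), H ≠ 0 → ∃ (G : MvPolynomial σ ℚ)
    (Z : MvPolynomial (σ ⊕ σ) ℚ), Rad H G Z

/-- Away from `rename inl H`. `MvPolynomial (σ ⊕ σ) ℚ` is `MvPolynomial σ S`, `S = MvPolynomial σ ℚ` (`MvPolynomial.sumAlgEquiv` after `rename Sum.swap`: `inl j ↦ C (X j)`, `inr j ↦ X j`), and `S[X]` is `MvPolynomial σ (ℚ[X])`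
(`MvPolynomial.optionEquivLeft`, `MvPolynomial.optionEquivRight`). The homomorphism is the composition of `MvPolynomial.map (ℚ[X] → S, X ↦ H)`
(`Cop` by S_PRM, as `ℚ[X]` is a PID; `ℚ[X] → S` is injective since `H` is not constant) and of `lam X G : MvPolynomial σ S → MvPolynomial σ S`, `X j ↦ C (X j) + C G * X j` (S_LAM). If `π` does not divide
`rename inl H` it does not divide `rename inl G`: it would divide `rename inl ρ` for a prime factor `ρ` of `G`, and `ρ` divides `H`. Conclude by S_CPA (and once more for the isomorphisms: the inverse image of `(π)` under an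
isomorphism is generated by the inverse image of `π`). -/
def S_TI : Prop :=
  ∀ (σ : Type) [Finite σ] (H G : MvPolynomial σ ℚ) (Z : MvPolynomial (σ ⊕ σ) ℚ), Rad H G Z →
    H ≠ 0 → ¬ IsUnit H → ∀ π : MvPolynomial (σ ⊕ σ) ℚ, Prime π →
    ¬ π ∣ MvPolynomial.rename Sum.inl H →
    (Ideal.comap (eval₂RingHom (tau G : MvPolynomial σ ℚ →+* MvPolynomial (σ ⊕ σ) ℚ)
      (MvPolynomial.rename Sum.inl H)) (Ideal.span {π})).IsPrincipal

def M_TI : Prop := S_CPA → S_PRM → S_LAM → S_TI

/-- On `rename inl H = 0`. By factorization of `H` there is a prime `ρ` of `MvPolynomial σ ℚ`, `ρ ∣ H`, with `π ∣ rename inl ρ`. Choose `j₀` with `ρ ∤ pderiv j₀ ρ`.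
`Th (rename inl φ) = C (mk φ)`; `rename inl ρ` is prime (`MvPolynomial.sumAlgEquiv`, `MvPolynomial.prime_C_iff`; or `MvPolynomial.prime_rename_iff`), so `π` is associated to it and `Th π = 0`; as `ρ ∣ G`, `Th (tau G φ) = C (mk φ)`.
Let `π ∣ h.eval₂ (tau G) Z`; apply `Th`: `∑ C (mk (h.coeff n)) ζ ^ n = 0`, `ζ = Th Z` of positive degree, so all `mk (h.coeff n)` are `0` (composition with a nonconstant polynomial over a domain is
injective: `Polynomial.comp_eq_zero_iff`; the quotient by `(ρ)` is a domain). -/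
def S_TD : Prop :=
  ∀ (σ : Type) [Finite σ] (H G : MvPolynomial σ ℚ) (Z : MvPolynomial (σ ⊕ σ) ℚ), Rad H G Z →
    H ≠ 0 → ∀ π : MvPolynomial (σ ⊕ σ) ℚ, Prime π → π ∣ MvPolynomial.rename Sum.inl H →
    ∃ ρ : MvPolynomial σ ℚ, Prime ρ ∧ ρ ∣ H ∧ ∀ h : (MvPolynomial σ ℚ)[X],
      π ∣ h.eval₂ (tau G : MvPolynomial σ ℚ →+* MvPolynomial (σ ⊕ σ) ℚ) Z → ∀ n, ρ ∣ h.coeff n

/-- The embedding in step `I`. `H = ι f`, `G`, `Z` from S_RAD, `Y = rename inl H`, `τ = tau G`; `θ` as in `Pool/Agent/OIE/EI.lean`. `H` is not a unit: `f` is not a unit of `A`; if `ι f` is the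
constant `r` then `ι (f - r) = 0` and `f = r` (by `Nz`: components at `p = 2`). `Cop θ`: let `π` be prime. If `π ∤ Y`: `A[X] → (MvPolynomial σ ℚ)[X] → MvPolynomial (σ ⊕ σ) ℚ`, S_PR (`ι` is injective by `Nz`),
S_TI, S_CPA, and S_CPC with `B = A[X]`, `i = aeval y`, `y = X`. If `π ∣ Y`: `comap θ (π) = (y)`. `⊇` is clear. Let `π ∣ θ r`, `z ^ m' r = g' (z)`; `π ∣ Z ^ m' θ r = (map ι g').eval₂ τ Z`; with `ρ` from S_TD, all
`ι (g'.coeff n)` are divisible by `ρ`. `comap ι (ρ)` is principal, contains the prime `f` (`ρ ∣ H`) and not `1`, so it is `(f)`: `f ∣ g'.coeff n`, so `z ^ m' r = f * h (z) = y * z * h (z)` in `A'`, and `y` divides `z ^ m' r`. `y` is prime in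
`A'` and does not divide `z` (otherwise `π ∣ Z`, and S_TD with `h = X` gives `ρ ∣ 1`). So `y ∣ r`. -/
def S_EIC : Prop :=
  ∀ (P : F) (A : Subalgebra ℚ F), Good P A → ∀ (y z : F) (f : A) (σ : Type) [Finite σ]
    (ι : A →ₐ[ℚ] MvPolynomial σ ℚ) (t s : ∀ p : Nat.Primes, σ → ℚ_[(p : ℕ)]),
    (∀ (a : A) (p : Nat.Primes), (a : F).2 p = MvPolynomial.aeval (t p) (ι a)) →
    Cop (ι : A →+* MvPolynomial σ ℚ) → (∀ g : A[X], g ≠ 0 → IsUnit (aeval y g)) → Prime f →
    y * z = f → (∀ p, y.2 p = MvPolynomial.aeval (s p) (ι f)) →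
    A ≤ chart A y X ⊓ chart A z X → z ∈ chart A y X ⊓ chart A z X →
    IsDomain ↥(chart A y X ⊓ chart A z X) →
    UniqueFactorizationMonoid ↥(chart A y X ⊓ chart A z X) → Pr (chart A y X ⊓ chart A z X) y →
    EmbC (chart A y X ⊓ chart A z X)

def M_EIC : Prop := S_CONV → S_I0 → S_CPA → S_CPC → S_PR → S_RAD → S_TI → S_TD → S_EIC

/-! ### Lines -/

/-- The polynomial `φ (s + X d)`. -/
noncomputable def line {σ B : Type} [CommRing B] [Algebra ℚ B] (s d : σ → B) :
    MvPolynomial σ ℚ →ₐ[ℚ] B[X] :=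
  MvPolynomial.aeval fun j => C (s j) + X * C (d j)

/-- The degree on a line, and the leading coefficient. Both claims are additive in `φ`, so they follow for sums of monomials `C a * ∏ X j ^ (m j)` of degree `|m| ≤ n`: the polynomial
`C a * ∏ (C (s j) + X * C (d j)) ^ (m j)` has degree `≤ |m|` and its coefficient of index `|m|` is `a * ∏ (d j) ^ (m j)` (`Polynomial.natDegree_prod_le`, `Polynomial.coeff_prod_of_natDegree_le`, or induction:
`MvPolynomial.induction_on'''` or `MvPolynomial.induction_on` in the form: for all `n`). -/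
def S_LDEG : Prop :=
  ∀ (σ B : Type) [CommRing B] [Algebra ℚ B] (s d : σ → B) (φ : MvPolynomial σ ℚ) (n : ℕ),
    φ.totalDegree ≤ n → (line s d φ).natDegree ≤ n ∧
      (line s d φ).coeff n = MvPolynomial.aeval d (MvPolynomial.homogeneousComponent n φ)

/-- Resultants of polynomials without common prime factors. Let `K = Frac D`. The resultant (with the degrees of `f`, `g`) does not change when we pass to `K` (`Polynomial.resultant_map_map`,
`Polynomial.natDegree_map_eq_of_injective`). If it is `0` then `f`, `g` are not coprime over `K` (`Polynomial.resultant_eq_zero_iff`); a common factor over `K`, which is not a unit, can be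
replaced by a primitive polynomial `h` over `D` of positive degree (clear denominators, divide by the content), and `h` divides `f` and `g` over `D` (`Polynomial.IsPrimitive.dvd_of_fraction_map_dvd_fraction_map`).
A prime factor of `h` is a contradiction. -/
def S_LRES : Prop :=
  ∀ (D : Type) [CommRing D] [IsDomain D] [UniqueFactorizationMonoid D] (f g : D[X]),
    f ≠ 0 → (∀ π : D[X], Prime π → ¬ (π ∣ f ∧ π ∣ g)) → f.resultant g ≠ 0

/-- Coprime polynomials on lines. Let `π` be a common prime factor. Case 1: `π ∣ X`. Then `X` divides both (`X` is prime), so (`X ↦ 0`) `a (τ) = p (τ) = 0`, a contradiction. Case 2: otherwise the inverse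
image `J` of `(π)` in `MvPolynomial σ ℚ` is principal: the homomorphism is the composition of
`MvPolynomial σ ℚ → MvPolynomial σ L[X]` (`MvPolynomial.map`; `Cop` by S_PRM: inverse images in the field `ℚ` are principal), the automorphism `X j ↦ X j + C (C (τ j))`, and
`lam 0 X : MvPolynomial σ L[X] → MvPolynomial σ L[X]`, `X j ↦ C X * X j` (S_LAM; together `lam (C ∘ τ) X`, so the automorphism is not needed), followed by the isomorphism with `(MvPolynomial σ L)[X]` (`MvPolynomial.optionEquivLeft`, `MvPolynomial.optionEquivRight`). Use S_CPA. `J` contains `a` and `p`, so its generator divides both and is a unit, a contradiction. -/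
def S_LCOP : Prop :=
  ∀ (σ : Type) [Finite σ] (a p : MvPolynomial σ ℚ), IsRelPrime a p → ∀ (L : Type) [Field L]
    [Algebra ℚ L] (τ : σ → L), ¬ (MvPolynomial.aeval τ a = 0 ∧ MvPolynomial.aeval τ p = 0) →
    ∀ π : (MvPolynomial σ L)[X], Prime π →
    ¬ (π ∣ line (fun j => MvPolynomial.C (τ j)) MvPolynomial.X a ∧
      π ∣ line (fun j => MvPolynomial.C (τ j)) MvPolynomial.X p)

def M_LCOP : Prop := S_CPA → S_PRM → S_LAM → S_LCOP

/-- The properties of the resultant `c (s, d)` of `a (s + X d)` and `p (s + X d)`. -/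
structure LnC {σ : Type} (a p : MvPolynomial σ ℚ) (c : MvPolynomial (σ ⊕ σ) ℚ) : Prop where
  mem : ∀ (B : Type) [CommRing B] [Algebra ℚ B] (s d : σ → B) (l : B),
    MvPolynomial.aeval (Sum.elim s d) c ∈
      Ideal.span {MvPolynomial.aeval (fun j => s j + l * d j) a,
        MvPolynomial.aeval (fun j => s j + l * d j) p}
  inv : ∀ (B : Type) [CommRing B] [Algebra ℚ B] (s d : σ → B) (l : B),
    MvPolynomial.aeval (Sum.elim (fun j => s j + l * d j) d) c =
      MvPolynomial.aeval (Sum.elim s d) c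
  ne : ∀ (L : Type) [Field L] [Algebra ℚ L] (τ : σ → L),
    ¬ (MvPolynomial.aeval τ a = 0 ∧ MvPolynomial.aeval τ p = 0) →
    (MvPolynomial.aeval (Sum.elim (fun j => MvPolynomial.C (τ j)) MvPolynomial.X) c :
      MvPolynomial σ L) ≠ 0

/-- The image of `φ` in `B₀[X]`, `B₀ = MvPolynomial (σ ⊕ σ) ℚ`, on the generic line. -/
noncomputable abbrev gl {σ : Type} (φ : MvPolynomial σ ℚ) : (MvPolynomial (σ ⊕ σ) ℚ)[X] :=
  line (fun j => MvPolynomial.X (Sum.inl j)) (fun j => MvPolynomial.X (Sum.inr j)) φ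

/-- The resultant on lines: degrees, `mem` and `inv`. By S_LDEG `natDegree (gl φ) = totalDegree φ` for `φ ≠ 0` (the coefficient is `rename inr` of the top homogeneous component, not `0`). `mem`: `C c = gl a * u + gl p * v` (`Polynomial.exists_mul_add_mul_eq_C_resultant`);
map by `X (inl j) ↦ s j`, `X (inr j) ↦ d j`, `X ↦ l`. `inv`: it is enough to prove it in `B₀[X]` for `s = C ∘ X ∘ inl`, `d = C ∘ X ∘ inr`, `l = X`. The image of `gl φ` under `B₀ → B₀[X]`, `X (inl j) ↦ C (X (inl j)) + X * C (X (inr j))`, `X (inr j) ↦ C (X (inr j))` is the Taylor expansion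
(`Polynomial.taylor X`) of the image under `C`; use `Polynomial.resultant_map_map` and `Polynomial.resultant_taylor` (the degrees do not change). -/
def S_LNM : Prop :=
  ∀ (σ : Type) (a p : MvPolynomial σ ℚ), a ≠ 0 → p ≠ 0 → ¬ IsUnit a → ¬ IsUnit p →
    ((∀ φ : MvPolynomial σ ℚ, φ ≠ 0 → (gl φ).natDegree = φ.totalDegree) ∧
    (∀ (B : Type) [CommRing B] [Algebra ℚ B] (s d : σ → B) (l : B),
      MvPolynomial.aeval (Sum.elim s d) ((gl a).resultant (gl p)) ∈
        Ideal.span {MvPolynomial.aeval (fun j => s j + l * d j) a,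
          MvPolynomial.aeval (fun j => s j + l * d j) p}) ∧
    ∀ (B : Type) [CommRing B] [Algebra ℚ B] (s d : σ → B) (l : B),
      MvPolynomial.aeval (Sum.elim (fun j => s j + l * d j) d) ((gl a).resultant (gl p)) =
        MvPolynomial.aeval (Sum.elim s d) ((gl a).resultant (gl p)))

def M_LNM : Prop := S_LDEG → S_LNM

/-- The resultant on lines, conclusion. If `a` is a unit, so a nonzero constant, take `c = C` of this constant; similarly for `p` (in particular if `a = 0` or `p = 0`: the other one is a unit). Otherwise `c = (gl a).resultant (gl p)`. `mem`, `inv`: S_LNM.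
`ne`: let `D = MvPolynomial σ L`; the image of `gl φ` under `B₀ → D`, `X (inl j) ↦ C (τ j)`, `X (inr j) ↦ X j`,
is `line (C ∘ τ) X φ`, of the same degree `totalDegree φ` by S_LDEG (top component mapped to `MvPolynomial σ L`, injective). So the image of `c` is the resultant of the images, which is not `0` by S_LCOP and S_LRES. -/
def S_LN : Prop :=
  ∀ (σ : Type) [Finite σ] (a p : MvPolynomial σ ℚ), IsRelPrime a p →
    ∃ c : MvPolynomial (σ ⊕ σ) ℚ, LnC a p c

def M_LN : Prop := S_LDEG → S_LRES → S_LCOP → S_LNM → S_LN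

/-! ### The substitution `Φ` -/

/-- The polynomial `c (s, d)`, `d j = X (some j)`. -/
noncomputable def cc {σ B : Type} [CommRing B] [Algebra ℚ B] (c : MvPolynomial (σ ⊕ σ) ℚ)
    (s : σ → B) : MvPolynomial (Option σ) B :=
  MvPolynomial.aeval (Sum.elim (fun i => MvPolynomial.C (s i))
    (fun i => MvPolynomial.X (some i))) c

/-- One step: the point `s + μ c (s, d) d`, `μ = X none`, `d j = X (some j)`. -/
noncomputable def stp {σ B : Type} [CommRing B] [Algebra ℚ B] (c : MvPolynomial (σ ⊕ σ) ℚ)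
    (s : σ → B) : σ → MvPolynomial (Option σ) B :=
  fun j => MvPolynomial.C (s j) + MvPolynomial.X none * cc c s * MvPolynomial.X (some j)

/-- Comaximality. Let `s' = stp c s` and `I = (a (s'), p (s'))`. By `LnC.mem` with `l = μ c (s, d)`, `c (s, d) ∈ I`. Modulo `c (s, d)` `s' ≡ s`, so `φ (s') ≡ φ (s)` for all `φ` (pass to the quotient ring). So `a (s), p (s) ∈ I`, and `1 ∈ I`. -/
def S_STA : Prop :=
  ∀ (σ : Type) (a p : MvPolynomial σ ℚ) (c : MvPolynomial (σ ⊕ σ) ℚ), LnC a p c →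
    ∀ (B : Type) [CommRing B] [Algebra ℚ B] (s : σ → B),
    IsCoprime (MvPolynomial.aeval s a) (MvPolynomial.aeval s p) →
    IsCoprime (MvPolynomial.aeval (stp c s) a) (MvPolynomial.aeval (stp c s) p)

/-- Lifting of points. `K` is infinite. `c (t, ·) ≠ 0` and `c (s₀, ·) ≠ 0` by `LnC.ne`, so `c (s₀, t - δ - s₀)` is a nonzero polynomial in `δ` (substitute `δ ↦ t - s₀ - δ`), and there is `δ ∈ K^σ` with
`c (t, δ) ≠ 0` and `c (s₀, t - δ - s₀) ≠ 0` (`MvPolynomial.funext` for the product). Take `x (some j) = t j - δ j - s₀ j`, `x none = 1 / c (s₀, x (some ·))`: the value of `stp c s₀` at `x` is `t - δ`. By `LnC.inv` (`l = 1`) `c (t - δ, δ) = c (t, δ) ≠ 0`. Take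
`y (some j) = δ j`, `y none = 1 / c (t, δ)`. -/
def S_STB : Prop :=
  ∀ (σ : Type) (a p : MvPolynomial σ ℚ) (c : MvPolynomial (σ ⊕ σ) ℚ), LnC a p c →
    ∀ s₀ : σ → ℚ, ¬ (MvPolynomial.aeval s₀ a = 0 ∧ MvPolynomial.aeval s₀ p = 0) →
    ∀ (K : Type) [Field K] [Algebra ℚ K] (t : σ → K),
    ¬ (MvPolynomial.aeval t a = 0 ∧ MvPolynomial.aeval t p = 0) →
    ∃ x y : Option σ → K, ∀ j, MvPolynomial.eval₂ (MvPolynomial.aeval x :
      MvPolynomial (Option σ) ℚ →ₐ[ℚ] K).toRingHom y (stp c (stp c s₀) j) = t j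

/-- Injectivity of one step. For `φ ≠ 0` choose `t ∈ ℚ^σ` with `φ (t) ≠ 0` and `c (s₀, t - s₀) ≠ 0` (`LnC.ne`, `MvPolynomial.funext`); the value of `φ (stp c s₀)` at `d = t - s₀`, `μ = 1 / c (s₀, d)` is `φ (t) ≠ 0`. -/
def S_STI : Prop :=
  ∀ (σ : Type) (a p : MvPolynomial σ ℚ) (c : MvPolynomial (σ ⊕ σ) ℚ), LnC a p c →
    ∀ s₀ : σ → ℚ, ¬ (MvPolynomial.aeval s₀ a = 0 ∧ MvPolynomial.aeval s₀ p = 0) →
    Function.Injective (MvPolynomial.aeval (R := ℚ) (stp c s₀))

/-- The exceptional divisors. Case 1: `π ∣ X none`. Then `X none ∣ φ (stp c τ)` (`X none` is prime, so associated to `π`); put `X none ↦ 0`: `C (φ (τ)) = 0`, so `φ = 0` by injectivity. Case 2: `π ∣ cc c τ`. Modulo `cc c τ` `stp c τ ≡ C ∘ τ`, so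
`π ∣ C (φ (τ))`. If `φ ≠ 0` then `φ (τ) ≠ 0`, so `π` is a constant, `π = C ρ` (total degrees: `MvPolynomial.totalDegree_mul_of_isDomain`, `MvPolynomial.totalDegree_eq_zero_iff_eq_C`), `ρ` prime in `B` (`MvPolynomial.prime_C_iff`). Let `L = Frac (B ⧸ (ρ))`. The image of `cc c τ` in
`MvPolynomial (Option σ) L` is `0`, and it is (up to renaming variables by `some`) the polynomial of `LnC.ne` for the image of `τ`, which is not a common zero of `a`, `p`, since they are comaximal at `τ`. Contradiction. -/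
def S_STC : Prop :=
  ∀ (σ : Type) (a p : MvPolynomial σ ℚ) (c : MvPolynomial (σ ⊕ σ) ℚ), LnC a p c →
    ∀ (B : Type) [CommRing B] [IsDomain B] [Algebra ℚ B] (τ : σ → B),
    IsCoprime (MvPolynomial.aeval τ a) (MvPolynomial.aeval τ p) →
    Function.Injective (MvPolynomial.aeval (R := ℚ) τ) →
    ∀ π : MvPolynomial (Option σ) B, Prime π → π ∣ MvPolynomial.X none * cc c τ →
    ∀ φ : MvPolynomial σ ℚ, π ∣ MvPolynomial.aeval (stp c τ) φ → φ = 0

/-- The homomorphism over `B` with `X (some j) ↦ stp c τ j`, `X none ↦ X none * cc c τ`. -/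
noncomputable def Omg {σ B : Type} [CommRing B] [Algebra ℚ B] (c : MvPolynomial (σ ⊕ σ) ℚ)
    (τ : σ → B) : MvPolynomial (Option σ) B →ₐ[B] MvPolynomial (Option σ) B :=
  MvPolynomial.aeval fun o => o.elim (MvPolynomial.X none * cc c τ) (stp c τ)

/-- `Omg` is injective: let `K = Frac B` (infinite), `g ≠ 0`. There is a point of `K^(Option σ)`, given by `(s, m)`, with `g (s, m) ≠ 0`, `m ≠ 0` (`MvPolynomial.funext` for the image of `g * X none`); so the polynomial
`g (τ + m d, m)` in `(d, m)` is not `0` (value at `d = (s - τ) / m`). Choose `(d, m)` with `g (τ + m d, m) ≠ 0`, `m ≠ 0`, `c (τ, d) ≠ 0` (product of nonzero polynomials). The value of `Omg g` at `X (some j) ↦ d j`, `X none ↦ m / c (τ, d)` is `g (τ + m d, m) ≠ 0`. -/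
def S_STO : Prop :=
  ∀ (σ : Type) (c : MvPolynomial (σ ⊕ σ) ℚ) (B : Type) [CommRing B] [IsDomain B] [Algebra ℚ B]
    (τ : σ → B), cc c τ ≠ 0 → Function.Injective (Omg c τ)

/-- `Omg` is birational. Let `M = X none ∈ MvPolynomial (Option σ) B`, `Ω = Omg c τ`. (1) For every polynomial `h` in the variables `X (some j)` there are `N`, `h'` with `Ω h' = (Ω M) ^ N * h` (induction:
`Ω M * X (some j) = Ω (X (some j) - C (τ j))`). (2) In particular `Ω c' = (Ω M) ^ N * cc c τ`. Put `G = M * c'`. Then for all `h` there are `N'`, `h'` with `Ω h' = (Ω G) ^ N' * h`: for `X (some j)` by `Ω G * X (some j) = Ω (c' * (X (some j) - C (τ j)))`, for `X none` by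
`Ω c' * X none = (Ω M) ^ (N + 1)`, `Ω G * X none = Ω (M ^ (N + 2))`. (3) `π ∤ Ω G`, as `Ω G` is a product of powers of `X none`, `cc c τ`. -/
def S_STG : Prop :=
  ∀ (σ : Type) (c : MvPolynomial (σ ⊕ σ) ℚ) (B : Type) [CommRing B] [Algebra ℚ B] (τ : σ → B),
    ∃ G : MvPolynomial (Option σ) B,
      (∀ h, ∃ (N : ℕ) (h' : MvPolynomial (Option σ) B), Omg c τ h' = Omg c τ G ^ N * h) ∧
      ∀ π, Prime π → ¬ π ∣ MvPolynomial.X none * cc c τ → ¬ π ∣ Omg c τ G

/-- Away from the exceptional divisors. By S_STO, S_STG and S_CPB `comap (Omg c τ) (π)` is principal. The homomorphism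
`MvPolynomial σ ℚ → MvPolynomial (Option σ) B`, `X j ↦ X (some j)`, is injective with `Cop`: it is (`MvPolynomial.optionEquivRight`) `MvPolynomial.map (ℚ → B[X])`, and S_PRM applies (inverse images in the field `ℚ` are principal). S_CPA. -/
def S_STD : Prop :=
  ∀ (σ : Type) [Finite σ] (c : MvPolynomial (σ ⊕ σ) ℚ) (B : Type) [CommRing B] [IsDomain B]
    [UniqueFactorizationMonoid B] [Algebra ℚ B] (τ : σ → B), cc c τ ≠ 0 →
    ∀ π : MvPolynomial (Option σ) B, Prime π → ¬ π ∣ MvPolynomial.X none * cc c τ →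
    (Ideal.comap (MvPolynomial.aeval (R := ℚ) (stp c τ)).toRingHom (Ideal.span {π})).IsPrincipal

def M_STD : Prop := S_CPA → S_CPB → S_PRM → S_STO → S_STG → S_STD

/-- The substitution. `c` from S_LN; `s₀ ∈ ℚ^σ` with `a (s₀) ≠ 0` (or `p (s₀) ≠ 0`; not both `a`, `p` are `0`). `Φ` is `φ ↦ φ (stp c (stp c s₀))`, followed by the isomorphism `MvPolynomial.sumAlgEquiv` (`ω = Option σ ⊕ Option σ`). `a (s₀)`, `p (s₀)` are comaximal in the
field `ℚ`; S_STA twice. Points: S_STB. Injectivity: apply S_STC to a prime `π` dividing `X none` (if `φ (…) = 0` then `π` divides it), with S_STI and S_STA. `Cop`: for `π ∣ X none * cc c τ` the inverse image is `0` by S_STC, otherwise S_STD (`cc c τ ≠ 0` by `LnC.ne` over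
`Frac B`). -/
def S_PHI : Prop :=
  ∀ (σ : Type) [Finite σ] (a p : MvPolynomial σ ℚ), IsRelPrime a p →
    ∃ (ω : Type) (_ : Finite ω) (Φ : MvPolynomial σ ℚ →ₐ[ℚ] MvPolynomial ω ℚ),
      Function.Injective Φ ∧ Cop (Φ : MvPolynomial σ ℚ →+* MvPolynomial ω ℚ) ∧
      IsCoprime (Φ a) (Φ p) ∧
      ∀ (K : Type) [Field K] [Algebra ℚ K] (t : σ → K),
        ¬ (MvPolynomial.aeval t a = 0 ∧ MvPolynomial.aeval t p = 0) →
        ∃ t' : ω → K, ∀ φ, MvPolynomial.aeval t' (Φ φ) = MvPolynomial.aeval t φ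

def M_PHI : Prop := S_LN → S_STA → S_STB → S_STI → S_STC → S_STD → S_PHI

/-! ### Step `F` -/

/-- The homomorphism in step `F` (compare `Pool/Agent/OIE/EI.lean`: `Cor`, `exists_hom`). `A` is a domain (S_CONV), `ι` is injective (`Nz`). Write `a₁ = ι a`, `p₁ = ι p` (`≠ 0`), `R = (MvPolynomial ω ℚ)[X]`, `U = C U₀ + C p₁ * X`, `V = C V₀ - C a₁ * X`, so `a₁ U + p₁ V = 1`.
The point: `x l = (u.2 l - U₀ (t l)) / p.2 l`, so that `U ↦ u.2 l`, `V ↦ v.2 l` (from `a u + p v = 1`).
`Ψ : A[X] → R` is `C a ↦ C (ι a)`, `X ↦ U`, and `Ψ'` the same with `X ↦ V`. For `r` in the new ring, `p ^ m r = g (u)`, `a ^ m' r = g' (v)`, `e = deg g'`: `a ^ m' p ^ e g = p ^ m ∑ g'_i p ^ (e - i) (1 - a X) ^ i` in `A[X]` (values at `u`; compare `OID.t_F0`), and applying `Ψ`: `a₁ ^ m' Ψ g = p₁ ^ m Ψ' g'`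
(cancel `p₁ ^ e`). `p₁`, `a₁` are comaximal, so there is a unique `W` with `p₁ ^ m W = Ψ g`, and `a₁ ^ m' W = Ψ' g'`. This defines `θ r = W` (a ring homomorphism by uniqueness), and the `l`-component of `r` is the value of `θ r`. The last two properties hold for all `m`, `g`: by uniqueness (`aeval u` and `aeval v`
are injective). -/
def S_EFA : Prop :=
  ∀ (P : F) (A : Subalgebra ℚ F), Good P A → ∀ (u v : F) (p a : A) (ω : Type)
    (ι : A →ₐ[ℚ] MvPolynomial ω ℚ) (t : ∀ l : Nat.Primes, ω → ℚ_[(l : ℕ)]),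
    (∀ (b : A) (l : Nat.Primes), (b : F).2 l = MvPolynomial.aeval (t l) (ι b)) →
    (∀ g : A[X], g ≠ 0 → IsUnit (aeval u g)) → (∀ g : A[X], g ≠ 0 → IsUnit (aeval v g)) →
    Prime p → ¬ p ∣ a → (a : F) * u + p * v = 1 →
    ∀ U₀ V₀ : MvPolynomial ω ℚ, ι a * U₀ + ι p * V₀ = 1 →
    ∃ (θ : ↥(chart A u (C p) ⊓ chart A v (C a)) →ₐ[ℚ] (MvPolynomial ω ℚ)[X])
      (x : ∀ l : Nat.Primes, ℚ_[(l : ℕ)]),
      (∀ (r : ↥(chart A u (C p) ⊓ chart A v (C a))) (l : Nat.Primes),
        (r : F).2 l = (θ r).eval₂ (MvPolynomial.aeval (R := ℚ) (t l)).toRingHom (x l)) ∧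
      (∀ (r : ↥(chart A u (C p) ⊓ chart A v (C a))) (m : ℕ) (g : A[X]),
        (p : F) ^ m * (r : F) = aeval u g →
        C (ι p) ^ m * θ r = g.eval₂ (C.comp (ι : A →+* MvPolynomial ω ℚ)) (C U₀ + C (ι p) * X)) ∧
      (∀ (r : ↥(chart A u (C p) ⊓ chart A v (C a))) (m : ℕ) (g : A[X]),
        (a : F) ^ m * (r : F) = aeval v g →
        C (ι a) ^ m * θ r = g.eval₂ (C.comp (ι : A →+* MvPolynomial ω ℚ)) (C V₀ - C (ι a) * X))

def M_EFA : Prop := S_CONV → S_EFA

/-- The embedding in step `F`. `ι a`, `ι p` are relatively prime: if a prime `π` divides both then `comap ι (π) = (q)` contains `a` and `p`; `q ∣ p`, `q ∣ a`, `p` is prime and does not divide `a`, so `q` is a unit, a contradiction. `ω`, `Φ` from S_PHI; `t' ℓ` the lift of `t ℓ`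
(`a.2 ℓ ≠ 0` by `Nz`). Write `a₁ = Φ (ι a)`, `p₁ = Φ (ι p)`, `a₁ U₀ + p₁ V₀ = 1`, `R = (MvPolynomial ω ℚ)[X]` (isomorphic to `MvPolynomial (Option ω) ℚ`: `MvPolynomial.optionEquivLeft`). `θ`, `x` from S_EFA for `Φ ∘ ι`, `t'`. `Cop θ`: a prime `π` does not divide both `p₁`, `a₁`. If it does not divide `C p₁`:
`A[X] → (MvPolynomial ω ℚ)[X]` is `Cop` (S_PR and S_CPA for `Φ ∘ ι`, injective by `Nz`), `X ↦ U = C U₀ + C p₁ * X` is birational over `MvPolynomial ω ℚ` (S_CPB with `G = C p₁`: `C p₁ * X = (X ↦ U) (X - C U₀)`), S_CPA, and S_CPC with `B = A[X]`, `i = aeval u`, `y = C p`. If it does not divide `C a₁`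
use `v`, `V = C V₀ - C a₁ * X`, `a` instead. -/
def S_EFC : Prop :=
  ∀ (P : F) (A : Subalgebra ℚ F), Good P A → EmbC A → ∀ (u v : F) (p a : A),
    (∀ g : A[X], g ≠ 0 → IsUnit (aeval u g)) → (∀ g : A[X], g ≠ 0 → IsUnit (aeval v g)) →
    Prime p → ¬ p ∣ a → (a : F) * u + p * v = 1 →
    A ≤ chart A u (C p) ⊓ chart A v (C a) → u ∈ chart A u (C p) ⊓ chart A v (C a) →
    v ∈ chart A u (C p) ⊓ chart A v (C a) → IsDomain ↥(chart A u (C p) ⊓ chart A v (C a)) →
    UniqueFactorizationMonoid ↥(chart A u (C p) ⊓ chart A v (C a)) →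
    EmbC (chart A u (C p) ⊓ chart A v (C a))

def M_EFC : Prop := S_CONV → S_CPA → S_CPB → S_CPC → S_PR → S_PHI → S_EFA → S_EFC

/-! ### The steps of the construction with `EmbC` -/

/-- The trivial ring (there are no primes in `MvPolynomial Empty ℚ`, a field; compare `Pool/Agent/OIE/EG.lean`), and a polynomial ring in one variable (S_PR, and the isomorphism `OID.G.iso` of `A[X]` with `chart A y 1`). -/
def S_EGC : Prop :=
  EmbC ⊥ ∧ ∀ (A : Subalgebra ℚ F) [IsDomain A] [UniqueFactorizationMonoid A] (y : F), Nz A →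
    EmbC A → (∀ g : A[X], aeval y g = 0 → g = 0) → EmbC (chart A y 1)

def M_EGC : Prop := S_CPA → S_PR → S_EGC

/-- The first ring (proof of `OIE.t_BASE2`; `⊥` is a field). -/
def S_BASE3 : Prop := ∃ (P : F) (A : Subalgebra ℚ F), HP P ∧ Good P A ∧ EmbC A

def M_BASE3 : Prop := S_AD → S_RAT → S_CONV → S_EGC → S_BASE3

/-- Adjoining an element near `α` (proof of `OIE.t_G2`). -/
def S_G3 : Prop :=
  ∀ (P : F) (A : Subalgebra ℚ F), HP P → Good P A → EmbC A → ∀ α : ℝ*, (∃ k : ℕ, |α| < Om ^ k) →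
    ∃ A', Good P A' ∧ Ext A A' ∧ EmbC A' ∧ ∃ a ∈ A', ∃ n : ℕ, |α - a.1| ≤ n

def M_G3 : Prop := S_RL → S_AD → S_RAT → S_CONV → S_EGC → S_G3

/-- Splitting a normal prime (proof of `OIE.t_I2`, with S_EIC instead of S_EI). -/
def S_I3 : Prop :=
  ∀ (P : F) (A : Subalgebra ℚ F), HP P → Good P A → EmbC A → ∀ f, NPr A f → Om < |f.1| →
    ∃ A', Good P A' ∧ Ext A A' ∧ EmbC A' ∧ ¬ Pr A' f

def M_I3 : Prop := S_IVT → S_RL → S_AD2 → S_RAT → S_CONV → S_CHART → S_I0 → S_EIC → S_I3

/-- Making `p` and `a` comaximal (proof of `OID.t_F`, file `Pool/Agent/OID/F.lean`, and S_EFC for the new ring `F.RR`). -/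
def S_F3 : Prop :=
  ∀ (P : F) (A : Subalgebra ℚ F), HP P → Good P A → EmbC A → ∀ p a, Pr A p → a ∈ A →
    (¬ ∃ c ∈ A, a = p * c) →
    ∃ A', Good P A' ∧ Ext A A' ∧ EmbC A' ∧ ∃ u ∈ A', ∃ v ∈ A', a * u + p * v = 1

def M_F3 : Prop := S_RL → S_AD → S_RAT → S_CONV → S_CHART → S_F0 → S_EFC → S_F3

/-- Closing off with dovetailing (proof of `OIE.t_CLO2`, file `Pool/Agent/OIE/CLO2.lean`, with the additional requirements `comax`). -/
def S_CLO3 : Prop := ∃ (P : F) (A : Subalgebra ℚ F), HP P ∧ Fin' P A ∧ Fin2 P A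

def M_CLO3 : Prop := S_CONV → S_BASE3 → S_G3 → S_I3 → S_F3 → S_TR → S_UNI → S_CLO3

/-- The ring, with its embedding into the hyperreals (proofs of `OID.t_RING` and `OIE.t_RING2`). -/
def S_RING3 : Prop :=
  ∃ (M : Type) (_ : CommRing M) (e : M →+* ℝ*) (P : M), Function.Injective e ∧
    (∀ x, 0 < e x → 1 ≤ e x) ∧ IsDomain M ∧ IsPrincipalIdealRing M ∧
    (∀ g : M[X], g ≠ 0 → ∀ α, (g.map e).eval α = 0 → ∃ x, e x ≤ α ∧ α < e x + 1) ∧
    (∀ q : M, Prime q → |e q| ≤ Om) ∧ Prime P ∧ e P = Om ∧ (∀ x, ∃ k : ℕ, |e x| < Om ^ k) ∧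
    (∀ (p : ℕ) [Fact p.Prime], ∃ f : M →+* ℤ_[p], Function.Injective f) ∧ Dio M

def M_RING3 : Prop := S_RAT → S_CONV → S_CLO3 → S_MUFD → S_MPID → S_MINT → S_EQN → S_RING3

/-- The order (proofs of `OID.t_ALG` and `OIE.t_ALG2`). -/
def S_ALG3 : Prop :=
  ∃ (M : Type) (_ : CommRing M) (_ : LinearOrder M) (_ : IsStrictOrderedRing M), OID.Alg M ∧
    (∀ (p : ℕ) [Fact p.Prime], ∃ f : M →+* ℤ_[p], Function.Injective f) ∧ Dio M ∧
    ∃ P : M, (∀ n : ℕ, (n : M) < P) ∧ IsPr P ∧ (∀ y, IsPr y → y ≤ P) ∧ ∀ x : M, ∃ k : ℕ, x < P ^ k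

def M_ALG3 : Prop := S_IVT → S_RING3 → S_ALG3

/-- Divisibility. Let `x : Fin n → M`. (1) From `Dio`: for all finite sets `E`, `G` of polynomials in variables indexed by the elements of `M` (`MvPolynomial M ℤ`), with `aeval id e = 0`
for `e ∈ E` and `aeval id g ≠ 0` for `g ∈ G`, there is `h : M → ℤ` with `aeval h e = 0` (`e ∈ E`) and `aeval h g ≠ 0` (`g ∈ G`): the sum of the squares of the `e`, the product of the `g`,
`MvPolynomial.exists_finset_rename₂`. (2) By induction on `φ` there are `E`, `G` as in (1) such that `φ` holds at `x` if and only if it holds at `h ∘ x`, for every `h` as in (1). Atoms `p ∣ q`: if `q = p c` use this equation.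
Otherwise, if `p = 0`, use `p = 0`, `q ≠ 0`; and if `p ≠ 0`, use `p ≠ 0`, `p = d a`, `q = d b`, `u a + v b = 1`, `a ^ 2 ≠ 1`. Greatest common divisors: `r` is one if and only if it is
associated to the generator `d` of the ideal `(p, q)`; `p = d a`, `q = d b`, `d = u p + v q`. -/
def S_UDV : Prop :=
  ∀ (M : Type) [CommRing M] [IsDomain M] [IsPrincipalIdealRing M], Dio M → Universal M

/-- The theorem (proof of `OID.t_MAIN`; `Universal` by S_UDV). -/
def M_MAIN3 : Prop := OID.S_TTERM →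
  (∀ (M : Type) [CommRing M] [LinearOrder M] [IsStrictOrderedRing M], OID.Alg M → Pigeonhole M) →
    S_UDV → S_ALG3 → OIF.MainStatement

end OIF
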