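import Pool.Agent.OID.ALG
import Pool.Agent.OIE.St
import Pool.Agent.OIF.St

/-!
# The order of the ring
-/

set_option autoImplicit false

namespace OIF

open Polynomial OID OIE

namespace ALG3

open OID.ALG

section

variable {M : Type} [CommRing M] [LinearOrder M] [IsStrictOrderedRing M]

/-- The last part. -/
theorem main (hI : S_IVT) (e : M →+* ℝ*) (he : StrictMono e) (disc : ∀ x : M, 0 < x → 1 ≤ x)
    (hdom : IsDomain M) (hpid : IsPrincipalIdealRing M)
    (hr : ∀ g : M[X], g ≠ 0 → ∀ α, (g.map e).eval α = 0 → ∃ x, e x ≤ α ∧ α < e x + 1)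
    (P : M) (hq : ∀ q : M, Prime q → |e q| ≤ Om) (hP : Prime P) (heP : e P = Om)
    (hb : ∀ x, ∃ k : ℕ, |e x| < Om ^ k) :
    OID.Alg M ∧ (∀ n : ℕ, (n : M) < P) ∧ IsPr P ∧ (∀ y, IsPr y → y ≤ P) ∧
      ∀ x : M, ∃ k : ℕ, x < P ^ k := by
  have hn : ∀ n : ℕ, (n : M) < P := by
    intro n
    apply he.lt_iff_lt.1
    rw [map_natCast, heP]
    exact_mod_cast Hyperreal.coe_lt_omega (n : ℝ)
  refine ⟨⟨disc, hpid, roots hI e he disc hr⟩, hn, ⟨?_, ?_⟩, ?_, ?_⟩
  · have := hn 1
    rwa [Nat.cast_one] at this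
  · intro u v hu hv huv
    rcases hP.irreducible.isUnit_or_isUnit huv.symm with h | h
    · exact Or.inl (unit_one disc u h hu)
    · exact Or.inr (unit_one disc v h hv)
  · intro y hy
    have h1 : Prime y := (irr_of_isPr disc y hy).prime
    apply he.le_iff_le.1
    rw [heP]
    exact (le_abs_self _).trans (hq y h1)
  · intro x
    obtain ⟨k, hk⟩ := hb x
    refine ⟨k, he.lt_iff_lt.1 ?_⟩
    rw [map_pow, heP]
    exact lt_of_le_of_lt (le_abs_self _) hk

end

end ALG3

/-- ALG: the order. -/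
theorem t_ALG3 : M_ALG3 := by
  intro hI hR
  obtain ⟨M, iR, e, P, hinj, hdisc, hdom, hpid, hr, hq, hP, heP, hb, hp, hd⟩ := hR
  let iL : LinearOrder M := LinearOrder.lift' e hinj
  have hle : ∀ x y : M, e x ≤ e y ↔ x ≤ y := fun x y => Iff.rfl
  have hlt : ∀ x y : M, e x < e y ↔ x < y := fun x y => Iff.rfl
  have iS : IsStrictOrderedRing M :=
    Function.Injective.isStrictOrderedRing e (map_zero e) (map_one e) (map_add e) (map_mul e)
      (fun {x y} => hle x y) (fun {x y} => hlt x y)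
  have he : StrictMono e := fun x y h => (hlt x y).2 h
  have disc : ∀ x : M, 0 < x → 1 ≤ x := by
    intro x hx
    refine (hle 1 x).1 ?_
    rw [map_one]
    apply hdisc
    have := he hx
    rwa [map_zero] at this
  obtain ⟨h1, h2, h3, h4, h5⟩ := ALG3.main hI e he disc hdom hpid hr P hq hP heP hb
  exact ⟨M, iR, iL, iS, h1, hp, hd, P, h2, h3, h4, h5⟩

end OIF
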