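import Pool.Agent.OID.CLO
import Pool.Agent.OIF.St

/-!
# Closing off, with dovetailing and the requirements on comaximal elements
-/

set_option autoImplicit false

namespace OIF

open Polynomial OID OIE

namespace CLO3

open OID.CLO

theorem emb_of_embC {A : Subalgebra ℚ F} (h : EmbC A) : Emb A := by
  obtain ⟨σ, _, ι, t, h1, -⟩ := h
  exact ⟨σ, ι, t, h1⟩

/-- the stages of the construction -/
abbrev Stg (P : F) : Type := {A : Subalgebra ℚ F // Good P A ∧ EmbC A}

/-- Dovetailing: for requirements `T A i` (the `i`-th requirement of the stage `A`) that can be satisfied by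
extensions, there is a chain in which all requirements of all members are satisfied. -/
theorem dovetail {P : F} (A₀ : Stg P) (T : Stg P → ℕ → Stg P → Prop)
    (hT : ∀ (A B : Stg P) (i : ℕ), ∃ C : Stg P, Ext B.1 C.1 ∧ T A i C) :
    ∃ A : ℕ → Stg P, (∀ n, Ext (A n).1 (A (n + 1)).1) ∧ ∀ n i, ∃ m, n ≤ m ∧ T (A n) i (A m) := by
  choose nx hnx1 hnx2 using hT
  -- the list of the first stages
  let S : ℕ → (ℕ → Stg P) := fun k => Nat.rec (fun _ => A₀)
    (fun k f => fun j => if j = k + 1 then nx (f (Nat.unpair k).1) (f k) (Nat.unpair k).2 else f j) k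
  have hS : ∀ k, S (k + 1) = fun j => if j = k + 1 then
      nx (S k (Nat.unpair k).1) (S k k) (Nat.unpair k).2 else S k j := fun k => rfl
  have hst : ∀ k j, j ≤ k → S k j = S j j := by
    intro k
    induction k with
    | zero =>
      intro j hj
      rw [Nat.le_zero.1 hj]
    | succ k ih =>
      intro j hj
      rcases Nat.lt_or_ge j (k + 1) with h | h
      · rw [hS k]
        change (if j = k + 1 then nx (S k (Nat.unpair k).1) (S k k) (Nat.unpair k).2 else S k j) = S j j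
        rw [if_neg (by omega)]
        exact ih j (by omega)
      · rw [le_antisymm hj h]
  have hnext : ∀ k, S (k + 1) (k + 1) =
      nx (S (Nat.unpair k).1 (Nat.unpair k).1) (S k k) (Nat.unpair k).2 := by
    intro k
    rw [hS k]
    change (if k + 1 = k + 1 then nx (S k (Nat.unpair k).1) (S k k) (Nat.unpair k).2 else
      S k (k + 1)) = _
    rw [if_pos rfl, hst k _ (Nat.unpair_left_le k)]
  refine ⟨fun k => S k k, fun k => ?_, fun n i => ⟨Nat.pair n i + 1,
    (Nat.left_le_pair n i).trans (Nat.le_succ _), ?_⟩⟩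
  · change Ext (S k k).1 (S (k + 1) (k + 1)).1
    rw [hnext k]
    exact hnx1 _ _ _
  · change T (S n n) i (S (Nat.pair n i + 1) (Nat.pair n i + 1))
    have h := hnx2 (S n n) (S (Nat.pair n i) (Nat.pair n i)) i
    rw [hnext (Nat.pair n i), Nat.unpair_pair]
    exact h

theorem Rq_step3 (hG : S_G3) (hI : S_I3) (hF : S_F3) (hT : S_TR) {P : F} (hP : HP P)
    {A B : Subalgebra ℚ F} (hA : Good P A) (hB : Good P B) (hBE : EmbC B) (hAB : A ≤ B)
    (i : A ⊕ ((A × A) ⊕ Rt A)) : ∃ B', Good P B' ∧ EmbC B' ∧ Ext B B' ∧ Rq A i B' := by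
  rcases i with f | ⟨p, a⟩ | α
  · by_cases h : ¬ NPr B f ∨ |(f : F).1| ≤ Om
    · exact ⟨B, hB, hBE, hT.1 B, h⟩
    · rw [not_or, not_not, not_le] at h
      obtain ⟨B', h2, h3, h3', h4⟩ := hI P B hP hB hBE f h.1 h.2
      exact ⟨B', h2, h3', h3, Or.inl fun hn => h4 hn.1⟩
  · by_cases h : ¬ Pr B p ∨ ∃ c ∈ B, (a : F) = p * c
    · refine ⟨B, hB, hBE, hT.1 B, ?_⟩
      rcases h with h | h
      · exact Or.inl h
      · exact Or.inr (Or.inl h)
    · rw [not_or, not_not] at h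
      obtain ⟨B', h2, h3, h3', h4⟩ := hF P B hP hB hBE p a h.1 (hAB a.2) h.2
      exact ⟨B', h2, h3', h3, Or.inr (Or.inr h4)⟩
  · obtain ⟨g, hg, hα⟩ := α.2
    obtain ⟨B', h2, h3, h3', h4⟩ := hG P B hP hB hBE α (root_lt hA g hg _ hα)
    exact ⟨B', h2, h3', h3, h4⟩

end CLO3

open CLO3 OID.CLO in
theorem t_CLO3 : M_CLO3 := by
  intro hC hB hG hI hF hT hU
  obtain ⟨P, A₀, hP, hA₀, hE₀⟩ := hB
  have henum : ∀ A : Stg P, ∃ e : ℕ → A.1 ⊕ ((A.1 × A.1) ⊕ Rt A.1), Function.Surjective e := by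
    intro A
    have hc : Countable A.1 := A.2.1.cnt
    have hc' : Countable (Rt A.1) := (Rt_countable A.2.1).to_subtype
    have hne : Nonempty (A.1 ⊕ ((A.1 × A.1) ⊕ Rt A.1)) := ⟨Sum.inl 0⟩
    exact exists_surjective_nat _
  choose e he using henum
  obtain ⟨B, hBE, hBR⟩ := dovetail (P := P) ⟨A₀, hA₀, hE₀⟩
    (fun A i C => A.1 ≤ C.1 → Rq A.1 (e A i) C.1)
    (by
      intro A B i
      by_cases hAB : A.1 ≤ B.1
      · obtain ⟨B', h1, h2, h3, h4⟩ := Rq_step3 hG hI hF hT hP A.2.1 B.2.1 B.2.2 hAB (e A i)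
        exact ⟨⟨B', h1, h2⟩, h3, fun _ => h4⟩
      · exact ⟨B, hT.1 B.1, fun h => absurd h hAB⟩)
  obtain ⟨A', hA', hE, hm⟩ := hU P hP (fun n => (B n).1) (fun n => (B n).2.1) hBE
  have hext : ∀ m n, m ≤ n → Ext (B m).1 (B n).1 := by
    intro m n h
    induction n, h using Nat.le_induction with
    | base => exact hT.1 _
    | succ n _ ih => exact hT.2 _ _ _ ih (hBE n)
  have hmono : ∀ m n, m ≤ n → (B m).1 ≤ (B n).1 := fun m n h => (hext m n h).le
  have hRq : ∀ n (i : (B n).1 ⊕ (((B n).1 × (B n).1) ⊕ Rt (B n).1)), Rq (B n).1 i A' := by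
    intro n i
    obtain ⟨k, rfl⟩ := he (B n) i
    obtain ⟨m, hnm, h⟩ := hBR n k
    exact Rq_mono hC (B m).2.1 hA' (hext n m hnm) (hE m) _ (h (hmono n m hnm))
  have hsmall : ∀ q, NPr A' q → |q.1| ≤ Om := by
    intro q hq
    obtain ⟨hqA, -⟩ := hq.1
    obtain ⟨n, hn⟩ := (hm q).1 hqA
    rcases hRq n (Sum.inl ⟨q, hn⟩) with h | h
    · exact absurd hq h
    · exact h
  have hcomax : ∀ p a, Pr A' p → a ∈ A' → (∃ c ∈ A', a = p * c) ∨
      ∃ u ∈ A', ∃ v ∈ A', a * u + p * v = 1 := by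
    intro p a hp ha
    obtain ⟨hpA, -⟩ := id hp
    obtain ⟨n, hn⟩ := (hm p).1 hpA
    obtain ⟨m, hm'⟩ := (hm a).1 ha
    rcases hRq (max n m) (Sum.inr (Sum.inl (⟨p, hmono _ _ (le_max_left _ _) hn⟩,
      ⟨a, hmono _ _ (le_max_right _ _) hm'⟩))) with h | h
    · exact absurd hp h
    · exact h
  have hnear : ∀ g : A'[X], g ≠ 0 → ∀ α : ℝ*, (g.map (toR A')).eval α = 0 →
      ∃ a ∈ A', ∃ n : ℕ, |α - a.1| ≤ n := by
    intro g hg α hα
    have hex : ∀ i, ∃ n, (g.coeff i : F) ∈ (B n).1 := fun i => (hm _).1 (g.coeff i).2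
    choose N hN using hex
    set n := g.support.sup N with hn
    have hle : (B n).1 ≤ A' := (hE n).le
    have hmem : ∀ i, (g.coeff i : F) ∈ (B n).1 := by
      intro i
      by_cases hi : i ∈ g.support
      · exact hmono _ _ (Finset.le_sup hi) (hN i)
      · rw [Polynomial.notMem_support_iff.1 hi]
        exact zero_mem _
    have hl : g ∈ Polynomial.lifts (Subalgebra.inclusion hle).toRingHom := by
      rw [Polynomial.lifts_iff_coeff_lifts]
      intro i
      exact ⟨⟨(g.coeff i : F), hmem i⟩, Subtype.ext rfl⟩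
    obtain ⟨g', hg'⟩ := (Polynomial.mem_lifts _).1 hl
    have hg'0 : g' ≠ 0 := by
      rintro rfl
      rw [Polynomial.map_zero] at hg'
      exact hg hg'.symm
    have hα' : (g'.map (toR (B n).1)).eval α = 0 := by
      rw [← hg', Polynomial.map_map] at hα
      exact hα
    exact hRq n (Sum.inr (Sum.inr ⟨α, g', hg'0, hα'⟩))
  refine ⟨P, A', hP, ⟨hA', hsmall, hcomax, hnear⟩, ⟨hA', hsmall, hnear, ?_⟩⟩
  intro s hs
  have hex : ∀ x : F, ∃ n, x ∈ s → x ∈ (B n).1 := by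
    intro x
    by_cases hx : x ∈ s
    · obtain ⟨n, hn⟩ := (hm x).1 (hs x hx)
      exact ⟨n, fun _ => hn⟩
    · exact ⟨0, fun h => absurd h hx⟩
  choose N hN using hex
  exact ⟨(B (s.sup N)).1, (hE _).le, emb_of_embC (B (s.sup N)).2.2, fun x hx =>
    hmono _ _ (Finset.le_sup hx) (hN x hx)⟩

end OIF
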