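import Pool.Agent.OIF.St

/-!
# Composition of homomorphisms with `Cop`
-/

set_option autoImplicit false

namespace OIF

theorem t_CPA : S_CPA := by
  rintro A B R _ _ _ _ i j hi hc π hπ ⟨ρ, hρ⟩
  rw [← Ideal.comap_comap]
  have hJ : Ideal.comap j (Ideal.span {π}) = Ideal.span {ρ} := hρ
  rw [hJ]
  by_cases h0 : ρ = 0
  · rw [h0, Ideal.span_singleton_eq_bot.2 rfl]
    have h1 : Ideal.comap i ⊥ = ⊥ := (RingHom.injective_iff_ker_eq_bot i).1 hi
    rw [h1]
    infer_instance
  · apply hc ρ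
    have hp : (Ideal.span {π}).IsPrime := (Ideal.span_singleton_prime hπ.ne_zero).2 hπ
    have h2 : (Ideal.comap j (Ideal.span {π})).IsPrime := Ideal.comap_isPrime j _
    rw [hJ, Ideal.span_singleton_prime h0] at h2
    exact h2

end OIF
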