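import Pool.Agent.OIF.St

/-!
# Module CPB of project OIF (MP_8727e9_lc): birational homomorphisms
-/

set_option autoImplicit false

namespace OIF

/-- An element of a prime ideal of a factorial ring has a prime factor in the ideal. -/
theorem CPB.exists_prime_factor {A : Type} [CommRing A] [IsDomain A] [UniqueFactorizationMonoid A]
    (J : Ideal A) [hJ : J.IsPrime] (x : A) (hx : x ∈ J) (h0 : x ≠ 0) :
    ∃ q, Prime q ∧ q ∣ x ∧ q ∈ J := by
  obtain ⟨s, hs, hp⟩ := UniqueFactorizationMonoid.exists_prime_factors x h0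
  have h1 : s.prod ∈ J := by
    obtain ⟨u, hu⟩ := hp.symm
    rw [← hu]
    exact J.mul_mem_right _ hx
  obtain ⟨q, hq, hqJ⟩ := (hJ.multiset_prod_mem_iff_exists_mem s).1 h1
  exact ⟨q, hs q hq, (Multiset.dvd_prod hq).trans hp.dvd, hqJ⟩

/-- **CPB** -/
theorem t_CPB : S_CPB := by
  intro A R _ _ _ _ _ ι G hι hb π hπ hG
  have hP : (Ideal.span {π}).IsPrime := (Ideal.span_singleton_prime hπ.ne_zero).2 hπ
  have hJp : (Ideal.comap ι (Ideal.span {π})).IsPrime := hP.comap ι
  have hmem : ∀ x : A, x ∈ Ideal.comap ι (Ideal.span {π}) ↔ π ∣ ι x := by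
    intro x
    rw [Ideal.mem_comap, Ideal.mem_span_singleton]
  obtain ⟨N, π', hπ'⟩ := hb π
  have h1 : π' ∈ Ideal.comap ι (Ideal.span {π}) := by
    rw [hmem, hπ']
    exact Dvd.intro_left _ rfl
  have hG0 : ι G ≠ 0 := by
    intro h
    exact hG (h ▸ dvd_zero _)
  have h2 : π' ≠ 0 := by
    rintro rfl
    rw [map_zero] at hπ'
    exact mul_ne_zero (pow_ne_zero _ hG0) hπ.ne_zero hπ'.symm
  obtain ⟨q, hq, hqd, hqJ⟩ := CPB.exists_prime_factor _ π' h1 h2
  have hqG : ¬ q ∣ G := fun h => hG (((hmem q).1 hqJ).trans (map_dvd ι h))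
  refine ⟨q, le_antisymm ?_ ?_⟩
  · intro g hg
    obtain ⟨h, hh⟩ := (hmem g).1 hg
    obtain ⟨M, h', hh'⟩ := hb h
    have h3 : G ^ (N + M) * g = π' * h' := by
      apply hι
      rw [map_mul, map_mul, map_pow, hh, hπ', hh', pow_add]
      ring
    have h4 : q ∣ G ^ (N + M) * g := by
      rw [h3]
      exact hqd.mul_right _
    rcases hq.dvd_or_dvd h4 with h5 | h5
    · exact absurd (hq.dvd_of_dvd_pow h5) hqG
    · exact Ideal.mem_span_singleton.2 h5
  · rw [Ideal.submodule_span_eq, Ideal.span_singleton_le_iff_mem]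
    exact hqJ

end OIF
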