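import Mathlib
import Pool.Agent.OIF.St

/-!
# OIF, module CPC: charts
-/

set_option autoImplicit false

namespace OIF

/-- Charts. -/
theorem t_CPC : S_CPC := by
  intro B A R _ _ _ _ _ _ i y θ π hch hπ hπy hpr
  have hprime : (Ideal.span {π} : Ideal R).IsPrime := (Ideal.span_singleton_prime hπ.ne_zero).2 hπ
  have hmem : ∀ r : A, r ∈ Ideal.comap θ (Ideal.span {π}) ↔ π ∣ θ r := by
    intro r
    rw [Ideal.mem_comap, Ideal.mem_span_singleton]
  have hJ : (Ideal.comap θ (Ideal.span {π})).IsPrime := Ideal.IsPrime.comap θ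
  by_cases h0 : Ideal.comap θ (Ideal.span {π}) = ⊥
  · rw [h0]
    exact bot_isPrincipal
  obtain ⟨q, hqJ, hq⟩ := Ideal.IsPrime.exists_mem_prime_of_ne_bot hJ h0
  rw [hmem] at hqJ
  obtain ⟨g, hg⟩ := hpr
  have hg1 : ∀ b : B, π ∣ θ (i b) ↔ g ∣ b := by
    intro b
    have h1 : b ∈ Ideal.comap (θ.comp i) (Ideal.span {π}) ↔ b ∈ Ideal.span {g} := by
      rw [hg]
    rwa [Ideal.mem_comap, Ideal.mem_span_singleton, Ideal.mem_span_singleton,
      RingHom.comp_apply] at h1
  have hqg : q ∣ i g := by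
    obtain ⟨m, g', hm⟩ := hch q
    have h1 : g ∣ g' := by
      rw [← hg1, ← hm, map_mul]
      exact Dvd.dvd.mul_left hqJ _
    obtain ⟨h, hh⟩ := h1
    have h2 : i y ^ m * q = i g * i h := by rw [hm, hh, map_mul]
    rcases hq.dvd_or_dvd (Dvd.intro_left _ h2 : q ∣ i g * i h) with h3 | h3
    · exact h3
    · exfalso
      obtain ⟨c, hc⟩ := h3
      have h4 : i y ^ m = i g * c := by
        have h5 : (i y ^ m) * q = (i g * c) * q := by
          rw [h2, hc]
          ring
        exact mul_right_cancel₀ hq.ne_zero h5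
      have h6 : π ∣ θ (i y) ^ m := by
        rw [← map_pow, h4, map_mul]
        exact Dvd.dvd.mul_right ((hg1 g).2 dvd_rfl) _
      exact hπy (hπ.dvd_of_dvd_pow h6)
  refine ⟨q, le_antisymm ?_ ?_⟩
  · intro r hr
    rw [hmem] at hr
    obtain ⟨m, g'', hm⟩ := hch r
    have h1 : g ∣ g'' := by
      rw [← hg1, ← hm, map_mul]
      exact Dvd.dvd.mul_left hr _
    have h2 : q ∣ i y ^ m * r := by
      rw [hm]
      exact hqg.trans (map_dvd i h1)
    rcases hq.dvd_or_dvd h2 with h3 | h3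
    · exfalso
      exact hπy (hqJ.trans (map_dvd θ (hq.dvd_of_dvd_pow h3)))
    · exact Ideal.mem_span_singleton.2 h3
  · intro r hr
    rw [hmem]
    have h1 : q ∣ r := Ideal.mem_span_singleton.1 hr
    exact hqJ.trans (map_dvd θ h1)

end OIF
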