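import Pool.Agent.OIF.St

/-!
# The homomorphism in step `F`
-/

set_option autoImplicit false

namespace OIF

open Polynomial OID OIE

namespace EFA

/-- The component at `l`, as a ring homomorphism. -/
noncomputable def cp (l : Nat.Primes) : F →+* ℚ_[(l : ℕ)] :=
  (Pi.evalRingHom (fun l : Nat.Primes => ℚ_[(l : ℕ)]) l).comp
    (RingHom.snd ℝ* (∀ l : Nat.Primes, ℚ_[(l : ℕ)]))

theorem cp_apply (l : Nat.Primes) (x : F) : cp l x = x.2 l := rfl

section abs

variable {B K R : Type} [CommRing B] [CommRing K] [Algebra B K] [CommRing R] [IsDomain R]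

/-- The polynomial identity between the two charts. -/
theorem key (u v : K) (p a : B) (hinj : ∀ g₁ g₂ : B[X], aeval u g₁ = aeval u g₂ → g₁ = g₂)
    (hc : algebraMap B K a * u + algebraMap B K p * v = 1) (f : B →+* R) (U V : R)
    (hUV : f a * U + f p * V = 1) (hfp : f p ≠ 0) (r : K) (m m' : ℕ) (g g' : B[X])
    (h1 : algebraMap B K p ^ m * r = aeval u g) (h2 : algebraMap B K a ^ m' * r = aeval v g') :
    f a ^ m' * g.eval₂ f U = f p ^ m * g'.eval₂ f V := by
  set G : B[X] := (scaleRoots g' p).comp (1 - C a * X) with hG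
  have hGu : aeval u G = algebraMap B K p ^ g'.natDegree * aeval v g' := by
    have h3 : algebraMap B K p * v = 1 - algebraMap B K a * u := by
      rw [← hc]
      ring
    have h4 : aeval u (1 - C a * X : B[X]) = algebraMap B K p * v := by
      rw [map_sub, map_one, map_mul, aeval_C, aeval_X]
      exact h3.symm
    rw [hG, aeval_comp, h4, aeval_def, scaleRoots_eval₂_mul, aeval_def]
  have hid : C (a ^ m' * p ^ g'.natDegree) * g = C (p ^ m) * G := by
    apply hinj
    rw [map_mul (aeval u) (C _) g, map_mul (aeval u) (C _) G, aeval_C, aeval_C, hGu, ← h1, ← h2,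
      map_mul, map_pow, map_pow, map_pow]
    ring
  have hGU : G.eval₂ f U = f p ^ g'.natDegree * g'.eval₂ f V := by
    have h3 : f p * V = 1 - f a * U := by
      rw [← hUV]
      ring
    have h4 : (1 - C a * X : B[X]).eval₂ f U = f p * V := by
      rw [eval₂_sub, eval₂_one, eval₂_mul, eval₂_C, eval₂_X]
      exact h3.symm
    rw [hG, eval₂_comp, h4, scaleRoots_eval₂_mul]
  have h5 := congrArg (eval₂ f U) hid
  rw [eval₂_mul, eval₂_mul, eval₂_C, eval₂_C, hGU, map_mul, map_pow, map_pow, map_pow] at h5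
  refine mul_left_cancel₀ (pow_ne_zero g'.natDegree hfp) ?_
  calc f p ^ g'.natDegree * (f a ^ m' * g.eval₂ f U)
      = f a ^ m' * f p ^ g'.natDegree * g.eval₂ f U := by ring
    _ = f p ^ m * (f p ^ g'.natDegree * g'.eval₂ f V) := h5
    _ = _ := by ring

/-- The correspondence. -/
def Cor (u : K) (p : B) (f : B →+* R) (U : R) (r : K) (W : R) : Prop :=
  ∃ (m : ℕ) (g : B[X]), algebraMap B K p ^ m * r = aeval u g ∧ f p ^ m * W = g.eval₂ f U

variable {u : K} {p : B} {f : B →+* R} {U : R}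

theorem cor_val (hinj : ∀ g₁ g₂ : B[X], aeval u g₁ = aeval u g₂ → g₁ = g₂) (hfp : f p ≠ 0)
    {r : K} {W : R} (h : Cor u p f U r W) (m : ℕ) (g : B[X])
    (hg : algebraMap B K p ^ m * r = aeval u g) : f p ^ m * W = g.eval₂ f U := by
  obtain ⟨m₀, g₀, h1, h2⟩ := h
  have e : C (p ^ m) * g₀ = C (p ^ m₀) * g := by
    apply hinj
    rw [map_mul, map_mul, aeval_C, aeval_C, ← h1, ← hg, map_pow, map_pow]
    ring
  have e2 := congrArg (eval₂ f U) e
  rw [eval₂_mul, eval₂_mul, eval₂_C, eval₂_C, ← h2, map_pow, map_pow] at e2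
  refine mul_left_cancel₀ (pow_ne_zero m₀ hfp) ?_
  rw [← e2]
  ring

theorem cor_uniq (hinj : ∀ g₁ g₂ : B[X], aeval u g₁ = aeval u g₂ → g₁ = g₂) (hfp : f p ≠ 0)
    {r : K} {W W' : R} (h : Cor u p f U r W) (h' : Cor u p f U r W') : W = W' := by
  obtain ⟨m, g, h1, h2⟩ := h'
  have h3 := cor_val hinj hfp h m g h1
  rw [← h2] at h3
  exact mul_left_cancel₀ (pow_ne_zero m hfp) h3

omit [IsDomain R] in
theorem cor_add {r r' : K} {W W' : R} (h : Cor u p f U r W) (h' : Cor u p f U r' W') :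
    Cor u p f U (r + r') (W + W') := by
  obtain ⟨m, g, h1, h2⟩ := h
  obtain ⟨m', g', h1', h2'⟩ := h'
  refine ⟨m + m', C (p ^ m') * g + C (p ^ m) * g', ?_, ?_⟩
  · rw [map_add, map_mul, map_mul, aeval_C, aeval_C, ← h1, ← h1', map_pow, map_pow]
    ring
  · rw [eval₂_add, eval₂_mul, eval₂_mul, eval₂_C, eval₂_C, ← h2, ← h2', map_pow, map_pow]
    ring

omit [IsDomain R] in
theorem cor_mul {r r' : K} {W W' : R} (h : Cor u p f U r W) (h' : Cor u p f U r' W') :
    Cor u p f U (r * r') (W * W') := by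
  obtain ⟨m, g, h1, h2⟩ := h
  obtain ⟨m', g', h1', h2'⟩ := h'
  refine ⟨m + m', g * g', ?_, ?_⟩
  · rw [map_mul, ← h1, ← h1']
    ring
  · rw [eval₂_mul, ← h2, ← h2']
    ring

omit [IsDomain R] in
theorem cor_C (b : B) : Cor u p f U (algebraMap B K b) (f b) :=
  ⟨0, C b, by rw [pow_zero, one_mul, aeval_C], by rw [pow_zero, one_mul, eval₂_C]⟩

/-- Existence, and the correspondence in the second chart. -/
theorem exists_cor (v : K) (a : B)
    (hinj : ∀ g₁ g₂ : B[X], aeval u g₁ = aeval u g₂ → g₁ = g₂)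
    (hc : algebraMap B K a * u + algebraMap B K p * v = 1) (V : R)
    (hUV : f a * U + f p * V = 1) (hfp : f p ≠ 0) (r : K)
    (h1 : ∃ (m : ℕ) (g : B[X]), algebraMap B K p ^ m * r = aeval u g)
    (h2 : ∃ (m : ℕ) (g : B[X]), algebraMap B K a ^ m * r = aeval v g) :
    ∃ W, Cor u p f U r W := by
  obtain ⟨m, g, h1⟩ := h1
  obtain ⟨m', g', h2⟩ := h2
  have h3 := key u v p a hinj hc f U V hUV hfp r m m' g g' h1 h2
  have hco : IsCoprime (f p) (f a) := ⟨V, U, by rw [← hUV]; ring⟩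
  have h4 : f p ^ m ∣ f a ^ m' * g.eval₂ f U := ⟨_, h3⟩
  obtain ⟨W, hW⟩ := (hco.pow (m := m) (n := m')).dvd_of_dvd_mul_left h4
  exact ⟨W, m, g, h1, hW.symm⟩

theorem cor_second (v : K) (a : B)
    (hinj : ∀ g₁ g₂ : B[X], aeval u g₁ = aeval u g₂ → g₁ = g₂)
    (hc : algebraMap B K a * u + algebraMap B K p * v = 1) (V : R)
    (hUV : f a * U + f p * V = 1) (hfp : f p ≠ 0) {r : K} {W : R} (h : Cor u p f U r W)
    (m' : ℕ) (g' : B[X]) (h2 : algebraMap B K a ^ m' * r = aeval v g') :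
    f a ^ m' * W = g'.eval₂ f V := by
  obtain ⟨m, g, h1, h3⟩ := h
  have h4 := key u v p a hinj hc f U V hUV hfp r m m' g g' h1 h2
  rw [← h3] at h4
  refine mul_left_cancel₀ (pow_ne_zero m hfp) ?_
  rw [← h4]
  ring

end abs

/-- The homomorphism given by the correspondence. -/
theorem exists_hom (A B : Subalgebra ℚ F) (u : F) (p : A) {R : Type} [CommRing R] [IsDomain R]
    [Algebra ℚ R] (f : A →+* R) (U : R)
    (hinj : ∀ g₁ g₂ : A[X], aeval u g₁ = aeval u g₂ → g₁ = g₂) (hfp : f p ≠ 0)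
    (hC : ∀ r : ℚ, f (algebraMap ℚ A r) = algebraMap ℚ R r)
    (hex : ∀ r ∈ B, ∃ W, Cor u p f U r W) :
    ∃ θ : B →ₐ[ℚ] R, ∀ b : B, Cor u p f U (b : F) (θ b) := by
  choose W hW using hex
  have hcomm : ∀ r : ℚ, Cor u p f U (algebraMap ℚ F r) (algebraMap ℚ R r) := by
    intro r
    have h := cor_C (u := u) (p := p) (f := f) (U := U) (algebraMap ℚ A r)
    rw [hC] at h
    exact h
  refine ⟨{ toFun := fun b => W b.1 b.2
            map_one' := ?_
            map_mul' := ?_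
            map_zero' := ?_
            map_add' := ?_
            commutes' := ?_ }, fun b => hW b.1 b.2⟩
  · have := hcomm 1
    rw [map_one, map_one] at this
    exact cor_uniq hinj hfp (hW _ _) this
  · intro a b
    exact cor_uniq hinj hfp (hW _ _) (cor_mul (hW a.1 a.2) (hW b.1 b.2))
  · have := hcomm 0
    rw [map_zero, map_zero] at this
    exact cor_uniq hinj hfp (hW _ _) this
  · intro a b
    exact cor_uniq hinj hfp (hW _ _) (cor_add (hW a.1 a.2) (hW b.1 b.2))
  · intro r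
    exact cor_uniq hinj hfp (hW _ _) (hcomm r)

theorem mem_chart {A : Subalgebra ℚ F} {y : F} {q : A} {r : F} (h : r ∈ chart A y (C q)) :
    ∃ (m : ℕ) (g : A[X]), algebraMap A F q ^ m * r = aeval y g := by
  obtain ⟨m, g, h⟩ := h
  rw [aeval_C] at h
  exact ⟨m, g, h⟩

end EFA

open EFA in
theorem t_EFA : M_EFA := by
  intro hconv P A hA u v p a ω ι t hcomp hu hv hp hpa huv U₀ V₀ hUV₀
  obtain ⟨hdom, -, -, -⟩ := hconv.1 P A hA
  have hinj : ∀ g₁ g₂ : A[X], aeval u g₁ = aeval u g₂ → g₁ = g₂ := by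
    intro f₁ f₂ h
    by_contra hne
    have h3 := hu (f₁ - f₂) (sub_ne_zero.mpr hne)
    have h4 : aeval u (f₁ - f₂) = aeval u f₁ - aeval u f₂ :=
      map_sub (aeval u : A[X] →ₐ[A] F) f₁ f₂
    rw [h4, h, sub_self] at h3
    exact not_isUnit_zero h3
  have hnz : ∀ b : A, b ≠ 0 → ∀ l, (b : F).2 l ≠ 0 := fun b hb l =>
    (hA.nz b b.2 (fun h => hb (Subtype.ext h))).1 l
  have hp0 : p ≠ 0 := hp.ne_zero
  have hι : ∀ b : A, ι b = 0 → b = 0 := by
    intro b hb
    by_contra hne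
    have h3 := hnz b hne ⟨2, Nat.prime_two⟩
    rw [hcomp, hb, map_zero] at h3
    exact h3 rfl
  set f : A →+* (MvPolynomial ω ℚ)[X] := C.comp (ι : A →+* MvPolynomial ω ℚ) with hf
  have hfC : ∀ b : A, f b = C (ι b) := fun b => rfl
  have hfp : f p ≠ 0 := by
    rw [hfC]
    intro h
    rw [C_eq_zero] at h
    exact hp0 (hι p h)
  set U : (MvPolynomial ω ℚ)[X] := C U₀ + C (ι p) * X with hU
  set V : (MvPolynomial ω ℚ)[X] := C V₀ - C (ι a) * X with hV
  have hUV : f a * U + f p * V = 1 := by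
    have h3 : f a * U + f p * V = C (ι a * U₀ + ι p * V₀) := by
      rw [hfC, hfC, hU, hV, C_add, C_mul, C_mul]
      ring
    rw [h3, hUV₀, C_1]
  have hex : ∀ r ∈ chart A u (C p) ⊓ chart A v (C a), ∃ W, Cor u p f U r W := by
    rintro r ⟨hr1, hr2⟩
    exact exists_cor v a hinj huv V hUV hfp r (mem_chart hr1) (mem_chart hr2)
  obtain ⟨θ, hθ⟩ := exists_hom A (chart A u (C p) ⊓ chart A v (C a)) u p f U hinj hfp
    (fun r => by
      rw [hfC, AlgHom.commutes]
      rfl) hex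
  let x : ∀ l : Nat.Primes, ℚ_[(l : ℕ)] := fun l =>
    (u.2 l - MvPolynomial.aeval (t l) U₀) / (p : F).2 l
  refine ⟨θ, x, ?_, ?_, ?_⟩
  · intro r l
    obtain ⟨m, g, h1, h2⟩ := hθ r
    have hpl : (p : F).2 l ≠ 0 := hnz p hp0 l
    set E : (MvPolynomial ω ℚ)[X] →+* ℚ_[(l : ℕ)] :=
      eval₂RingHom (MvPolynomial.aeval (R := ℚ) (t l)).toRingHom (x l) with hE
    have hEC : ∀ φ : MvPolynomial ω ℚ, E (C φ) = MvPolynomial.aeval (t l) φ := by
      intro φ
      rw [hE, coe_eval₂RingHom, eval₂_C]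
      rfl
    have hEX : E X = x l := by
      rw [hE, coe_eval₂RingHom, eval₂_X]
    have hEU : E U = u.2 l := by
      rw [hU, map_add, map_mul, hEC, hEC, hEX, ← hcomp]
      change _ + _ * ((u.2 l - MvPolynomial.aeval (t l) U₀) / (p : F).2 l) = _
      rw [mul_div_cancel₀ _ hpl]
      ring
    have hev : ∀ g : A[X], E (g.eval₂ f U) = (aeval u g).2 l := by
      intro g
      have h3 : E.comp f = (cp l).comp (algebraMap A F) := by
        ext b
        change E (C (ι b)) = (b : F).2 l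
        rw [hEC, hcomp]
      rw [hom_eval₂, h3, ← cp_apply, aeval_def, hom_eval₂, hEU]
      rfl
    have h5 : (p : F).2 l ^ m * (r : F).2 l = (p : F).2 l ^ m * E (θ r) := by
      have h6 := congrArg (cp l) h1
      rw [map_mul, map_pow, cp_apply, cp_apply, cp_apply, ← hev, ← h2, map_mul, map_pow, hfC,
        hEC, ← hcomp] at h6
      exact h6
    exact mul_left_cancel₀ (pow_ne_zero m hpl) h5
  · intro r m g hg
    exact cor_val hinj hfp (hθ r) m g hg
  · intro r m g hg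
    exact cor_second v a hinj huv V hUV hfp (hθ r) m g hg

end OIF
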