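import Pool.Agent.OIF.St
import Pool.Agent.OIE.EI

/-!
# Module `EFC`
-/

set_option autoImplicit false

namespace OIF

open Polynomial OID OIE

namespace EFC

open OIE.EI (cp cp_apply)

section

variable (A : Subalgebra ℚ F) (u : F) (q : A[X]) {R : Type} [CommRing R] (Ψ : A[X] →+* R)

/-- The correspondence. -/
def Co (r : F) (W : R) : Prop :=
  ∃ (m : ℕ) (g : A[X]), aeval u q ^ m * r = aeval u g ∧ Ψ q ^ m * W = Ψ g

variable {A u q Ψ}

theorem co_base (g : A[X]) : Co A u q Ψ (aeval u g) (Ψ g) :=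
  ⟨0, g, by rw [pow_zero, one_mul], by rw [pow_zero, one_mul]⟩

theorem co_add {r r' : F} {W W' : R}
    (h : Co A u q Ψ r W) (h' : Co A u q Ψ r' W') : Co A u q Ψ (r + r') (W + W') := by
  obtain ⟨m, g, h1, h2⟩ := h
  obtain ⟨m', g', h1', h2'⟩ := h'
  refine ⟨m + m', q ^ m' * g + q ^ m * g', ?_, ?_⟩
  · rw [map_add, map_mul, map_mul, map_pow, map_pow, ← h1, ← h1']; ring
  · rw [map_add, map_mul, map_mul, map_pow, map_pow, ← h2, ← h2']; ring

theorem co_mul {r r' : F} {W W' : R}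
    (h : Co A u q Ψ r W) (h' : Co A u q Ψ r' W') : Co A u q Ψ (r * r') (W * W') := by
  obtain ⟨m, g, h1, h2⟩ := h
  obtain ⟨m', g', h1', h2'⟩ := h'
  refine ⟨m + m', g * g', ?_, ?_⟩
  · rw [map_mul, ← h1, ← h1']; ring
  · rw [map_mul, ← h2, ← h2']; ring

theorem co_pow {r : F} {W : R} (h : Co A u q Ψ r W) (n : ℕ) : Co A u q Ψ (r ^ n) (W ^ n) := by
  induction n with
  | zero =>
    rw [pow_zero, pow_zero]
    have := co_base (A := A) (u := u) (q := q) (Ψ := Ψ) 1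
    rwa [map_one, map_one] at this
  | succ n ih =>
    rw [pow_succ, pow_succ]
    exact co_mul ih h

theorem co_uniq [IsDomain R] (hY : Ψ q ≠ 0)
    (hy : ∀ g g' : A[X], aeval u g = aeval u g' → g = g') {r : F}
    {W W' : R} (h : Co A u q Ψ r W) (h' : Co A u q Ψ r W') : W = W' := by
  obtain ⟨m, g, h1, h2⟩ := h
  obtain ⟨m', g', h1', h2'⟩ := h'
  have e : q ^ m' * g = q ^ m * g' := by
    apply hy
    rw [map_mul, map_mul, map_pow, map_pow, ← h1, ← h1']; ring
  have e2 : Ψ q ^ m' * Ψ g = Ψ q ^ m * Ψ g' := by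
    have := congrArg Ψ e
    rwa [map_mul, map_mul, map_pow, map_pow] at this
  rw [← h2, ← h2'] at e2
  have e3 : Ψ q ^ (m + m') * (W - W') = 0 := by
    rw [mul_sub, pow_add, sub_eq_zero]
    calc Ψ q ^ m * Ψ q ^ m' * W = Ψ q ^ m' * (Ψ q ^ m * W) := by ring
      _ = Ψ q ^ m * (Ψ q ^ m' * W') := e2
      _ = _ := by ring
  rcases mul_eq_zero.mp e3 with e4 | e4
  · exact absurd e4 (pow_ne_zero _ hY)
  · exact sub_eq_zero.mp e4

/-- The homomorphism given by the correspondence. -/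
theorem exists_hom [IsDomain R] [Algebra ℚ R] (B : Subalgebra ℚ F) (hY : Ψ q ≠ 0)
    (hy : ∀ g g' : A[X], aeval u g = aeval u g' → g = g')
    (hC : ∀ r : ℚ, Ψ (C (algebraMap ℚ A r)) = algebraMap ℚ _ r)
    (hex : ∀ r ∈ B, ∃ W, Co A u q Ψ r W) :
    ∃ ι' : B →ₐ[ℚ] R, ∀ b : B, Co A u q Ψ (b : F) (ι' b) := by
  choose W hW using hex
  have huniq : ∀ {r : F} {W W' : R}, Co A u q Ψ r W → Co A u q Ψ r W' →
    W = W' := fun h h' => co_uniq hY hy h h'
  have hcomm : ∀ r : ℚ, Co A u q Ψ (algebraMap ℚ F r) (algebraMap ℚ _ r) := by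
    intro r
    refine ⟨0, C (algebraMap ℚ A r), ?_, ?_⟩
    · rw [pow_zero, one_mul, aeval_C]; rfl
    · rw [pow_zero, one_mul, hC]
  refine ⟨{ toFun := fun b => W b.1 b.2
            map_one' := ?_
            map_mul' := ?_
            map_zero' := ?_
            map_add' := ?_
            commutes' := ?_ }, fun b => hW b.1 b.2⟩
  · have := hcomm 1
    rw [map_one, map_one] at this
    exact huniq (hW _ _) this
  · intro a b
    exact huniq (hW _ _) (co_mul (hW a.1 a.2) (hW b.1 b.2))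
  · have := hcomm 0
    rw [map_zero, map_zero] at this
    exact huniq (hW _ _) this
  · intro a b
    exact huniq (hW _ _) (co_add (hW a.1 a.2) (hW b.1 b.2))
  · intro r
    exact huniq (hW _ _) (hcomm r)

end

/-- Values of polynomials at a generic element determine them. -/
theorem aeval_inj (A : Subalgebra ℚ F) (y : F) (hy : ∀ g : A[X], g ≠ 0 → IsUnit (aeval y g)) :
    ∀ g g' : A[X], aeval y g = aeval y g' → g = g' := by
  intro g g' hg
  by_contra hne
  have h2 := hy (g + (C (-1)) * g') (fun h => hne (by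
    have h3 : g = g + (C (-1)) * g' + g' := by
      rw [add_assoc]
      have : (C (-1 : A)) * g' + g' = 0 := by
        rw [C_neg, C_1]; ring
      rw [this, add_zero]
    rw [h3, h, zero_add]))
  rw [map_add, map_mul, hg, aeval_C] at h2
  have h4 : aeval y g' + algebraMap A F (-1) * aeval y g' = 0 := by
    have : algebraMap A F (-1) = -1 := rfl
    rw [this]; ring
  rw [h4] at h2
  exact not_isUnit_zero h2

section

variable {S : Type} [CommRing S] [IsDomain S]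

/-- The affine substitution `X ↦ C b + C c * X`. -/
theorem aff_hyp (b c : S) (hc : c ≠ 0) :
    Function.Injective (eval₂RingHom (C : S →+* S[X]) (C b + C c * X)) ∧
    ∀ h : S[X], ∃ (N : ℕ) (h' : S[X]), eval₂RingHom (C : S →+* S[X]) (C b + C c * X) h' =
      eval₂RingHom (C : S →+* S[X]) (C b + C c * X) (C c) ^ N * h := by
  set j := eval₂RingHom (C : S →+* S[X]) (C b + C c * X) with hj
  have hjC : ∀ s : S, j (C s) = C s := by
    intro s
    rw [hj, coe_eval₂RingHom, eval₂_C]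
  have hjX : j X = C b + C c * X := by
    rw [hj, coe_eval₂RingHom, eval₂_X]
  constructor
  · rw [injective_iff_map_eq_zero]
    intro g hg
    have h1 : g.comp (C b + C c * X) = 0 := hg
    rw [comp_eq_zero_iff] at h1
    rcases h1 with h2 | ⟨_, h2⟩
    · exact h2
    · exfalso
      have h3 := congrArg (fun g => coeff g 1) h2
      simp at h3
      exact hc h3
  · intro h
    induction h using Polynomial.induction_on' with
    | add p q hp hq =>
      obtain ⟨N, p', hp'⟩ := hp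
      obtain ⟨M, q', hq'⟩ := hq
      refine ⟨N + M, C c ^ M * p' + C c ^ N * q', ?_⟩
      rw [map_add, map_mul, map_mul, map_pow, map_pow, hp', hq', hjC]
      ring
    | monomial n a =>
      refine ⟨n, C a * (X - C b) ^ n, ?_⟩
      rw [map_mul, map_pow, map_sub, hjC, hjC, hjC, hjX, ← C_mul_X_pow_eq_monomial]
      ring

end

end EFC

open EFC OIE.EI in
theorem t_EFC0 : S_CONV → S_CPA → S_CPB → S_CPC → S_PR → S_PHI → S_EFC := by
  intro hCONV hCPA hCPB hCPC hPR hPHI P A hGood hEmb u v p a hu hv hp hpa huv hle huB hvB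
    hdomB hufB
  obtain ⟨hdomA, hufA, -, -⟩ := hCONV.1 P A hGood
  obtain ⟨σ, _, ι, t, h1, hCop⟩ := hEmb
  set B : Subalgebra ℚ F := chart A u (C p) ⊓ chart A v (C a) with hB
  have ha0 : a ≠ 0 := by
    rintro rfl
    exact hpa (dvd_zero _)
  have hnz : ∀ (b : A), b ≠ 0 → ∀ ℓ : Nat.Primes, (b : F).2 ℓ ≠ 0 := fun b hb =>
    (hGood.nz (b : F) b.2 (fun h => hb (Subtype.ext h))).1
  have hιinj : Function.Injective ι := by
    rw [injective_iff_map_eq_zero]
    intro b hb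
    by_contra hne
    have p2 : Nat.Primes := ⟨2, Nat.prime_two⟩
    apply hnz b hne p2
    rw [h1, hb, map_zero]
  have hrel : IsRelPrime (ι a) (ι p) := by
    intro d hda hdp
    by_contra hdu
    have hd0 : d ≠ 0 := by
      rintro rfl
      rw [zero_dvd_iff] at hda
      apply ha0
      apply hιinj
      rw [hda, map_zero]
    obtain ⟨π, hπ, hπd⟩ := WfDvdMonoid.exists_irreducible_factor hdu hd0
    have hπ' : Prime π := hπ.prime
    obtain ⟨q, hq⟩ := (hCop π hπ').principal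
    have hmem : ∀ b : A, π ∣ ι b ↔ q ∣ b := by
      intro b
      have h2 : b ∈ Ideal.comap (ι : A →+* MvPolynomial σ ℚ) (Ideal.span {π}) ↔ π ∣ ι b := by
        rw [Ideal.mem_comap, Ideal.mem_span_singleton]
        rfl
      rw [← h2, hq, Ideal.submodule_span_eq, Ideal.mem_span_singleton]
    have hqa := (hmem a).mp (hπd.trans hda)
    obtain ⟨c, hc⟩ := (hmem p).mp (hπd.trans hdp)
    rcases hp.irreducible.isUnit_or_isUnit hc with h5 | h5
    · have h6 := (hmem 1).mpr h5.dvd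
      rw [map_one] at h6
      exact hπ'.not_isUnit (isUnit_of_dvd_one h6)
    · apply hpa
      have h6 : p ∣ q := by
        rw [hc]
        exact (h5.mul_right_dvd).mpr dvd_rfl
      exact h6.trans hqa
  obtain ⟨ω, _, Φ, hΦinj, hΦCop, hcop, hlift⟩ := hPHI σ (ι a) (ι p) hrel
  set a₁ := Φ (ι a) with ha₁
  set p₁ := Φ (ι p) with hp₁
  have hp₁0 : p₁ ≠ 0 := by
    intro h
    apply hp.ne_zero
    apply hιinj
    apply hΦinj
    rw [map_zero, map_zero, ← h]
  have ha₁0 : a₁ ≠ 0 := by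
    intro h
    apply ha0
    apply hιinj
    apply hΦinj
    rw [map_zero, map_zero, ← h]
  obtain ⟨U₀, V₀, hUV⟩ := hcop
  have hlift' : ∀ ℓ : Nat.Primes, ∃ t' : ω → ℚ_[(ℓ : ℕ)], ∀ φ,
      MvPolynomial.aeval t' (Φ φ) = MvPolynomial.aeval (t ℓ) φ := by
    intro ℓ
    apply hlift
    rintro ⟨h2, -⟩
    rw [← h1] at h2
    exact hnz a ha0 ℓ h2
  choose t' ht' using hlift'
  let R : Type := (MvPolynomial ω ℚ)[X]
  let e : MvPolynomial (Option ω) ℚ ≃ₐ[ℚ] (MvPolynomial ω ℚ)[X] :=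
    MvPolynomial.optionEquivLeft ℚ ω
  have heC : ∀ c : MvPolynomial ω ℚ, e (MvPolynomial.rename some c) = C c := by
    intro c
    have h2 : ((e : MvPolynomial (Option ω) ℚ →ₐ[ℚ] (MvPolynomial ω ℚ)[X]).comp
        (MvPolynomial.rename some)) =
        IsScalarTower.toAlgHom ℚ (MvPolynomial ω ℚ) ((MvPolynomial ω ℚ)[X]) := by
      apply MvPolynomial.algHom_ext
      intro j
      simp [e]
    exact congrArg (fun g => g c) h2
  set U : (MvPolynomial ω ℚ)[X] := C U₀ + C p₁ * X with hU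
  set V : (MvPolynomial ω ℚ)[X] := C V₀ + C (-a₁) * X with hV
  have hUV1 : C a₁ * U + C p₁ * V = 1 := by
    have h2 : (C (U₀ * a₁ + V₀ * p₁) : (MvPolynomial ω ℚ)[X]) = 1 := by
      rw [hUV, C_1]
    rw [hU, hV, C_neg, ← h2, C_add, C_mul, C_mul]
    ring
  -- points
  let x : ∀ ℓ : Nat.Primes, ℚ_[(ℓ : ℕ)] := fun ℓ =>
    (u.2 ℓ - MvPolynomial.aeval (t' ℓ) U₀) / (p : F).2 ℓ
  let t'' : ∀ ℓ : Nat.Primes, Option ω → ℚ_[(ℓ : ℕ)] := fun ℓ o => o.elim (x ℓ) (t' ℓ)
  let ev : ∀ ℓ : Nat.Primes, (MvPolynomial ω ℚ)[X] →ₐ[ℚ] ℚ_[(ℓ : ℕ)] := fun ℓ =>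
    (MvPolynomial.aeval (t'' ℓ)).comp (e.symm : (MvPolynomial ω ℚ)[X] →ₐ[ℚ] _)
  have hevC : ∀ ℓ c, ev ℓ (C c) = MvPolynomial.aeval (t' ℓ) c := by
    intro ℓ c
    change MvPolynomial.aeval (t'' ℓ) (e.symm (C c)) = _
    rw [← heC, AlgEquiv.symm_apply_apply, MvPolynomial.aeval_rename]
    rfl
  have hevX : ∀ ℓ, ev ℓ X = x ℓ := by
    intro ℓ
    change MvPolynomial.aeval (t'' ℓ) (e.symm X) = _
    have h2 : e (MvPolynomial.X none) = X := by simp [e]
    rw [← h2, AlgEquiv.symm_apply_apply, MvPolynomial.aeval_X]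
    rfl
  have hpv : ∀ ℓ, MvPolynomial.aeval (t' ℓ) p₁ = (p : F).2 ℓ := by
    intro ℓ
    rw [hp₁, ht', h1]
  have hav : ∀ ℓ, MvPolynomial.aeval (t' ℓ) a₁ = (a : F).2 ℓ := by
    intro ℓ
    rw [ha₁, ht', h1]
  have hevU : ∀ ℓ, ev ℓ U = u.2 ℓ := by
    intro ℓ
    have h3 := hnz p hp.ne_zero ℓ
    rw [hU, map_add, map_mul, hevC, hevC, hevX, hpv]
    simp only [x]
    field_simp
    ring
  have huv2 : ∀ ℓ, (a : F).2 ℓ * u.2 ℓ + (p : F).2 ℓ * v.2 ℓ = 1 := by
    intro ℓ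
    have h2 := congrArg (cp ℓ) huv
    rw [map_add, map_mul, map_mul, map_one] at h2
    exact h2
  have hevV : ∀ ℓ, ev ℓ V = v.2 ℓ := by
    intro ℓ
    have h3 := hnz p hp.ne_zero ℓ
    have h4 := congrArg (ev ℓ) hUV1
    rw [map_add, map_mul, map_mul, map_one, hevC, hevC, hevU, hpv, hav, ← huv2 ℓ] at h4
    exact mul_left_cancel₀ h3 (add_left_cancel h4)
  -- the two homomorphisms
  let κ : A →+* MvPolynomial ω ℚ := ((Φ.comp ι : A →ₐ[ℚ] MvPolynomial ω ℚ) : A →+* _)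
  have hκ : ∀ b : A, κ b = Φ (ι b) := fun b => rfl
  have hκinj : Function.Injective κ := hΦinj.comp hιinj
  have hκCop : Cop κ := fun π hπ =>
    hCPA A (MvPolynomial σ ℚ) (MvPolynomial ω ℚ) (ι : A →+* MvPolynomial σ ℚ)
      (Φ : MvPolynomial σ ℚ →+* MvPolynomial ω ℚ) hιinj hCop π hπ (hΦCop π hπ)
  set Ψ : A[X] →+* (MvPolynomial ω ℚ)[X] := eval₂RingHom (C.comp κ) U with hΨ
  set Ψ' : A[X] →+* (MvPolynomial ω ℚ)[X] := eval₂RingHom (C.comp κ) V with hΨ'
  have hΨC : ∀ b, Ψ (C b) = C (κ b) := by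
    intro b
    rw [hΨ, coe_eval₂RingHom, eval₂_C]
    rfl
  have hΨX : Ψ X = U := by
    rw [hΨ, coe_eval₂RingHom, eval₂_X]
  have hΨ'C : ∀ b, Ψ' (C b) = C (κ b) := by
    intro b
    rw [hΨ', coe_eval₂RingHom, eval₂_C]
    rfl
  have hΨ'X : Ψ' X = V := by
    rw [hΨ', coe_eval₂RingHom, eval₂_X]
  have huinj := aeval_inj A u hu
  have hΨp : Ψ (C p) = C p₁ := hΨC p
  have hΨp0 : Ψ (C p) ≠ 0 := by
    rw [hΨp, Ne, C_eq_zero]
    exact hp₁0
  have hevΨ : ∀ (ℓ : Nat.Primes) (g : A[X]), ev ℓ (Ψ g) = (aeval u g).2 ℓ := by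
    intro ℓ g
    rw [← cp_apply, aeval_def, hom_eval₂, hΨ, coe_eval₂RingHom]
    have h2 := hom_eval₂ g (C.comp κ) (ev ℓ : (MvPolynomial ω ℚ)[X] →+* ℚ_[(ℓ : ℕ)]) U
    have h3 : (ev ℓ : (MvPolynomial ω ℚ)[X] →+* ℚ_[(ℓ : ℕ)]).comp (C.comp κ) =
        (cp ℓ).comp (algebraMap A F) := by
      refine RingHom.ext fun b => ?_
      change ev ℓ (C (Φ (ι b))) = (b : F).2 ℓ
      rw [hevC, ht', h1]
    rw [h3] at h2
    refine h2.trans ?_
    congr 1
    exact hevU ℓ
  -- the second chart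
  have hsec : ∀ g' : A[X], Co A u (C p) Ψ (aeval v g') (Ψ' g') := by
    have hv' : Co A u (C p) Ψ v V := by
      refine ⟨1, C 1 + C (-a) * X, ?_, ?_⟩
      · rw [pow_one, aeval_C, map_add, map_mul, aeval_C, aeval_C, aeval_X]
        have h2 : algebraMap A F (-a) = - (a : F) := rfl
        have h3 : algebraMap A F 1 = 1 := rfl
        have h4 : algebraMap A F p = (p : F) := rfl
        rw [h2, h3, h4, ← huv]
        ring
      · rw [pow_one, hΨp, map_add, map_mul, hΨC, hΨC, hΨX, map_one, map_neg, C_1, ← hUV1]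
        rw [C_neg]
        change _ = _ + -C a₁ * U
        ring
    intro g'
    induction g' using Polynomial.induction_on' with
    | add p q hp hq =>
      rw [map_add, map_add]
      exact co_add hp hq
    | monomial n b =>
      rw [← C_mul_X_pow_eq_monomial, map_mul, map_mul, map_pow, map_pow, aeval_X, hΨ'X, hΨ'C,
        aeval_C]
      have h2 := co_base (A := A) (u := u) (q := C p) (Ψ := Ψ) (C b)
      rw [aeval_C, hΨC] at h2
      exact co_mul h2 (co_pow hv' n)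
  have hcoa : Co A u (C p) Ψ (a : F) (C a₁) := by
    have h2 := co_base (A := A) (u := u) (q := C p) (Ψ := Ψ) (C a)
    rw [aeval_C, hΨC] at h2
    exact h2
  have hcop' : Co A u (C p) Ψ (p : F) (C p₁) := by
    have h2 := co_base (A := A) (u := u) (q := C p) (Ψ := Ψ) (C p)
    rw [aeval_C, hΨC] at h2
    exact h2
  have hisco : IsCoprime (C p₁ : (MvPolynomial ω ℚ)[X]) (C a₁) :=
    ⟨V, U, by rw [← hUV1]; ring⟩
  have hex : ∀ r ∈ B, ∃ W, Co A u (C p) Ψ r W := by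
    rintro r ⟨hr1, hr2⟩
    obtain ⟨m, g, hg⟩ := hr1
    obtain ⟨m', g', hg'⟩ := hr2
    have h2 : Co A u (C p) Ψ ((p : F) ^ m * ((a : F) ^ m' * r)) (C p₁ ^ m * Ψ' g') := by
      have h3 := hsec g'
      rw [← hg', aeval_C] at h3
      exact co_mul (co_pow hcop' m) h3
    have h3 : Co A u (C p) Ψ ((p : F) ^ m * ((a : F) ^ m' * r)) (C a₁ ^ m' * Ψ g) := by
      have h4 := co_mul (co_pow hcoa m') (co_base (A := A) (u := u) (q := C p) (Ψ := Ψ) g)
      rw [← hg, aeval_C] at h4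
      have h5 : (p : F) ^ m * ((a : F) ^ m' * r) = (a : F) ^ m' * ((algebraMap A F p) ^ m * r) := by
        have : algebraMap A F p = (p : F) := rfl
        rw [this]; ring
      rw [h5]
      exact h4
    have h4 := co_uniq hΨp0 huinj h2 h3
    have h5 : C p₁ ^ m ∣ Ψ g := by
      have h6 : C p₁ ^ m ∣ C a₁ ^ m' * Ψ g := ⟨Ψ' g', h4.symm⟩
      exact (hisco.pow (m := m) (n := m')).dvd_of_dvd_mul_left h6
    obtain ⟨W, hW⟩ := h5
    exact ⟨W, m, g, hg, by rw [hΨp]; exact hW.symm⟩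
  obtain ⟨θ, hθ⟩ := exists_hom (Ψ := Ψ) B hΨp0 huinj
    (fun r => by
      rw [hΨC, hκ, AlgHom.commutes, AlgHom.commutes]
      rfl) hex
  have hevθ : ∀ (b : B) (ℓ : Nat.Primes), (b : F).2 ℓ = ev ℓ (θ b) := by
    intro b ℓ
    obtain ⟨m, g, h2, h3⟩ := hθ b
    have h4 : ((p : F).2 ℓ) ^ m * (b : F).2 ℓ = ((p : F).2 ℓ) ^ m * ev ℓ (θ b) := by
      have h5 := congrArg (cp ℓ) h2
      rw [map_mul, map_pow, aeval_C, cp_apply ℓ (aeval u g), ← hevΨ, ← h3, map_mul, map_pow, hΨp,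
        hevC, hpv] at h5
      exact h5
    exact mul_left_cancel₀ (pow_ne_zero m (hnz p hp.ne_zero ℓ)) h4
  -- `Cop`
  have hCopθ : Cop (θ : B →+* (MvPolynomial ω ℚ)[X]) := by
    intro π hπ
    let j : A →+* B := (Subalgebra.inclusion hle).toRingHom
    -- a homomorphism given by an element of `B`
    have key : ∀ (w : F) (hw : w ∈ B) (c : A) (Ψ₁ : A[X] →+* (MvPolynomial ω ℚ)[X])
        (b₁ c₁ : MvPolynomial ω ℚ), c₁ ≠ 0 →
        Ψ₁ = eval₂RingHom (C.comp κ) (C b₁ + C c₁ * X) →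
        (∀ g : A[X], Co A u (C p) Ψ (aeval w g) (Ψ₁ g)) →
        (∀ r ∈ B, ∃ (m : ℕ) (g : A[X]), (c : F) ^ m * r = aeval w g) →
        ¬ π ∣ C c₁ → ¬ π ∣ C (κ c) → 
        (Ideal.comap (θ : B →+* (MvPolynomial ω ℚ)[X]) (Ideal.span {π})).IsPrincipal := by
      intro w hw c Ψ₁ b₁ c₁ hc₁ hΨ₁ hco hch hπc₁ hπc
      set w' : B := ⟨w, hw⟩ with hw'
      let i : A[X] →+* B := eval₂RingHom j w'
      have hi : ∀ g : A[X], ((i g : B) : F) = aeval w g := by
        intro g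
        have h3 := hom_eval₂ g j (algebraMap B F) w'
        rw [aeval_def]
        exact h3
      have hθi : ∀ g : A[X], θ (i g) = Ψ₁ g := by
        intro g
        have h2 := hθ (i g)
        rw [hi] at h2
        exact co_uniq hΨp0 huinj h2 (hco g)
      have hiC : ∀ b : A, i (C b) = j b := by
        intro b
        change eval₂ j w' (C b) = j b
        rw [eval₂_C]
      have hΨ₁C : ∀ b : A, Ψ₁ (C b) = C (κ b) := by
        intro b
        rw [hΨ₁, coe_eval₂RingHom, eval₂_C]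
        rfl
      apply hCPC A[X] B (MvPolynomial ω ℚ)[X] i (C c) (θ : B →+* (MvPolynomial ω ℚ)[X]) π
      · intro r
        obtain ⟨m, g, hg⟩ := hch r r.2
        refine ⟨m, g, Subtype.ext ?_⟩
        rw [hi, hiC, ← hg]
        rfl
      · exact hπ
      · change ¬ π ∣ θ (i (C c))
        rw [hθi, hΨ₁C]
        exact hπc
      · have h2 : (θ : B →+* (MvPolynomial ω ℚ)[X]).comp i =
            (eval₂RingHom (C : MvPolynomial ω ℚ →+* (MvPolynomial ω ℚ)[X])
              (C b₁ + C c₁ * X)).comp (mapRingHom κ) := by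
          refine RingHom.ext fun g => ?_
          change θ (i g) = eval₂ _ _ (map _ g)
          rw [hθi, eval₂_map, hΨ₁]
          rfl
        rw [h2]
        obtain ⟨h3, h4⟩ := aff_hyp b₁ c₁ hc₁
        refine hCPA A[X] (MvPolynomial ω ℚ)[X] (MvPolynomial ω ℚ)[X] _ _
          (map_injective _ hκinj) (hPR A (MvPolynomial ω ℚ) _ hκinj hκCop) π hπ
          (hCPB (MvPolynomial ω ℚ)[X] (MvPolynomial ω ℚ)[X] _ (C c₁) h3 h4 π hπ ?_)
        rw [coe_eval₂RingHom, eval₂_C]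
        exact hπc₁
    by_cases hπp : π ∣ C p₁
    · have hπa : ¬ π ∣ C a₁ := by
        intro h
        obtain ⟨x', y', hxy⟩ := hisco
        apply hπ.not_isUnit
        apply isUnit_of_dvd_one
        rw [← hxy]
        exact dvd_add (hπp.mul_left _) (h.mul_left _)
      refine key v hvB a Ψ' V₀ (-a₁) (neg_ne_zero.mpr ha₁0) rfl hsec ?_ ?_ hπa
      · rintro r ⟨_, hr2⟩
        obtain ⟨m', g', hg'⟩ := hr2
        rw [aeval_C] at hg'
        exact ⟨m', g', hg'⟩
      · intro h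
        apply hπa
        have h2 : (C (-a₁) : (MvPolynomial ω ℚ)[X]) * C (-1) = C a₁ := by
          rw [← C_mul]
          congr 1
          ring
        rw [← h2]
        exact h.mul_right _
    · refine key u huB p Ψ U₀ p₁ hp₁0 rfl (fun g => co_base g) ?_ hπp hπp
      rintro r ⟨hr1, _⟩
      obtain ⟨m, g, hg⟩ := hr1
      rw [aeval_C] at hg
      exact ⟨m, g, hg⟩
  let e' : (MvPolynomial ω ℚ)[X] →ₐ[ℚ] MvPolynomial (Option ω) ℚ := e.symm.toAlgHom
  refine ⟨Option ω, inferInstance, e'.comp θ, t'', fun b ℓ => hevθ b ℓ, ?_⟩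
  intro π hπ
  have hπ' : Prime (e π) := (MulEquiv.prime_iff e.toMulEquiv).mpr hπ
  have h2 : Ideal.comap ((e'.comp θ : B →ₐ[ℚ] MvPolynomial (Option ω) ℚ) :
      B →+* MvPolynomial (Option ω) ℚ) (Ideal.span {π}) =
      Ideal.comap (θ : B →+* (MvPolynomial ω ℚ)[X]) (Ideal.span {e π}) := by
    ext r
    rw [Ideal.mem_comap, Ideal.mem_comap, Ideal.mem_span_singleton, Ideal.mem_span_singleton]
    change π ∣ e.symm (θ r) ↔ e π ∣ θ r
    constructor
    · rintro ⟨c, hc⟩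
      refine ⟨e c, ?_⟩
      rw [← map_mul, ← hc, AlgEquiv.apply_symm_apply]
    · rintro ⟨c, hc⟩
      refine ⟨e.symm c, ?_⟩
      rw [hc, map_mul, AlgEquiv.symm_apply_apply]
  rw [h2]
  exact hCopθ (e π) hπ'

theorem t_EFC : M_EFC := fun h1 h2 h3 h4 h5 h6 _ => t_EFC0 h1 h2 h3 h4 h5 h6

end OIF
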