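import Pool.Agent.OIF.St
import Pool.Agent.OID.G
import Pool.Agent.OIE.EG

/-!
# Embeddings with `Cop` of the trivial ring and of a polynomial ring in one variable
-/

set_option autoImplicit false

namespace OIF

open Polynomial OID OIE

namespace EGC

/-- composition with isomorphisms -/
theorem cop_equiv {A A' R R' : Type} [CommRing A] [CommRing A'] [CommRing R] [CommRing R']
    (e : A' ≃+* A) (e' : R ≃+* R') (f : A →+* R) (hf : Cop f) :
    Cop (e'.toRingHom.comp (f.comp e.toRingHom)) := by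
  intro π hπ
  have h1 : Prime (e'.symm π) := (MulEquiv.prime_iff e'.symm).2 hπ
  obtain ⟨q, hq⟩ := hf (e'.symm π) h1
  refine ⟨⟨e.symm q, ?_⟩⟩
  ext x
  have h2 := SetLike.ext_iff.1 hq (e x)
  rw [Ideal.mem_comap, Ideal.mem_span_singleton, Ideal.submodule_span_eq,
    Ideal.mem_span_singleton] at h2
  rw [Ideal.mem_comap, Ideal.mem_span_singleton, Ideal.submodule_span_eq,
    Ideal.mem_span_singleton]
  have h3 : π ∣ (e'.toRingHom.comp (f.comp e.toRingHom)) x ↔ e'.symm π ∣ f (e x) := by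
    constructor
    · intro h
      have h4 := map_dvd e'.symm h
      rwa [show e'.symm ((e'.toRingHom.comp (f.comp e.toRingHom)) x) = f (e x) from
        e'.symm_apply_apply _] at h4
    · intro h
      have h4 := map_dvd e' h
      rwa [e'.apply_symm_apply] at h4
  have h5 : q ∣ e x ↔ e.symm q ∣ x := by
    constructor
    · intro h
      have h4 := map_dvd e.symm h
      rwa [e.symm_apply_apply] at h4
    · intro h
      have h4 := map_dvd e h
      rwa [e.apply_symm_apply] at h4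
  rw [h3, h2, h5]

theorem emb_bot : EmbC ⊥ := by
  obtain ⟨r, hr⟩ : ∃ r : (⊥ : Subalgebra ℚ F) →ₐ[ℚ] MvPolynomial Empty ℚ,
      r = (Algebra.ofId ℚ (MvPolynomial Empty ℚ)).comp (Algebra.botEquiv ℚ F).toAlgHom :=
    ⟨_, rfl⟩
  refine ⟨Empty, inferInstance, r, fun p => Empty.elim, ?_, ?_⟩
  · intro a p
    obtain ⟨x, hx⟩ := Algebra.mem_bot.1 a.2
    have ha : a = algebraMap ℚ (⊥ : Subalgebra ℚ F) x := Subtype.ext hx.symm
    rw [ha, AlgHom.commutes, AlgHom.commutes]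
    rfl
  · intro π hπ
    have h1 : Prime (MvPolynomial.isEmptyRingEquiv ℚ Empty π) :=
      (MulEquiv.prime_iff (MvPolynomial.isEmptyRingEquiv ℚ Empty)).2 hπ
    exact absurd (isUnit_iff_ne_zero.2 h1.ne_zero) h1.not_isUnit

theorem inj {A : Subalgebra ℚ F} (hN : Nz A) {σ : Type} (ι : A →ₐ[ℚ] MvPolynomial σ ℚ)
    (t : ∀ p : Nat.Primes, σ → ℚ_[(p : ℕ)])
    (h : ∀ (a : A) (p : Nat.Primes), (a : F).2 p = MvPolynomial.aeval (t p) (ι a)) :
    Function.Injective ι := by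
  rw [injective_iff_map_eq_zero]
  intro a ha
  by_contra hne
  have h1 : (a : F) ≠ 0 := fun h0 => hne (Subtype.ext h0)
  have h2 := (hN a a.2 h1).1 ⟨2, Nat.prime_two⟩
  rw [h, ha, map_zero] at h2
  exact h2 rfl

theorem cop_poly (hPR : S_PR) {B A' σ : Type} [CommRing A'] [CommRing B] [IsDomain B]
    [UniqueFactorizationMonoid B] (ι : B →+* MvPolynomial σ ℚ) (hi : Function.Injective ι)
    (hc : Cop ι) (e : A' ≃+* B[X]) :
    Cop ((MvPolynomial.optionEquivLeft ℚ σ).symm.toAlgHom.toRingHom.comp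
      ((mapRingHom ι).comp e.toRingHom)) :=
  cop_equiv e (MvPolynomial.optionEquivLeft ℚ σ).symm.toRingEquiv (mapRingHom ι)
    (hPR B (MvPolynomial σ ℚ) ι hi hc)

theorem exists_rho (hPR : S_PR) {A : Subalgebra ℚ F} [IsDomain A] [UniqueFactorizationMonoid A]
    {σ : Type} (ι : A →ₐ[ℚ] MvPolynomial σ ℚ) (hi : Function.Injective ι)
    (h0 : Cop (ι : A →+* MvPolynomial σ ℚ)) (y : F) (hy : ∀ g : A[X], aeval y g = 0 → g = 0) :
    ∃ ρ : chart A y 1 →+* MvPolynomial (Option σ) ℚ, Cop ρ ∧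
      ∀ a, ρ a = (MvPolynomial.optionEquivLeft ℚ σ).symm (((G.iso hy).symm a).map ι.toRingHom) :=
  ⟨_, cop_poly hPR (ι : A →+* MvPolynomial σ ℚ) hi h0 (G.iso hy).symm, fun _ => rfl⟩

end EGC

theorem t_EGC : M_EGC := by
  intro _ hPR
  refine ⟨EGC.emb_bot, ?_⟩
  rintro A _ _ y hN ⟨σ, hσ, ι, t, h, hcop⟩ hy
  obtain ⟨ρ, hρ, hρ2⟩ := EGC.exists_rho hPR ι (EGC.inj hN ι t h) hcop y hy
  refine ⟨Option σ, inferInstance, ρ.toRatAlgHom, fun p o => o.elim (y.2 p) (t p), ?_, hρ⟩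
  intro a p
  have h1 := EG.sec_eq (y := y) ι t h p ((G.iso hy).symm a)
  have h2 : (aeval y ((G.iso hy).symm a) : F) = a := by
    rw [← G.iso_val hy, RingEquiv.apply_symm_apply]
  rw [h2, ← hρ2] at h1
  exact h1

end OIF
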