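import Pool.Agent.OIF.St
import Pool.Agent.OIE.EI

/-!
# Module `EIC`
-/

set_option autoImplicit false

namespace OIF

open Polynomial OID OIE OIE.EI

namespace EIC

variable {σ : Type}

/-- A polynomial divides a power of another one if its prime factors do. -/
theorem dvd_pow_of (H : MvPolynomial σ ℚ) (G : MvPolynomial σ ℚ) (hG : G ≠ 0)
    (h : ∀ ρ, Prime ρ → ρ ∣ G → ρ ∣ H) : ∃ k : ℕ, G ∣ H ^ k := by
  revert hG h
  induction G using UniqueFactorizationMonoid.induction_on_prime with
  | h₁ => intro h0; exact absurd rfl h0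
  | h₂ x hx => intro _ _; exact ⟨0, hx.dvd⟩
  | h₃ a p ha hp ih =>
    intro _ h
    obtain ⟨k, hk⟩ := ih ha (fun ρ h1 h2 => h ρ h1 (h2.mul_left _))
    refine ⟨k + 1, ?_⟩
    rw [pow_succ, mul_comm p a]
    exact mul_dvd_mul hk (h p hp (dvd_mul_right _ _))

/-- Units of the polynomial ring are constants. -/
theorem unit_const (H : MvPolynomial σ ℚ) (h : IsUnit H) :
    ∃ r : ℚ, r ≠ 0 ∧ H = MvPolynomial.C r := by
  obtain ⟨r, hr, h2⟩ := MvPolynomial.isUnit_iff_eq_C_of_isReduced.mp h
  exact ⟨r, hr.ne_zero, h2⟩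

end EIC

open EIC in
theorem t_EIC : M_EIC := by
  intro hCONV hI0 hCPA hCPC hPR hRAD hTI hTD P A hGood y z f σ _ ι t s h1 hCop hy hf hyz hs hle hzB
    hdomB hufB hyPr
  obtain ⟨hdomA, hufA, -, -⟩ := hCONV.1 P A hGood
  set B : Subalgebra ℚ F := chart A y X ⊓ chart A z X with hB
  -- `ι` is injective
  have hιinj : Function.Injective ι := by
    rw [injective_iff_map_eq_zero]
    intro a ha
    by_contra hne
    have p2 : Nat.Primes := ⟨2, Nat.prime_two⟩
    have h2 := (hGood.nz (a : F) a.2 (fun h => hne (Subtype.ext h))).1 p2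
    apply h2
    rw [h1, ha, map_zero]
  set H : MvPolynomial σ ℚ := ι f with hH
  have hH0 : H ≠ 0 := by
    intro h
    apply hf.ne_zero
    apply hιinj
    rw [map_zero, ← hH, h]
  have hHu : ¬ IsUnit H := by
    intro h
    obtain ⟨r, hr, h2⟩ := unit_const H h
    have h3 : f = algebraMap ℚ A r := by
      apply hιinj
      rw [← hH, h2, AlgHom.commutes]
      rfl
    apply hf.not_isUnit
    rw [h3]
    exact (isUnit_iff_ne_zero.mpr hr).map _
  obtain ⟨G, Z, hR⟩ := hRAD σ H hH0
  have hyinj : ∀ g g' : A[X], aeval y g = aeval y g' → g = g' := by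
    intro g g' hg
    by_contra hne
    have h2 := hy (g + (C (-1)) * g') (fun h => hne (by
      have h3 : g = g + (C (-1)) * g' + g' := by
        rw [add_assoc]
        have : (C (-1 : A)) * g' + g' = 0 := by
          rw [C_neg, C_1]; ring
        rw [this, add_zero]
      rw [h3, h, zero_add]))
    rw [map_add, map_mul, hg, aeval_C] at h2
    have h4 : aeval y g' + algebraMap A F (-1) * aeval y g' = 0 := by
      have : algebraMap A F (-1) = -1 := rfl
      rw [this]; ring
    rw [h4] at h2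
    exact not_isUnit_zero h2
  set Y : MvPolynomial (σ ⊕ σ) ℚ := MvPolynomial.rename Sum.inl H with hYdef
  have hZ : tau G H = Y * Z := hR.cof
  have hyp : ∀ p : Nat.Primes, y.2 p ≠ 0 := by
    intro p hp
    have hu : IsUnit (cp p y) := by
      have := hy X X_ne_zero
      rw [aeval_X] at this
      exact this.map (cp p)
    rw [cp_apply, hp] at hu
    exact not_isUnit_zero hu
  have hGs : ∀ p : Nat.Primes, MvPolynomial.aeval (s p) G ≠ 0 := by
    intro p h
    obtain ⟨k, c, hc⟩ := dvd_pow_of H G hR.ne (fun ρ h2 h3 => (hR.dvd ρ h2).mp h3)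
    have h2 : (MvPolynomial.aeval (s p) H) ^ k = 0 := by
      rw [← map_pow, hc, map_mul, h, zero_mul]
    rw [← hs p] at h2
    exact pow_ne_zero k (hyp p) h2
  set Ψ : A[X] →+* MvPolynomial (σ ⊕ σ) ℚ :=
    eval₂RingHom ((tau G).toRingHom.comp ι.toRingHom) Y with hΨ
  have hΨX : Ψ X = Y := by
    rw [hΨ, coe_eval₂RingHom, eval₂_X]
  have hΨC : ∀ a : A, Ψ (C a) = tau G (ι a) := by
    intro a
    rw [hΨ, coe_eval₂RingHom, eval₂_C]
    rfl
  let t' : ∀ p : Nat.Primes, σ ⊕ σ → ℚ_[(p : ℕ)] := fun p =>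
    Sum.elim (s p) (fun j => (t p j - s p j) / MvPolynomial.aeval (s p) G)
  have hevY : ∀ p, MvPolynomial.aeval (t' p) Y = y.2 p := by
    intro p
    rw [hYdef, MvPolynomial.aeval_rename, hs p]
    rfl
  have hevtau : ∀ (p : Nat.Primes) (φ : MvPolynomial σ ℚ),
      MvPolynomial.aeval (t' p) (tau G φ) = MvPolynomial.aeval (t p) φ := by
    intro p φ
    have hG2 : MvPolynomial.aeval (t' p) (MvPolynomial.rename Sum.inl G) =
        MvPolynomial.aeval (s p) G := by
      rw [MvPolynomial.aeval_rename]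
      rfl
    have : (MvPolynomial.aeval (t' p)).comp (tau G) = MvPolynomial.aeval (t p) := by
      apply MvPolynomial.algHom_ext
      intro j
      rw [AlgHom.comp_apply, tau, MvPolynomial.aeval_X, map_add, map_mul, hG2,
        MvPolynomial.aeval_X, MvPolynomial.aeval_X, MvPolynomial.aeval_X]
      simp only [t', Sum.elim_inl, Sum.elim_inr]
      field_simp [hGs p]
      ring
    rw [← this]
    rfl
  have hev : ∀ (p : Nat.Primes) (g : A[X]), MvPolynomial.aeval (t' p) (Ψ g) = (aeval y g).2 p := by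
    intro p g
    rw [← cp_apply, aeval_def, hom_eval₂, hΨ, coe_eval₂RingHom]
    have h2 := hom_eval₂ g ((tau G).toRingHom.comp ι.toRingHom)
      (MvPolynomial.aeval (R := ℚ) (t' p)).toRingHom Y
    have h3 : (MvPolynomial.aeval (R := ℚ) (t' p)).toRingHom.comp
        ((tau G).toRingHom.comp ι.toRingHom) = (cp p).comp (algebraMap A F) := by
      ext a
      change MvPolynomial.aeval (t' p) (tau G (ι a)) = (a : F).2 p
      rw [hevtau, h1]
    rw [h3] at h2
    refine h2.trans ?_
    congr 1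
    exact hevY p
  have hYne : Y ≠ 0 := by
    intro h
    have p : Nat.Primes := ⟨2, Nat.prime_two⟩
    have := hevY p
    rw [h, map_zero] at this
    exact hyp p this.symm
  have hex : ∀ r ∈ B, ∃ W, Cor A y Y Ψ r W := by
    rintro r ⟨hr1, hr2⟩
    obtain ⟨m, g, hg⟩ := hr1
    obtain ⟨m', g', hg'⟩ := hr2
    rw [aeval_X] at hg hg'
    have hc := hI0 A y z f hy hf.ne_zero hyz r m m' g g' hg hg'
    have hdvd : Y ^ m ∣ Ψ g := by
      rw [hΨ, coe_eval₂RingHom, eval₂_eq_sum_range]
      apply Finset.dvd_sum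
      intro k _
      by_cases hk : m ≤ k
      · exact (pow_dvd_pow Y hk).mul_left _
      · push Not at hk
        have h3 := hc (m - k) (by omega)
        rw [show m - (m - k) = k by omega] at h3
        rw [h3, map_mul, map_pow]
        have h4 : ((tau G).toRingHom.comp ι.toRingHom) f = Y * Z := hZ
        rw [h4, mul_pow]
        have h5 : Y ^ (m - k) * Y ^ k = Y ^ m := by rw [← pow_add]; congr 1; omega
        refine ⟨((tau G).toRingHom.comp ι.toRingHom) (g'.coeff (m' + (m - k))) * Z ^ (m - k), ?_⟩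
        rw [← h5]; ring
    obtain ⟨W, hW⟩ := hdvd
    exact ⟨W, m, g, hg, hW.symm⟩
  obtain ⟨θ, hθ⟩ := exists_hom (Ψ := Ψ) B hΨX hYne hyinj
    (fun r => by
      rw [hΨC, AlgHom.commutes, AlgHom.commutes]) hex
  refine ⟨σ ⊕ σ, inferInstance, θ, t', fun a p => ?_, ?_⟩
  · obtain ⟨m, g, h2, h3⟩ := hθ a
    have h4 : (y.2 p) ^ m * (a : F).2 p = (y.2 p) ^ m * MvPolynomial.aeval (t' p) (θ a) := by
      have h5 := congrArg (cp p) h2
      rw [map_mul, map_pow, cp_apply, cp_apply, cp_apply, ← hev, ← h3, map_mul, map_pow, hevY] at h5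
      exact h5
    exact mul_left_cancel₀ (pow_ne_zero m (hyp p)) h4
  -- `Cop`
  obtain ⟨hyB, hyprime⟩ := hyPr
  set y' : B := ⟨y, hyB⟩ with hy'
  set z' : B := ⟨z, hzB⟩ with hz'
  let j : A →+* B := (Subalgebra.inclusion hle).toRingHom
  have hj : ∀ a : A, ((j a : B) : F) = a := fun a => rfl
  let i : A[X] →+* B := eval₂RingHom j y'
  have hi : ∀ g : A[X], ((i g : B) : F) = aeval y g := by
    intro g
    have h2 : (i g : B) = g.eval₂ j y' := rfl
    have h3 := hom_eval₂ g j (algebraMap B F) y'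
    rw [aeval_def]
    exact h3
  have hθi : ∀ g : A[X], θ (i g) = Ψ g := by
    intro g
    have h2 := hθ (i g)
    have h3 : Cor A y Y Ψ ((i g : B) : F) (Ψ g) := ⟨0, g, by rw [pow_zero, one_mul, hi], by
      rw [pow_zero, one_mul]⟩
    exact cor_uniq hΨX hYne hyinj h2 h3
  have hiX : i X = y' := by
    change eval₂ j y' X = y'
    rw [eval₂_X]
  have hθy : θ y' = Y := by
    rw [← hiX, hθi, hΨX]
  have hθj : ∀ a : A, θ (j a) = tau G (ι a) := by
    intro a
    have h2 : i (C a) = j a := by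
      change eval₂ j y' (C a) = j a
      rw [eval₂_C]
    rw [← h2, hθi, hΨC]
  have hyz' : y' * z' = j f := Subtype.ext hyz
  have hθz : θ z' = Z := by
    apply mul_left_cancel₀ hYne
    rw [← hZ, hH, ← hθj, ← hyz', map_mul, hθy]
  intro π hπ
  by_cases hπY : π ∣ Y
  · obtain ⟨ρ, hρ, hρH, hTDh⟩ := hTD σ H G Z hR hH0 π hπ hπY
    have hfa : ∀ a : A, ρ ∣ ι a → f ∣ a := by
      intro a ha
      obtain ⟨g₀, hg₀⟩ := (hCop ρ hρ).principal
      have h2 : f ∈ Ideal.comap (ι : A →+* MvPolynomial σ ℚ) (Ideal.span {ρ}) := by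
        rw [Ideal.mem_comap, Ideal.mem_span_singleton]
        exact hρH
      have h3 : a ∈ Ideal.comap (ι : A →+* MvPolynomial σ ℚ) (Ideal.span {ρ}) := by
        rw [Ideal.mem_comap, Ideal.mem_span_singleton]
        exact ha
      rw [hg₀, Ideal.submodule_span_eq, Ideal.mem_span_singleton] at h2 h3
      have h4 : ¬ IsUnit g₀ := by
        intro hu
        have h5 : (1 : A) ∈ Ideal.comap (ι : A →+* MvPolynomial σ ℚ) (Ideal.span {ρ}) := by
          rw [hg₀, Ideal.submodule_span_eq, Ideal.mem_span_singleton]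
          exact hu.dvd
        rw [Ideal.mem_comap, Ideal.mem_span_singleton, map_one] at h5
        exact hρ.not_isUnit (isUnit_of_dvd_one h5)
      obtain ⟨c, hc⟩ := h2
      rcases hf.irreducible.isUnit_or_isUnit hc with h5 | h5
      · exact absurd h5 h4
      · have h6 : f ∣ g₀ := by
          rw [hc]
          exact (h5.mul_right_dvd).mpr dvd_rfl
        exact h6.trans h3
    have hyz2 : ¬ y' ∣ z' := by
      rintro ⟨c, hc⟩
      have h2 : π ∣ Z := by
        rw [← hθz, hc, map_mul, hθy]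
        exact hπY.mul_right _
      have h3 := hTDh X (by rw [eval₂_X]; exact h2) 1
      rw [coeff_X_one] at h3
      exact hρ.not_isUnit (isUnit_of_dvd_one h3)
    refine ⟨y', ?_⟩
    rw [Ideal.submodule_span_eq]
    apply le_antisymm
    · intro r hr
      rw [Ideal.mem_comap, Ideal.mem_span_singleton] at hr
      rw [Ideal.mem_span_singleton]
      obtain ⟨m', g', hg'⟩ := r.2.2
      rw [aeval_X] at hg'
      have h2 : z' ^ m' * r = g'.eval₂ j z' := by
        apply Subtype.ext
        have h3 := hom_eval₂ g' j (algebraMap B F) z'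
        refine hg'.trans ?_
        rw [aeval_def]
        exact h3.symm
      have h3 : Z ^ m' * θ r = (g'.map (ι : A →+* MvPolynomial σ ℚ)).eval₂
          (tau G : MvPolynomial σ ℚ →+* MvPolynomial (σ ⊕ σ) ℚ) Z := by
        have h4 := congrArg θ h2
        rw [map_mul, map_pow, hθz] at h4
        rw [h4, eval₂_map]
        have h5 := hom_eval₂ g' j (θ : B →+* MvPolynomial (σ ⊕ σ) ℚ) z'
        refine h5.trans ?_
        have h6 : (θ : B →+* MvPolynomial (σ ⊕ σ) ℚ) z' = Z := hθz
        rw [h6]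
        congr 1
        exact RingHom.ext fun a => hθj a
      have h4 := hTDh _ (h3 ▸ (Dvd.dvd.mul_left hr _))
      have h5 : C f ∣ g' := by
        rw [C_dvd_iff_dvd_coeff]
        intro n
        apply hfa
        have := h4 n
        rw [coeff_map] at this
        exact this
      obtain ⟨g'', hg''⟩ := h5
      have h6 : y' ∣ z' ^ m' * r := by
        rw [h2, hg'', eval₂_mul, eval₂_C, ← hyz', mul_assoc]
        exact dvd_mul_right _ _
      rcases hyprime.dvd_or_dvd h6 with h7 | h7
      · exact absurd (hyprime.dvd_of_dvd_pow h7) hyz2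
      · exact h7
    · rw [Ideal.span_le, Set.singleton_subset_iff, SetLike.mem_coe, Ideal.mem_comap,
        Ideal.mem_span_singleton]
      change π ∣ θ y'
      rw [hθy]
      exact hπY
  · apply hCPC A[X] B (MvPolynomial (σ ⊕ σ) ℚ) i X (θ : B →+* MvPolynomial (σ ⊕ σ) ℚ) π
    · intro r
      obtain ⟨m, g, hg⟩ := r.2.1
      rw [aeval_X] at hg
      refine ⟨m, g, Subtype.ext ?_⟩
      rw [hi, hiX]
      exact hg
    · exact hπ
    · change ¬ π ∣ θ (i X)
      rw [hiX, hθy]
      exact hπY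
    · have h2 : (θ : B →+* MvPolynomial (σ ⊕ σ) ℚ).comp i =
          (eval₂RingHom (tau G : MvPolynomial σ ℚ →+* MvPolynomial (σ ⊕ σ) ℚ)
            (MvPolynomial.rename Sum.inl H)).comp (mapRingHom (ι : A →+* MvPolynomial σ ℚ)) := by
        refine RingHom.ext fun g => ?_
        change θ (i g) = eval₂ _ _ (map _ g)
        rw [hθi, eval₂_map]
        rfl
      rw [h2]
      exact hCPA A[X] (MvPolynomial σ ℚ)[X] (MvPolynomial (σ ⊕ σ) ℚ) _ _
        (map_injective _ hιinj) (hPR A (MvPolynomial σ ℚ) _ hιinj hCop) π hπ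
        (hTI σ H G Z hR hH0 hHu π hπ hπY)

end OIF
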