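import Pool.Agent.OIF.St
import Pool.Agent.OID.F

/-!
# Module `F3`: making a prime and an element comaximal, with the embedding `EmbC`
-/

set_option autoImplicit false

namespace OIF

open Polynomial OID

theorem t_F3 : M_F3 := by
  intro hRL hAD hRAT hCONV hCHART hF0 hEFC P A hP hA hE p a hp ha hpa
  obtain ⟨hpA, hp⟩ := hp
  have hpa' : ¬ (⟨p, hpA⟩ : A) ∣ ⟨a, ha⟩ := by
    rintro ⟨c, hc⟩
    exact hpa ⟨c, c.2, congrArg Subtype.val hc⟩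
  obtain ⟨u, v, p', D⟩ := OID.F.exists_dt hRL hAD hRAT hCONV hA ⟨p, hpA⟩ ⟨a, ha⟩ hp hpa'
  have T := D.ct hCONV hCHART hA
  have hG := D.good hRAT hCONV hF0 hA T
  have hdom : IsDomain ↥(OID.F.RR A ⟨p, hpA⟩ ⟨a, ha⟩ u v) := (hCONV.1 P _ hG).1
  have hEmb : EmbC (OID.F.RR A ⟨p, hpA⟩ ⟨a, ha⟩ u v) :=
    hEFC P A hA hE u v ⟨p, hpA⟩ ⟨a, ha⟩ D.unitu D.unitv hp hpa' D.uv T.le T.umem D.v_mem hdom
      T.ufm
  exact ⟨OID.F.RR A ⟨p, hpA⟩ ⟨a, ha⟩ u v, hG, D.ext T, hEmb, u, T.umem, v, D.v_mem, D.uv⟩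

end OIF
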