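import Pool.Agent.OIF.St

/-!
# OIF, module LAM: the homomorphism `X j ↦ e j + G X j` is birational
-/

set_option autoImplicit false

namespace OIF

open Polynomial OID OIE

namespace LAM

variable {σ S : Type} [CommRing S] (e : σ → S) (G : S)

theorem lam_X (j : σ) : lam e G (MvPolynomial.X j) =
    MvPolynomial.C (e j) + MvPolynomial.C G * MvPolynomial.X j :=
  MvPolynomial.aeval_X _ _

theorem lam_C (a : S) : lam e G (MvPolynomial.C a) = MvPolynomial.C a :=
  (lam e G).commutes a

theorem lam_inj [IsDomain S] (hG : G ≠ 0) : Function.Injective (lam e G) := by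
  let K := FractionRing S
  have hK : (algebraMap S K G) ≠ 0 := fun h => hG
    ((IsFractionRing.injective S K) (h.trans (map_zero _).symm))
  let μ : MvPolynomial σ S →ₐ[S] MvPolynomial σ K := MvPolynomial.aeval fun j =>
    MvPolynomial.C (algebraMap S K G)⁻¹ *
      (MvPolynomial.X j - MvPolynomial.C (algebraMap S K (e j)))
  have hμC : ∀ a : S, μ (MvPolynomial.C a) = MvPolynomial.C (algebraMap S K a) := fun a =>
    μ.commutes a
  have h1 : (μ.comp (lam e G)).toRingHom = MvPolynomial.map (algebraMap S K) := by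
    apply MvPolynomial.ringHom_ext
    · intro a
      change μ (lam e G (MvPolynomial.C a)) = _
      rw [lam_C, hμC, MvPolynomial.map_C]
    · intro j
      change μ (lam e G (MvPolynomial.X j)) = _
      rw [lam_X, map_add, map_mul, hμC, hμC, MvPolynomial.map_X]
      have h2 : μ (MvPolynomial.X j) = MvPolynomial.C (algebraMap S K G)⁻¹ *
          (MvPolynomial.X j - MvPolynomial.C (algebraMap S K (e j))) := MvPolynomial.aeval_X _ _
      rw [h2, ← mul_assoc, ← map_mul, mul_inv_cancel₀ hK, map_one, one_mul, add_sub_cancel]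
  have h3 : Function.Injective (MvPolynomial.map (σ := σ) (algebraMap S K)) :=
    MvPolynomial.map_injective _ (IsFractionRing.injective S K)
  intro a b hab
  apply h3
  rw [← h1]
  exact congrArg μ hab

theorem lam_dense (h : MvPolynomial σ S) : ∃ (N : ℕ) (h' : MvPolynomial σ S),
    lam e G h' = MvPolynomial.C G ^ N * h := by
  induction h using MvPolynomial.induction_on with
  | C a => exact ⟨0, MvPolynomial.C a, by rw [lam_C, pow_zero, one_mul]⟩
  | add p q hp hq =>
    obtain ⟨N, p', hp⟩ := hp
    obtain ⟨M, q', hq⟩ := hq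
    refine ⟨N + M, MvPolynomial.C G ^ M * p' + MvPolynomial.C G ^ N * q', ?_⟩
    rw [map_add, map_mul, map_mul, map_pow, map_pow, lam_C, hp, hq]
    ring
  | mul_X p j hp =>
    obtain ⟨N, p', hp⟩ := hp
    refine ⟨N + 1, p' * (MvPolynomial.X j - MvPolynomial.C (e j)), ?_⟩
    rw [map_mul, map_sub, lam_X, lam_C, hp]
    ring

end LAM

open LAM

theorem t_LAM : M_LAM := by
  intro hB σ S _ _ _ e G hG π hπ hd
  have hC : (lam e G).toRingHom (MvPolynomial.C G) = MvPolynomial.C G := lam_C e G G
  refine hB (MvPolynomial σ S) (MvPolynomial σ S) (lam e G).toRingHom (MvPolynomial.C G)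
    (lam_inj e G hG) (fun h => ?_) π hπ ?_
  · obtain ⟨N, h', hh⟩ := lam_dense e G h
    exact ⟨N, h', by rw [hC]; exact hh⟩
  · rw [hC]
    exact hd

end OIF
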