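import Pool.Agent.OIF.St

/-!
# Module LCOP
-/

set_option autoImplicit false

namespace OIF

open Polynomial OID OIE

namespace LCOP

/-- `(L[σ])[X] ≃ (L[X])[σ]`. -/
noncomputable def dl (σ L : Type) [CommRing L] :
    (MvPolynomial σ L)[X] ≃ₐ[L] MvPolynomial σ L[X] :=
  (MvPolynomial.optionEquivLeft L σ).symm.trans (MvPolynomial.optionEquivRight L σ)

theorem dl_X (σ L : Type) [CommRing L] : dl σ L X = MvPolynomial.C X := by
  simp [dl]

theorem dl_CC (σ L : Type) [CommRing L] (r : L) :
    dl σ L (C (MvPolynomial.C r)) = MvPolynomial.C (C r) := by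
  simp [dl]

theorem dl_CX (σ L : Type) [CommRing L] (j : σ) :
    dl σ L (C (MvPolynomial.X j)) = MvPolynomial.X j := by
  simp [dl]

theorem eval_zero_line (σ L : Type) [Field L] [Algebra ℚ L] (τ : σ → L) (φ : MvPolynomial σ ℚ) :
    (line (fun j => MvPolynomial.C (τ j)) MvPolynomial.X φ).eval (0 : MvPolynomial σ L) =
      MvPolynomial.C (MvPolynomial.aeval τ φ) := by
  unfold line
  induction φ using MvPolynomial.induction_on with
  | C r =>
    rw [MvPolynomial.aeval_C, MvPolynomial.aeval_C]
    simp [Polynomial.algebraMap_apply, MvPolynomial.algebraMap_apply]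
  | add p q hp hq => rw [map_add, Polynomial.eval_add, hp, hq, map_add, map_add]
  | mul_X p j hp =>
    rw [map_mul, Polynomial.eval_mul, hp, map_mul, map_mul, MvPolynomial.aeval_X,
      MvPolynomial.aeval_X]
    simp

theorem aeval_eq_zero {σ L : Type} [Field L] [Algebra ℚ L] {τ : σ → L}
    {φ : MvPolynomial σ ℚ}
    (h : (X : (MvPolynomial σ L)[X]) ∣ line (fun j => MvPolynomial.C (τ j)) MvPolynomial.X φ) :
    MvPolynomial.aeval τ φ = 0 := by
  obtain ⟨c, hc⟩ := h
  have h1 := eval_zero_line σ L τ φ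
  rw [hc, Polynomial.eval_mul, Polynomial.eval_X, zero_mul] at h1
  exact (MvPolynomial.C_eq_zero).1 h1.symm

end LCOP

open LCOP in
theorem t_LCOP : M_LCOP := by
  intro hCPA hPRM hLAM σ _ a p hap L _ _ τ hτ π hπ ⟨ha, hp⟩
  by_cases hX : π ∣ X
  · have hXp : Prime (X : (MvPolynomial σ L)[X]) := Polynomial.prime_X
    have hass : Associated π X := hπ.associated_of_dvd hXp hX
    exact hτ ⟨aeval_eq_zero (hass.symm.dvd.trans ha), aeval_eq_zero (hass.symm.dvd.trans hp)⟩
  · let κ : ℚ →+* L[X] := algebraMap ℚ L[X]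
    have hκ : Function.Injective κ := RingHom.injective κ
    have hcκ : Cop κ := fun _ _ => IsPrincipalIdealRing.principal _
    have hcop : Cop (MvPolynomial.map (σ := σ) κ) := hPRM σ _ _ κ hκ hcκ
    have hinj : Function.Injective (MvPolynomial.map (σ := σ) κ) := MvPolynomial.map_injective _ hκ
    have hπ' : Prime (dl σ L π) := (MulEquiv.prime_iff (dl σ L).toMulEquiv).2 hπ
    have hnd : ¬ dl σ L π ∣ MvPolynomial.C (X : L[X]) := by
      intro h
      rw [← dl_X] at h
      exact hX ((map_dvd_iff (dl σ L)).1 h)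
    have h1 := hLAM σ L[X] (fun j => C (τ j)) X Polynomial.X_ne_zero (dl σ L π) hπ' hnd
    have h2 := hCPA (MvPolynomial σ ℚ) (MvPolynomial σ L[X]) (MvPolynomial σ L[X])
      (MvPolynomial.map κ) (lam (fun j => C (τ j)) X).toRingHom hinj hcop (dl σ L π) hπ' h1
    have hcomp : ∀ φ : MvPolynomial σ ℚ,
        dl σ L (line (fun j => MvPolynomial.C (τ j)) MvPolynomial.X φ) =
          ((lam (fun j => C (τ j)) X).toRingHom.comp (MvPolynomial.map κ)) φ := by
      intro φ
      have : (((dl σ L).toRingEquiv : (MvPolynomial σ L)[X] →+* MvPolynomial σ L[X]).comp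
          (line (fun j => MvPolynomial.C (τ j)) MvPolynomial.X :
            MvPolynomial σ ℚ →ₐ[ℚ] (MvPolynomial σ L)[X]).toRingHom) =
          ((lam (fun j => C (τ j)) X).toRingHom.comp (MvPolynomial.map κ)) := by
        apply MvPolynomial.ringHom_ext
        · intro r
          simp only [line, RingHom.coe_comp, Function.comp_apply, AlgHom.toRingHom_eq_coe,
            RingHom.coe_coe, MvPolynomial.aeval_C, MvPolynomial.map_C, lam, κ,
            Polynomial.algebraMap_apply, MvPolynomial.algebraMap_apply]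
          exact dl_CC σ L _
        · intro j
          simp [line, lam, dl_CX, dl_CC, dl_X]
          exact mul_comm _ _
      exact congrArg (fun f : MvPolynomial σ ℚ →+* MvPolynomial σ L[X] => f φ) this
    obtain ⟨g, hg⟩ := h2
    have hmem : ∀ φ : MvPolynomial σ ℚ, π ∣ line (fun j => MvPolynomial.C (τ j)) MvPolynomial.X φ →
        g ∣ φ := by
      intro φ hφ
      have h3 : φ ∈ Ideal.comap ((lam (fun j => C (τ j)) X).toRingHom.comp (MvPolynomial.map κ))
          (Ideal.span {dl σ L π}) := by
        rw [Ideal.mem_comap, ← hcomp, Ideal.mem_span_singleton]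
        exact (map_dvd_iff (dl σ L)).2 hφ
      rw [hg, Ideal.submodule_span_eq, Ideal.mem_span_singleton] at h3
      exact h3
    have hgu : IsUnit g := hap (hmem a ha) (hmem p hp)
    have h4 : (1 : MvPolynomial σ ℚ) ∈
        Ideal.comap ((lam (fun j => C (τ j)) X).toRingHom.comp (MvPolynomial.map κ))
          (Ideal.span {dl σ L π}) := by
      rw [hg, Ideal.submodule_span_eq, Ideal.mem_span_singleton]
      exact hgu.dvd
    rw [Ideal.mem_comap, map_one, Ideal.mem_span_singleton] at h4
    exact hπ'.not_isUnit (isUnit_of_dvd_one h4)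

end OIF
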