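import Pool.Agent.OIF.St

/-!
# Module `LDEG`: degree and leading coefficient on a line
-/

set_option autoImplicit false

namespace OIF

namespace LDEG

open Polynomial

/-- the degree is at most `n`, and the coefficient of index `n` is `a` -/
def Q {B : Type} [CommRing B] (f : B[X]) (a : B) (n : ℕ) : Prop := f.natDegree ≤ n ∧ f.coeff n = a

theorem Q_mul {B : Type} [CommRing B] {f g : B[X]} {a b : B} {n k : ℕ} (hf : Q f a n)
    (hg : Q g b k) : Q (f * g) (a * b) (n + k) := by
  refine ⟨natDegree_mul_le_of_le hf.1 hg.1, ?_⟩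
  rw [coeff_mul_add_eq_of_natDegree_le hf.1 hg.1, hf.2, hg.2]

theorem Q_pow {B : Type} [CommRing B] {f : B[X]} {a : B} (hf : Q f a 1) (k : ℕ) :
    Q (f ^ k) (a ^ k) k := by
  refine ⟨(natDegree_pow_le_of_le k hf.1).trans (by omega), ?_⟩
  have h := coeff_pow_of_natDegree_le (m := k) hf.1
  rwa [mul_one, hf.2] at h

theorem Q_prod {B ι : Type} [CommRing B] (S : Finset ι) (f : ι → B[X]) (a : ι → B) (n : ι → ℕ)
    (h : ∀ i ∈ S, Q (f i) (a i) (n i)) : Q (∏ i ∈ S, f i) (∏ i ∈ S, a i) (∑ i ∈ S, n i) := by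
  classical
  induction S using Finset.induction_on with
  | empty => simp [Q]
  | insert i S hi ih =>
    rw [Finset.prod_insert hi, Finset.prod_insert hi, Finset.sum_insert hi]
    exact Q_mul (h i (Finset.mem_insert_self i S))
      (ih fun j hj => h j (Finset.mem_insert_of_mem hj))

theorem Q_line {B : Type} [CommRing B] (x y : B) : Q (C x + X * C y) y 1 := by
  constructor
  · compute_degree
  · simp

/-- monomials -/
theorem mono {σ B : Type} [CommRing B] [Algebra ℚ B] (s d : σ → B) (m : σ →₀ ℕ) (a : ℚ) :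
    Q (line s d (MvPolynomial.monomial m a)) (MvPolynomial.aeval d (MvPolynomial.monomial m a))
      m.degree := by
  have h1 : line s d (MvPolynomial.monomial m a) =
      C (algebraMap ℚ B a) * ∏ j ∈ m.support, (C (s j) + X * C (d j)) ^ m j := by
    rw [line, MvPolynomial.aeval_monomial]
    rfl
  have h2 : MvPolynomial.aeval d (MvPolynomial.monomial m a) =
      algebraMap ℚ B a * ∏ j ∈ m.support, d j ^ m j := by
    rw [MvPolynomial.aeval_monomial]
    rfl
  rw [h1, h2]
  have h3 : Q (C (algebraMap ℚ B a)) (algebraMap ℚ B a) 0 := by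
    exact ⟨(natDegree_C _).le, coeff_C_zero⟩
  have h4 := Q_mul h3 (Q_prod m.support (fun j => (C (s j) + X * C (d j)) ^ m j)
    (fun j => d j ^ m j) m fun j _ => Q_pow (Q_line (s j) (d j)) (m j))
  rw [zero_add] at h4
  exact h4

theorem mono_le {σ B : Type} [CommRing B] [Algebra ℚ B] (s d : σ → B) (m : σ →₀ ℕ) (a : ℚ)
    (n : ℕ) (hn : m.degree ≤ n) :
    Q (line s d (MvPolynomial.monomial m a))
      (MvPolynomial.aeval d (MvPolynomial.homogeneousComponent n (MvPolynomial.monomial m a)))
      n := by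
  have h1 := mono s d m a
  have h2 : MvPolynomial.monomial m a ∈ MvPolynomial.homogeneousSubmodule σ ℚ m.degree :=
    MvPolynomial.isHomogeneous_monomial a rfl
  rw [MvPolynomial.homogeneousComponent_of_mem h2]
  refine ⟨h1.1.trans hn, ?_⟩
  by_cases h3 : n = m.degree
  · rw [if_pos h3, h3]
    exact h1.2
  · rw [if_neg h3, map_zero]
    exact coeff_eq_zero_of_natDegree_lt (lt_of_le_of_lt h1.1 (by omega))

end LDEG

open LDEG Polynomial in
theorem t_LDEG : S_LDEG := by
  intro σ B _ _ s d φ n hn
  have h : ∀ m ∈ φ.support, m.degree ≤ n := fun m hm => (MvPolynomial.le_totalDegree hm).trans hn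
  have h1 : line s d φ = ∑ m ∈ φ.support, line s d (MvPolynomial.monomial m (φ.coeff m)) := by
    conv_lhs => rw [φ.as_sum]
    rw [map_sum]
  have h2 : MvPolynomial.aeval d (MvPolynomial.homogeneousComponent n φ) =
      ∑ m ∈ φ.support, MvPolynomial.aeval d
        (MvPolynomial.homogeneousComponent n (MvPolynomial.monomial m (φ.coeff m))) := by
    conv_lhs => rw [φ.as_sum]
    rw [map_sum, map_sum]
  rw [h1, h2]
  constructor
  · exact natDegree_sum_le_of_forall_le _ _ fun m hm => (mono_le s d m _ n (h m hm)).1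
  · rw [finsetSum_coeff]
    exact Finset.sum_congr rfl fun m hm => (mono_le s d m _ n (h m hm)).2

end OIF
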