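import Mathlib
import Pool.Agent.OIF.St

/-!
# Module `LN`: the resultant on lines, conclusion
-/

set_option autoImplicit false

namespace OIF

open Polynomial OID OIE

namespace LN

theorem top_ne {σ : Type} (φ : MvPolynomial σ ℚ) (h : φ ≠ 0) :
    MvPolynomial.homogeneousComponent φ.totalDegree φ ≠ 0 := by
  classical
  obtain ⟨m, hm, hd⟩ : ∃ m ∈ φ.support, φ.totalDegree = m.sum fun _ e => e :=
    Finset.exists_mem_eq_sup _ (MvPolynomial.support_nonempty.2 h) _
  intro h0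
  have h1 := congrArg (MvPolynomial.coeff m) h0
  rw [MvPolynomial.coeff_homogeneousComponent, MvPolynomial.coeff_zero, if_pos] at h1
  · exact MvPolynomial.mem_support_iff.1 hm h1
  · rw [hd]
    rfl

theorem aeval_X_eq {σ L : Type} [Field L] [Algebra ℚ L] (ψ : MvPolynomial σ ℚ) :
    (MvPolynomial.aeval (MvPolynomial.X : σ → MvPolynomial σ L) ψ : MvPolynomial σ L) =
      MvPolynomial.map (algebraMap ℚ L) ψ := by
  induction ψ using MvPolynomial.induction_on with
  | C a =>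
    rw [MvPolynomial.aeval_C, MvPolynomial.map_C]
    rfl
  | add p q hp hq => rw [map_add, map_add, hp, hq]
  | mul_X p j hp => rw [map_mul, map_mul, hp, MvPolynomial.aeval_X, MvPolynomial.map_X]

theorem line_coeff (h1 : S_LDEG) {σ L : Type} [Field L] [Algebra ℚ L] (τ : σ → L)
    (φ : MvPolynomial σ ℚ) (h : φ ≠ 0) :
    (line (fun j => MvPolynomial.C (τ j)) (MvPolynomial.X : σ → MvPolynomial σ L) φ).coeff
      φ.totalDegree ≠ 0 := by
  rw [(h1 σ (MvPolynomial σ L) _ _ φ _ le_rfl).2, aeval_X_eq]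
  intro h0
  apply top_ne φ h
  apply MvPolynomial.map_injective (algebraMap ℚ L) (algebraMap ℚ L).injective
  rw [h0, map_zero]

theorem line_deg (h1 : S_LDEG) {σ L : Type} [Field L] [Algebra ℚ L] (τ : σ → L)
    (φ : MvPolynomial σ ℚ) (h : φ ≠ 0) :
    (line (fun j => MvPolynomial.C (τ j)) (MvPolynomial.X : σ → MvPolynomial σ L) φ).natDegree =
      φ.totalDegree :=
  le_antisymm (h1 σ (MvPolynomial σ L) _ _ φ _ le_rfl).1
    (Polynomial.le_natDegree_of_ne_zero (line_coeff h1 τ φ h))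

theorem map_gl {σ L : Type} [Field L] [Algebra ℚ L] (τ : σ → L) (φ : MvPolynomial σ ℚ) :
    (gl φ).map (MvPolynomial.aeval (Sum.elim (fun j => MvPolynomial.C (τ j)) MvPolynomial.X) :
      MvPolynomial (σ ⊕ σ) ℚ →ₐ[ℚ] MvPolynomial σ L).toRingHom =
    line (fun j => MvPolynomial.C (τ j)) (MvPolynomial.X : σ → MvPolynomial σ L) φ := by
  have h : (Polynomial.mapAlgHom (MvPolynomial.aeval (Sum.elim (fun j => MvPolynomial.C (τ j))
      MvPolynomial.X) : MvPolynomial (σ ⊕ σ) ℚ →ₐ[ℚ] MvPolynomial σ L)).comp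
      (line (fun j => MvPolynomial.X (Sum.inl j)) (fun j => MvPolynomial.X (Sum.inr j))) =
      line (fun j => MvPolynomial.C (τ j)) (MvPolynomial.X : σ → MvPolynomial σ L) := by
    apply MvPolynomial.algHom_ext
    intro j
    rw [AlgHom.comp_apply, line, line, MvPolynomial.aeval_X, MvPolynomial.aeval_X]
    simp
  exact DFunLike.congr_fun h φ

/-- the case of a constant -/
theorem const {σ : Type} (a p : MvPolynomial σ ℚ) (α : ℚ) (hα : α ≠ 0)
    (h : a = MvPolynomial.C α ∨ p = MvPolynomial.C α) :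
    LnC a p (MvPolynomial.C α) where
  mem := by
    intro B _ _ s d l
    rcases h with h | h
    · apply Ideal.subset_span
      left
      rw [h, MvPolynomial.aeval_C, MvPolynomial.aeval_C]
    · apply Ideal.subset_span
      right
      rw [h, MvPolynomial.aeval_C, Set.mem_singleton_iff, MvPolynomial.aeval_C]
  inv := by
    intro B _ _ s d l
    rw [MvPolynomial.aeval_C, MvPolynomial.aeval_C]
  ne := by
    intro L _ _ τ _
    rw [MvPolynomial.aeval_C]
    intro h0
    apply hα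
    apply (algebraMap ℚ (MvPolynomial σ L)).injective
    rw [h0, map_zero]

theorem unit {σ : Type} (a : MvPolynomial σ ℚ) (h : IsUnit a) :
    ∃ α : ℚ, α ≠ 0 ∧ a = MvPolynomial.C α := by
  obtain ⟨α, hα, h1⟩ := MvPolynomial.isUnit_iff_eq_C_of_isReduced.1 h
  exact ⟨α, hα.ne_zero, h1⟩

end LN

theorem t_LN : M_LN := by
  intro hLDEG hLRES hLCOP hLNM σ _ a p hap
  classical
  by_cases ha : IsUnit a
  · obtain ⟨α, h1, h2⟩ := LN.unit a ha
    exact ⟨_, LN.const a p α h1 (Or.inl h2)⟩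
  by_cases hp : IsUnit p
  · obtain ⟨α, h1, h2⟩ := LN.unit p hp
    exact ⟨_, LN.const a p α h1 (Or.inr h2)⟩
  have ha0 : a ≠ 0 := by
    rintro rfl
    exact hp (hap (dvd_zero p) dvd_rfl)
  have hp0 : p ≠ 0 := by
    rintro rfl
    exact ha (hap dvd_rfl (dvd_zero a))
  obtain ⟨hdeg, hmem, hinv⟩ := hLNM σ a p ha0 hp0 ha hp
  refine ⟨(gl a).resultant (gl p), ⟨hmem, hinv, ?_⟩⟩
  intro L _ _ τ hτ
  have h1 := Polynomial.resultant_map_map (gl a) (gl p) (gl a).natDegree (gl p).natDegree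
    (MvPolynomial.aeval (Sum.elim (fun j => MvPolynomial.C (τ j)) MvPolynomial.X) :
      MvPolynomial (σ ⊕ σ) ℚ →ₐ[ℚ] MvPolynomial σ L).toRingHom
  rw [LN.map_gl, LN.map_gl, hdeg a ha0, hdeg p hp0, ← LN.line_deg hLDEG τ a ha0,
    ← LN.line_deg hLDEG τ p hp0] at h1
  intro h0
  refine hLRES (MvPolynomial σ L) _ _ ?_ (fun π hπ => hLCOP σ a p hap L τ hτ π hπ) ?_
  · intro h
    apply LN.line_coeff hLDEG τ a ha0
    rw [h, Polynomial.coeff_zero]
  · rw [h1]
    rw [LN.line_deg hLDEG τ a ha0, LN.line_deg hLDEG τ p hp0, ← hdeg a ha0, ← hdeg p hp0]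
    exact h0

end OIF
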