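import Pool.Agent.OIF.St

/-!
# LNM: the resultant on lines: degrees, `mem` and `inv`
-/

set_option autoImplicit false
set_option maxHeartbeats 4000000

namespace OIF

open Polynomial OID OIE

namespace LNM

variable {σ : Type}

lemma hc_ne (φ : MvPolynomial σ ℚ) (h : φ ≠ 0) :
    MvPolynomial.homogeneousComponent φ.totalDegree φ ≠ 0 := by
  classical
  obtain ⟨d, hd, he⟩ := Finset.exists_mem_eq_sup φ.support
    (MvPolynomial.support_nonempty.2 h) (fun s => s.sum fun _ e => e)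
  intro h0
  have h1 : MvPolynomial.coeff d (MvPolynomial.homogeneousComponent φ.totalDegree φ) = 0 := by
    rw [h0, MvPolynomial.coeff_zero]
  rw [MvPolynomial.coeff_homogeneousComponent] at h1
  have h2 : d.degree = φ.totalDegree := by
    have : φ.totalDegree = d.sum fun _ e => e := he
    rw [this]
    rfl
  rw [if_pos h2] at h1
  exact MvPolynomial.mem_support_iff.1 hd h1

lemma natDegree_gl (hL : S_LDEG) (φ : MvPolynomial σ ℚ) (h : φ ≠ 0) :
    (gl φ).natDegree = φ.totalDegree := by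
  obtain ⟨h1, h2⟩ := hL σ (MvPolynomial (σ ⊕ σ) ℚ) (fun j => MvPolynomial.X (Sum.inl j))
    (fun j => MvPolynomial.X (Sum.inr j)) φ φ.totalDegree le_rfl
  refine le_antisymm h1 (le_natDegree_of_ne_zero ?_)
  change ((line (fun j => MvPolynomial.X (Sum.inl j)) (fun j => MvPolynomial.X (Sum.inr j))) φ).coeff
    φ.totalDegree ≠ 0
  rw [h2]
  intro h3
  apply hc_ne φ h
  apply MvPolynomial.rename_injective (R := ℚ) (Sum.inr : σ → σ ⊕ σ) Sum.inr_injective
  rw [map_zero, MvPolynomial.rename_eq_aeval, ← h3]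
  rfl

/-- evaluation -/
noncomputable def EV (B : Type) [CommRing B] [Algebra ℚ B] (s d : σ → B) (l : B) :
    (MvPolynomial (σ ⊕ σ) ℚ)[X] →ₐ[ℚ] B :=
  eval₂AlgHom (MvPolynomial.aeval (Sum.elim s d) : MvPolynomial (σ ⊕ σ) ℚ →ₐ[ℚ] B) l
    (fun _ => Commute.all _ _)

lemma EV_apply (B : Type) [CommRing B] [Algebra ℚ B] (s d : σ → B) (l : B)
    (f : (MvPolynomial (σ ⊕ σ) ℚ)[X]) :
    EV B s d l f = eval₂ ((MvPolynomial.aeval (Sum.elim s d) : MvPolynomial (σ ⊕ σ) ℚ →ₐ[ℚ] B) :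
      MvPolynomial (σ ⊕ σ) ℚ →+* B) l f := rfl

/-- the evaluation of the generic line -/
lemma eval_gl (B : Type) [CommRing B] [Algebra ℚ B] (s d : σ → B) (l : B) (φ : MvPolynomial σ ℚ) :
    eval₂ ((MvPolynomial.aeval (Sum.elim s d) : MvPolynomial (σ ⊕ σ) ℚ →ₐ[ℚ] B) :
      MvPolynomial (σ ⊕ σ) ℚ →+* B) l (gl φ) =
      MvPolynomial.aeval (fun j => s j + l * d j) φ := by
  have h : (EV B s d l).comp
      (line (fun j => MvPolynomial.X (Sum.inl j)) (fun j => MvPolynomial.X (Sum.inr j))) =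
      (MvPolynomial.aeval (fun j => s j + l * d j) : MvPolynomial σ ℚ →ₐ[ℚ] B) := by
    apply MvPolynomial.algHom_ext
    intro j
    simp [line, EV_apply]
    ring
  exact congrArg (fun f : MvPolynomial σ ℚ →ₐ[ℚ] B => f φ) h

/-- the homomorphism of the shift -/
noncomputable def sh : MvPolynomial (σ ⊕ σ) ℚ →ₐ[ℚ] (MvPolynomial (σ ⊕ σ) ℚ)[X] :=
  MvPolynomial.aeval (Sum.elim
    (fun j => C (MvPolynomial.X (Sum.inl j)) + X * C (MvPolynomial.X (Sum.inr j)))
    (fun j => C (MvPolynomial.X (Sum.inr j))))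

lemma map_gl (φ : MvPolynomial σ ℚ) :
    (gl φ).map (sh (σ := σ) : MvPolynomial (σ ⊕ σ) ℚ →+* (MvPolynomial (σ ⊕ σ) ℚ)[X]) =
      taylor X ((gl φ).map C) := by
  have h : (mapAlgHom (sh (σ := σ))).comp
      (line (fun j => MvPolynomial.X (Sum.inl j)) (fun j => MvPolynomial.X (Sum.inr j))) =
      (((taylorAlgHom (X : (MvPolynomial (σ ⊕ σ) ℚ)[X])).restrictScalars ℚ).comp
        (mapAlgHom (CAlgHom (R := ℚ) (A := MvPolynomial (σ ⊕ σ) ℚ)))).comp
      (line (fun j => MvPolynomial.X (Sum.inl j)) (fun j => MvPolynomial.X (Sum.inr j))) := by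
    apply MvPolynomial.algHom_ext
    intro j
    simp [line, sh]
    ring
  exact congrArg (fun f : MvPolynomial σ ℚ →ₐ[ℚ] (MvPolynomial (σ ⊕ σ) ℚ)[X][X] => f φ) h

lemma sh_res (a p : MvPolynomial σ ℚ) : sh ((gl a).resultant (gl p)) = C ((gl a).resultant (gl p)) := by
  have h1 := resultant_map_map (gl a) (gl p) (gl a).natDegree (gl p).natDegree
    (sh (σ := σ) : MvPolynomial (σ ⊕ σ) ℚ →+* (MvPolynomial (σ ⊕ σ) ℚ)[X])
  have h2 := resultant_map_map (gl a) (gl p) (gl a).natDegree (gl p).natDegree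
    (C : MvPolynomial (σ ⊕ σ) ℚ →+* (MvPolynomial (σ ⊕ σ) ℚ)[X])
  have h3 := resultant_taylor ((gl a).map C) ((gl p).map C)
    (X : (MvPolynomial (σ ⊕ σ) ℚ)[X])
  rw [natDegree_taylor, natDegree_taylor, natDegree_map_eq_of_injective C_injective,
    natDegree_map_eq_of_injective C_injective, ← map_gl, ← map_gl, h1, h2] at h3
  exact h3

lemma inv (a p : MvPolynomial σ ℚ) (B : Type) [CommRing B] [Algebra ℚ B] (s d : σ → B) (l : B) :
    MvPolynomial.aeval (Sum.elim (fun j => s j + l * d j) d) ((gl a).resultant (gl p)) =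
      MvPolynomial.aeval (Sum.elim s d) ((gl a).resultant (gl p)) := by
  have h : (EV B s d l).comp (sh (σ := σ)) =
      (MvPolynomial.aeval (Sum.elim (fun j => s j + l * d j) d) :
        MvPolynomial (σ ⊕ σ) ℚ →ₐ[ℚ] B) := by
    apply MvPolynomial.algHom_ext
    rintro (j | j)
    · simp [sh, EV_apply]
      ring
    · simp [sh, EV_apply]
  rw [← h, AlgHom.comp_apply, sh_res, EV_apply, eval₂_C]
  rfl

end LNM

theorem t_LNM : M_LNM := by
  intro hL σ a p ha hp hua hup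
  refine ⟨fun φ h => LNM.natDegree_gl hL φ h, ?_, LNM.inv a p⟩
  intro B _ _ s d l
  have hne : (gl a).natDegree ≠ 0 := by
    rw [LNM.natDegree_gl hL a ha]
    intro h0
    apply hua
    rw [MvPolynomial.totalDegree_eq_zero_iff_eq_C] at h0
    rw [h0]
    apply IsUnit.map
    rw [isUnit_iff_ne_zero]
    intro h1
    rw [h1, map_zero] at h0
    exact ha h0
  obtain ⟨u, v, -, -, h⟩ := exists_mul_add_mul_eq_C_resultant (gl a) (gl p) le_rfl le_rfl
    (Or.inl hne)
  have h2 := congrArg (eval₂ ((MvPolynomial.aeval (Sum.elim s d) :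
    MvPolynomial (σ ⊕ σ) ℚ →ₐ[ℚ] B) : MvPolynomial (σ ⊕ σ) ℚ →+* B) l) h
  rw [eval₂_add, eval₂_mul, eval₂_mul, LNM.eval_gl, LNM.eval_gl, eval₂_C] at h2
  have h3 : MvPolynomial.aeval (Sum.elim s d) ((gl a).resultant (gl p)) =
      MvPolynomial.aeval (fun j => s j + l * d j) a * eval₂ ((MvPolynomial.aeval (Sum.elim s d) :
        MvPolynomial (σ ⊕ σ) ℚ →ₐ[ℚ] B) : MvPolynomial (σ ⊕ σ) ℚ →+* B) l u +
      MvPolynomial.aeval (fun j => s j + l * d j) p * eval₂ ((MvPolynomial.aeval (Sum.elim s d) :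
        MvPolynomial (σ ⊕ σ) ℚ →ₐ[ℚ] B) : MvPolynomial (σ ⊕ σ) ℚ →+* B) l v := h2.symm
  rw [h3]
  apply Ideal.add_mem
  · exact Ideal.mul_mem_right _ _ (Ideal.subset_span (by simp))
  · exact Ideal.mul_mem_right _ _ (Ideal.subset_span (by simp))

end OIF
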