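import Pool.Agent.OIF.St

set_option autoImplicit false

open Polynomial

namespace OIF

namespace LRES

variable {D : Type} [CommRing D] [IsDomain D] [UniqueFactorizationMonoid D]

/-- A nonzero polynomial over the fraction field which is not a unit comes, up to a unit, from a
primitive polynomial which is not a unit. -/
theorem prim (d : (FractionRing D)[X]) (hd0 : d ≠ 0) (hdu : ¬ IsUnit d) :
    ∃ h : D[X], h.IsPrimitive ∧ ¬ IsUnit h ∧
      h.map (algebraMap D (FractionRing D)) ∣ d := by
  classical
  let _ : NormalizedGCDMonoid D := Classical.arbitrary (NormalizedGCDMonoid D)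
  refine ⟨(IsLocalization.integerNormalization (nonZeroDivisors D) d).primPart,
    isPrimitive_primPart _, fun hu => hdu
      (isUnit_or_eq_zero_of_isUnit_integerNormalization_primPart hd0 hu), ?_⟩
  obtain ⟨b, hb, hbm⟩ := IsLocalization.integerNormalization_spec (nonZeroDivisors D) d
  have hb0 : algebraMap D (FractionRing D) b ≠ 0 := by
    intro h0
    exact (nonZeroDivisors.ne_zero hb)
      ((injective_iff_map_eq_zero (algebraMap D (FractionRing D))).1
        (IsFractionRing.injective _ _) _ h0)
  have h1 : (IsLocalization.integerNormalization (nonZeroDivisors D) d).primPart.map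
      (algebraMap D (FractionRing D)) ∣
      (IsLocalization.integerNormalization (nonZeroDivisors D) d).map
        (algebraMap D (FractionRing D)) :=
    Polynomial.map_dvd _ (primPart_dvd _)
  rw [hbm, Algebra.smul_def, Polynomial.algebraMap_apply] at h1
  exact (IsUnit.dvd_mul_left (isUnit_C.2 (isUnit_iff_ne_zero.2 hb0))).1 h1

end LRES

theorem t_LRES : S_LRES := by
  intro D _ _ _ f g hf hπ hres
  classical
  have hinj : Function.Injective (algebraMap D (FractionRing D)) := IsFractionRing.injective _ _
  have h0 : (f.map (algebraMap D (FractionRing D))).resultant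
      (g.map (algebraMap D (FractionRing D))) = 0 := by
    rw [natDegree_map_eq_of_injective hinj, natDegree_map_eq_of_injective hinj,
      resultant_map_map, hres, map_zero]
  obtain ⟨-, hnc⟩ := resultant_eq_zero_iff.1 h0
  have hf' : f.map (algebraMap D (FractionRing D)) ≠ 0 := by
    rwa [Ne, Polynomial.map_eq_zero_iff hinj]
  have hgu : ¬ IsUnit (EuclideanDomain.gcd (f.map (algebraMap D (FractionRing D)))
      (g.map (algebraMap D (FractionRing D)))) := by
    rwa [EuclideanDomain.gcd_isUnit_iff]
  have hg0 : EuclideanDomain.gcd (f.map (algebraMap D (FractionRing D)))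
      (g.map (algebraMap D (FractionRing D))) ≠ 0 := by
    intro hz
    exact hf' (EuclideanDomain.gcd_eq_zero_iff.1 hz).1
  obtain ⟨h, hp, hu, hd⟩ := LRES.prim _ hg0 hgu
  have hhf : h ∣ f := hp.dvd_of_fraction_map_dvd_fraction_map
    (hd.trans (EuclideanDomain.gcd_dvd_left _ _))
  have hhg : h ∣ g := hp.dvd_of_fraction_map_dvd_fraction_map
    (hd.trans (EuclideanDomain.gcd_dvd_right _ _))
  obtain ⟨π, hirr, hπh⟩ := WfDvdMonoid.exists_irreducible_factor hu hp.ne_zero
  exact hπ π (UniqueFactorizationMonoid.irreducible_iff_prime.1 hirr)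
    ⟨hπh.trans hhf, hπh.trans hhg⟩

end OIF
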