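import Pool.Agent.OIF.St

/-!
# Assembly
-/

set_option autoImplicit false

namespace OIF

open OID

theorem t_MAIN3 : M_MAIN3 := by
  intro hT hP hU hA
  obtain ⟨M, i1, i2, i3, hM, hp, hd, P, h1, h2, h3, h4⟩ := hA
  have hpid : IsPrincipalIdealRing M := hM.pid
  have hdom : IsDomain M := inferInstance
  refine ⟨M, i1, i2, i3, hM.disc, ?_, (hT M hM).2, hP M hM, hU M hd, hdom, hpid, hp, P,
    h1, h2, h3, h4⟩
  refine ⟨?_, ?_, ?_, ?_, ?_, ?_, ?_, ?_⟩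
  · rintro ⟨x, hx⟩ h
    have h5 : x + 1 = 0 := congrArg Subtype.val h
    have h6 : (0 : M) < x + 1 := lt_of_le_of_lt hx (lt_add_one x)
    exact h6.ne' h5
  · rintro ⟨x, hx⟩ ⟨y, hy⟩ h
    have h5 : x + 1 = y + 1 := congrArg Subtype.val h
    exact Subtype.ext (add_right_cancel h5)
  · rintro ⟨x, hx⟩ h
    have h5 : x ≠ 0 := fun h6 => h (Subtype.ext h6)
    have h6 : 1 ≤ x := hM.disc x (lt_of_le_of_ne hx (Ne.symm h5))
    exact ⟨⟨x - 1, sub_nonneg.2 h6⟩, Subtype.ext (sub_add_cancel x 1).symm⟩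
  · rintro ⟨x, hx⟩
    exact Subtype.ext (add_zero x)
  · rintro ⟨x, hx⟩ ⟨y, hy⟩
    exact Subtype.ext (add_assoc x y 1).symm
  · rintro ⟨x, hx⟩
    exact Subtype.ext (mul_zero x)
  · rintro ⟨x, hx⟩ ⟨y, hy⟩
    exact Subtype.ext (by
      change x * (y + 1) = x * y + x
      ring)
  · rintro ⟨x, hx⟩ ⟨y, hy⟩
    constructor
    · intro h
      exact ⟨⟨y - x, sub_nonneg.2 h⟩, Subtype.ext (sub_add_cancel y x)⟩
    · rintro ⟨⟨w, hw⟩, h⟩
      have h5 : w + x = y := congrArg Subtype.val h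
      change x ≤ y
      rw [← h5]
      exact le_add_of_nonneg_left hw

end OIF
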