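import Pool.Agent.OIF.St

/-!
# Module PHI: the substitution
-/

set_option autoImplicit false

namespace OIF

open OID OIE

namespace PHI

theorem point {σ : Type} {a p : MvPolynomial σ ℚ} (h : IsRelPrime a p) :
    ∃ s₀ : σ → ℚ, ¬ (MvPolynomial.aeval s₀ a = 0 ∧ MvPolynomial.aeval s₀ p = 0) := by
  by_contra hc
  have h1 : ∀ s : σ → ℚ, MvPolynomial.aeval s a = 0 ∧ MvPolynomial.aeval s p = 0 :=
    fun s => by_contra fun h => hc ⟨s, h⟩
  have ha : a = 0 := MvPolynomial.funext fun s => by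
    rw [map_zero]
    exact (h1 s).1
  have hp : p = 0 := MvPolynomial.funext fun s => by
    rw [map_zero]
    exact (h1 s).2
  subst ha hp
  exact not_isUnit_zero (h (dvd_zero 0) (dvd_zero 0))

theorem cc_ne {σ : Type} {a p : MvPolynomial σ ℚ} {c : MvPolynomial (σ ⊕ σ) ℚ} (hc : LnC a p c)
    (s : σ → MvPolynomial (Option σ) ℚ)
    (hs : IsCoprime (MvPolynomial.aeval s a) (MvPolynomial.aeval s p)) : cc c s ≠ 0 := by
  obtain ⟨ev, hev⟩ : ∃ ev : MvPolynomial (Option σ) ℚ →ₐ[ℚ] ℚ,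
    ev = MvPolynomial.aeval fun _ => 0 := ⟨_, rfl⟩
  have h1 : ¬ (MvPolynomial.aeval (fun j => ev (s j)) a = 0 ∧
      MvPolynomial.aeval (fun j => ev (s j)) p = 0) := by
    rintro ⟨ha, hp⟩
    obtain ⟨u, v, huv⟩ := hs
    have h2 := congrArg ev huv
    rw [map_add, map_mul, map_mul, map_one, MvPolynomial.comp_aeval_apply,
      MvPolynomial.comp_aeval_apply, ha, hp, mul_zero, mul_zero, add_zero] at h2
    exact zero_ne_one h2
  have h2 := hc.ne ℚ (fun j => ev (s j)) h1
  intro h0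
  apply h2
  obtain ⟨W, hW⟩ : ∃ W : MvPolynomial (Option σ) (MvPolynomial (Option σ) ℚ) →ₐ[ℚ]
      MvPolynomial σ ℚ, W = (MvPolynomial.aeval (fun o : Option σ =>
        (o.elim 0 MvPolynomial.X : MvPolynomial σ ℚ))).comp (MvPolynomial.mapAlgHom ev) := ⟨_, rfl⟩
  have h3 : W (cc c s) = (MvPolynomial.aeval (Sum.elim (fun j => MvPolynomial.C (ev (s j)))
      MvPolynomial.X) c : MvPolynomial σ ℚ) := by
    unfold cc
    rw [MvPolynomial.comp_aeval_apply]
    congr 1
    congr 1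
    funext k
    rcases k with i | i
    · rw [hW]
      simp
    · rw [hW]
      simp
  rw [← h3, h0, map_zero]

theorem eval_symm {σ K : Type} [Field K] [Algebra ℚ K] (x y : Option σ → K)
    (q : MvPolynomial (Option σ) (MvPolynomial (Option σ) ℚ)) :
    MvPolynomial.aeval (Sum.elim y x)
      ((MvPolynomial.sumAlgEquiv ℚ (Option σ) (Option σ)).symm q) =
      MvPolynomial.eval₂ (MvPolynomial.aeval x :
        MvPolynomial (Option σ) ℚ →ₐ[ℚ] K).toRingHom y q := by
  induction q using MvPolynomial.induction_on with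
  | C r =>
    rw [MvPolynomial.eval₂_C]
    induction r using MvPolynomial.induction_on with
    | C r => simp
    | add p q hp hq =>
      rw [map_add, map_add, map_add, hp, hq]
      simp
    | mul_X p n hp =>
      rw [map_mul, map_mul, map_mul, hp]
      simp
  | add p q hp hq => rw [map_add, map_add, hp, hq, MvPolynomial.eval₂_add]
  | mul_X p n hp =>
    rw [map_mul, map_mul, hp, MvPolynomial.eval₂_mul, MvPolynomial.eval₂_X]
    simp

end PHI

open PHI in
theorem t_PHI : M_PHI := by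
  intro hLN hSTA hSTB hSTI hSTC hSTD σ _ a p hap
  obtain ⟨c, hc⟩ := hLN σ a p hap
  obtain ⟨s₀, hs₀⟩ := point hap
  have hco0 : IsCoprime (MvPolynomial.aeval s₀ a) (MvPolynomial.aeval s₀ p) := by
    by_cases h : MvPolynomial.aeval s₀ a = 0
    · have h' : MvPolynomial.aeval s₀ p ≠ 0 := fun h' => hs₀ ⟨h, h'⟩
      exact ⟨0, (MvPolynomial.aeval s₀ p)⁻¹, by
        rw [zero_mul, zero_add, inv_mul_cancel₀ h']⟩
    · exact ⟨(MvPolynomial.aeval s₀ a)⁻¹, 0, by
        rw [zero_mul, add_zero, inv_mul_cancel₀ h]⟩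
  have hco1 := hSTA σ a p c hc ℚ s₀ hco0
  have hinj1 := hSTI σ a p c hc s₀ hs₀
  obtain ⟨s₁, hs₁⟩ : ∃ s₁ : σ → MvPolynomial (Option σ) ℚ, s₁ = stp c s₀ := ⟨_, rfl⟩
  rw [← hs₁] at hco1 hinj1
  have hco2 := hSTA σ a p c hc (MvPolynomial (Option σ) ℚ) s₁ hco1
  have hccne := cc_ne hc s₁ hco1
  have hC := hSTC σ a p c hc (MvPolynomial (Option σ) ℚ) s₁ hco1 hinj1
  have hinj2 : Function.Injective (MvPolynomial.aeval (R := ℚ) (stp c s₁)) := by
    rw [injective_iff_map_eq_zero]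
    intro φ hφ
    exact hC (MvPolynomial.X none) MvPolynomial.X_prime (Dvd.intro _ rfl) φ
      (by rw [hφ]; exact dvd_zero _)
  obtain ⟨e, he⟩ : ∃ e : MvPolynomial (Option σ ⊕ Option σ) ℚ ≃ₐ[ℚ]
    MvPolynomial (Option σ) (MvPolynomial (Option σ) ℚ),
      e = MvPolynomial.sumAlgEquiv ℚ (Option σ) (Option σ) := ⟨_, rfl⟩
  refine ⟨Option σ ⊕ Option σ, inferInstance,
    (e.symm.toAlgHom).comp (MvPolynomial.aeval (stp c s₁)), ?_, ?_, ?_, ?_⟩
  · exact e.symm.injective.comp hinj2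
  · intro π hπ
    have hπ' : Prime (e π) := (MulEquiv.prime_iff e.toMulEquiv).2 hπ
    have key : Ideal.comap (((e.symm.toAlgHom).comp (MvPolynomial.aeval (stp c s₁)) :
        MvPolynomial σ ℚ →ₐ[ℚ] MvPolynomial (Option σ ⊕ Option σ) ℚ) :
        MvPolynomial σ ℚ →+* MvPolynomial (Option σ ⊕ Option σ) ℚ) (Ideal.span {π}) =
        Ideal.comap (MvPolynomial.aeval (R := ℚ) (stp c s₁)).toRingHom (Ideal.span {e π}) := by
      ext φ
      rw [Ideal.mem_comap, Ideal.mem_comap, Ideal.mem_span_singleton, Ideal.mem_span_singleton]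
      show π ∣ e.symm (MvPolynomial.aeval (stp c s₁) φ) ↔ e π ∣ MvPolynomial.aeval (stp c s₁) φ
      constructor
      · intro h
        have h1 := map_dvd e h
        rwa [AlgEquiv.apply_symm_apply] at h1
      · intro h
        have h1 := map_dvd e.symm h
        rwa [AlgEquiv.symm_apply_apply] at h1
    rw [key]
    by_cases h : e π ∣ MvPolynomial.X none * cc c s₁
    · have h0 : Ideal.comap (MvPolynomial.aeval (R := ℚ) (stp c s₁)).toRingHom
          (Ideal.span {e π}) = ⊥ := by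
        rw [eq_bot_iff]
        intro φ hφ
        rw [Ideal.mem_comap, Ideal.mem_span_singleton] at hφ
        exact hC _ hπ' h φ hφ
      rw [h0]
      exact ⟨⟨0, by simp⟩⟩
    · exact hSTD σ c _ s₁ hccne (e π) hπ' h
  · exact hco2.map (e.symm.toAlgHom : MvPolynomial (Option σ) (MvPolynomial (Option σ) ℚ) →+*
      MvPolynomial (Option σ ⊕ Option σ) ℚ)
  · intro K _ _ t ht
    obtain ⟨x, y, hxy⟩ := hSTB σ a p c hc s₀ hs₀ K t ht
    refine ⟨Sum.elim y x, fun φ => ?_⟩
    have h1 : (MvPolynomial.aeval (Sum.elim y x)).comp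
        ((e.symm.toAlgHom).comp (MvPolynomial.aeval (stp c s₁))) =
        (MvPolynomial.aeval t : MvPolynomial σ ℚ →ₐ[ℚ] K) := by
      refine MvPolynomial.algHom_ext fun j => ?_
      show MvPolynomial.aeval (Sum.elim y x) (e.symm (MvPolynomial.aeval (stp c s₁)
        (MvPolynomial.X j))) = _
      rw [MvPolynomial.aeval_X, MvPolynomial.aeval_X, he, eval_symm, hs₁]
      exact hxy j
    exact DFunLike.congr_fun h1 φ

end OIF
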