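import Pool.Agent.OIF.St

/-!
# Polynomial rings in one variable
-/

set_option autoImplicit false

namespace OIF

open Polynomial

namespace PR

/-- A nonzero constant is not divisible by a polynomial of positive degree. -/
theorem not_dvd_C {S : Type} [CommRing S] [IsDomain S] (p : S[X]) (hp : p.natDegree ≠ 0) (c : S)
    (hc : c ≠ 0) : ¬ p ∣ C c := by
  intro h
  have h1 := natDegree_le_of_dvd h (C_ne_zero.2 hc)
  rw [natDegree_C] at h1
  omega

end PR

open PR in
/-- **PR** -/
theorem t_PR : S_PR := by
  intro A S _ _ _ _ _ ι hι hc π hπ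
  have hP : (Ideal.span {π}).IsPrime := (Ideal.span_singleton_prime hπ.ne_zero).2 hπ
  have hmem : ∀ f : A[X], f ∈ Ideal.comap (mapRingHom ι) (Ideal.span {π}) ↔ π ∣ f.map ι := by
    intro f
    rw [Ideal.mem_comap, Ideal.mem_span_singleton, coe_mapRingHom]
  by_cases hd : π.natDegree = 0
  · -- `π` is constant
    obtain ⟨ρ, rfl⟩ : ∃ ρ, π = C ρ := ⟨π.coeff 0, eq_C_of_natDegree_eq_zero hd⟩
    have hρ : Prime ρ := prime_C_iff.1 hπ
    obtain ⟨q, hq⟩ := hc ρ hρ
    have hq1 : ∀ a : A, ρ ∣ ι a ↔ q ∣ a := by
      intro a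
      have h1 : a ∈ Ideal.comap ι (Ideal.span {ρ}) ↔ a ∈ Ideal.span {q} := by rw [hq]
      rwa [Ideal.mem_comap, Ideal.mem_span_singleton, Ideal.mem_span_singleton] at h1
    refine ⟨C q, ?_⟩
    ext f
    rw [hmem, Ideal.submodule_span_eq, Ideal.mem_span_singleton, C_dvd_iff_dvd_coeff,
      C_dvd_iff_dvd_coeff]
    exact forall_congr' fun i => by rw [coeff_map, hq1]
  · -- `π` has positive degree
    have hJ : (Ideal.comap (mapRingHom ι) (Ideal.span {π})).IsPrime := Ideal.comap_isPrime _ _
    by_cases h0 : Ideal.comap (mapRingHom ι) (Ideal.span {π}) = ⊥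
    · rw [h0]
      exact bot_isPrincipal
    obtain ⟨g, hgJ, hg⟩ := Ideal.IsPrime.exists_mem_prime_of_ne_bot hJ h0
    have hC : ∀ c : A, c ≠ 0 → C c ∉ Ideal.comap (mapRingHom ι) (Ideal.span {π}) := by
      intro c hc0 h
      rw [hmem, map_C] at h
      exact not_dvd_C π hd (ι c) ((map_ne_zero_iff ι hι).2 hc0) h
    have hgd : g.natDegree ≠ 0 := by
      intro h
      rw [eq_C_of_natDegree_eq_zero h] at hgJ
      apply hC _ _ hgJ
      intro h1
      apply hg.ne_zero
      rw [eq_C_of_natDegree_eq_zero h, h1, C_0]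
    have hgp : g.IsPrimitive := hg.irreducible.isPrimitive hgd
    have hgK : Irreducible (g.map (algebraMap A (FractionRing A))) :=
      (hgp.irreducible_iff_irreducible_map_fraction_map (K := FractionRing A)).1 hg.irreducible
    refine ⟨g, le_antisymm ?_ ?_⟩
    · intro h hh
      rw [Ideal.submodule_span_eq, Ideal.mem_span_singleton]
      by_contra hcon
      have h1 : ¬ g.map (algebraMap A (FractionRing A)) ∣ h.map (algebraMap A (FractionRing A)) :=
        fun h2 => hcon (hgp.dvd_of_fraction_map_dvd_fraction_map h2)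
      obtain ⟨u, v, huv⟩ := (hgK.coprime_iff_not_dvd).2 h1
      obtain ⟨b, hb, hu⟩ := IsLocalization.integerNormalization_spec (nonZeroDivisors A) u
      obtain ⟨c, hc1, hv⟩ := IsLocalization.integerNormalization_spec (nonZeroDivisors A) v
      set u' := IsLocalization.integerNormalization (nonZeroDivisors A) u with hu'
      set v' := IsLocalization.integerNormalization (nonZeroDivisors A) v with hv'
      have h3 : C c * u' * g + C b * v' * h = C (b * c) := by
        apply map_injective (algebraMap A (FractionRing A)) (IsFractionRing.injective _ _)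
        rw [Polynomial.map_add, Polynomial.map_mul, Polynomial.map_mul, Polynomial.map_mul,
          Polynomial.map_mul, hu, hv, map_C, map_C, map_C, map_mul, C_mul, Algebra.smul_def,
          Algebra.smul_def, Polynomial.algebraMap_apply, Polynomial.algebraMap_apply]
        linear_combination (C (algebraMap A (FractionRing A) b) *
          C (algebraMap A (FractionRing A) c)) * huv
      apply hC (b * c) (mul_ne_zero (nonZeroDivisors.ne_zero hb) (nonZeroDivisors.ne_zero hc1))
      rw [← h3]
      exact Ideal.add_mem _ (Ideal.mul_mem_left _ _ hgJ) (Ideal.mul_mem_left _ _ hh)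
    · rw [Ideal.submodule_span_eq, Ideal.span_singleton_le_iff_mem]
      exact hgJ

end OIF
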