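import Pool.Agent.OIF.St

/-!
# PRM: inverse images of prime ideals in polynomial rings in finitely many variables
-/

set_option autoImplicit false

namespace OIF

open Polynomial

namespace PRM

/-- `Cop` is preserved by isomorphisms. -/
theorem cop_congr {A R A' R' : Type} [CommRing A] [CommRing R] [CommRing A'] [CommRing R']
    (e₁ : A ≃+* A') (e₂ : R ≃+* R') (i : A →+* R) (i' : A' →+* R')
    (h : ∀ x, i' (e₁ x) = e₂ (i x)) (hi : Cop i) : Cop i' := by
  intro π' hπ'
  have hπ : Prime (e₂.symm π') := (MulEquiv.prime_iff e₂.symm.toMulEquiv).2 hπ'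
  obtain ⟨g, hg⟩ := (hi _ hπ).principal
  refine ⟨⟨e₁ g, ?_⟩⟩
  ext x
  have h1 : x = e₁ (e₁.symm x) := (e₁.apply_symm_apply x).symm
  have h2 : e₁.symm x ∈ Ideal.comap i (Ideal.span {e₂.symm π'}) ↔ g ∣ e₁.symm x := by
    rw [hg]
    exact Ideal.mem_span_singleton
  rw [Ideal.mem_comap, Ideal.mem_span_singleton] at h2 ⊢
  rw [← Ideal.span, Ideal.mem_span_singleton]
  constructor
  · intro h3
    have h4 : e₂.symm π' ∣ i (e₁.symm x) := by
      have h5 := map_dvd e₂.symm h3
      rw [h1, h, e₂.symm_apply_apply] at h5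
      exact h5
    have h6 := map_dvd e₁ (h2.1 h4)
    rwa [e₁.apply_symm_apply] at h6
  · intro h3
    have h4 : g ∣ e₁.symm x := by
      have h5 := map_dvd e₁.symm h3
      rwa [e₁.symm_apply_apply] at h5
    have h6 := map_dvd e₂ (h2.2 h4)
    rw [e₂.apply_symm_apply, ← h, e₁.apply_symm_apply] at h6
    exact h6

end PRM

/-- PRM -/
theorem t_PRM : M_PRM := by
  intro hPR σ A S _ _ _ _ _ _ ι hι hC
  revert A S
  refine Finite.induction_empty_option (P := fun σ => ∀ (A S : Type) [CommRing A] [IsDomain A]
    [UniqueFactorizationMonoid A] [CommRing S] [IsDomain S] (ι : A →+* S), Function.Injective ι →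
    Cop ι → Cop (MvPolynomial.map (σ := σ) ι)) ?_ ?_ ?_ σ
  · intro α β e ih A S _ _ _ _ _ ι hι hC
    refine PRM.cop_congr (MvPolynomial.renameEquiv A e).toRingEquiv
      (MvPolynomial.renameEquiv S e).toRingEquiv _ _ ?_ (ih A S ι hι hC)
    intro x
    exact MvPolynomial.map_rename ι e x
  · intro A S _ _ _ _ _ ι hι hC
    refine PRM.cop_congr (MvPolynomial.isEmptyRingEquiv A PEmpty).symm
      (MvPolynomial.isEmptyRingEquiv S PEmpty).symm ι _ ?_ hC
    intro x
    exact MvPolynomial.map_C ι x
  · intro α _ ih A S _ _ _ _ _ ι hι hC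
    refine PRM.cop_congr (MvPolynomial.optionEquivLeft A α).symm.toRingEquiv
      (MvPolynomial.optionEquivLeft S α).symm.toRingEquiv
      (Polynomial.mapRingHom (MvPolynomial.map (σ := α) ι)) _ ?_
      (hPR (MvPolynomial α A) (MvPolynomial α S) _ (MvPolynomial.map_injective ι hι)
        (ih A S ι hι hC))
    intro x
    have key : ∀ y : MvPolynomial (Option α) A,
        MvPolynomial.optionEquivLeft S α (MvPolynomial.map ι y) =
          Polynomial.mapRingHom (MvPolynomial.map (σ := α) ι)
            (MvPolynomial.optionEquivLeft A α y) := by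
      intro y
      induction y using MvPolynomial.induction_on with
      | C a => simp [MvPolynomial.optionEquivLeft_C]
      | add p q hp hq => rw [map_add, map_add, hp, hq, map_add, map_add]
      | mul_X p n hp =>
        rw [map_mul, map_mul, hp, map_mul, map_mul, MvPolynomial.map_X]
        cases n with
        | none => simp [MvPolynomial.optionEquivLeft_X_none]
        | some n => simp [MvPolynomial.optionEquivLeft_X_some]
    apply (MvPolynomial.optionEquivLeft S α).injective
    show MvPolynomial.optionEquivLeft S α (MvPolynomial.map ι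
      ((MvPolynomial.optionEquivLeft A α).symm x)) = MvPolynomial.optionEquivLeft S α
        ((MvPolynomial.optionEquivLeft S α).symm
          (Polynomial.mapRingHom (MvPolynomial.map (σ := α) ι) x))
    rw [key, AlgEquiv.apply_symm_apply, AlgEquiv.apply_symm_apply]

end OIF
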