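import Pool.Agent.OIF.St

/-!
# Project OIF, module RAD: radicals
-/

set_option autoImplicit false

namespace OIF

namespace RAD

open MvPolynomial

variable {σ : Type}

/-- Existence of the radical. -/
theorem exists_radical (H : MvPolynomial σ ℚ) : H ≠ 0 → ∃ G : MvPolynomial σ ℚ, G ≠ 0 ∧
    (∀ ρ, Prime ρ → (ρ ∣ G ↔ ρ ∣ H)) ∧ ∀ ρ, Prime ρ → ¬ ρ * ρ ∣ G := by
  induction H using UniqueFactorizationMonoid.induction_on_prime with
  | h₁ => intro h; exact absurd rfl h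
  | h₂ u hu =>
    intro _
    refine ⟨1, one_ne_zero, fun ρ hρ => ⟨fun h => ?_, fun h => ?_⟩, fun ρ hρ h => ?_⟩
    · exact absurd (isUnit_of_dvd_one h) hρ.not_isUnit
    · exact absurd (isUnit_of_dvd_unit h hu) hρ.not_isUnit
    · exact hρ.not_isUnit (isUnit_of_dvd_one ((dvd_mul_right ρ ρ).trans h))
  | h₃ a p ha hp ih =>
    intro _
    obtain ⟨G, hG, h1, h2⟩ := ih ha
    by_cases hpG : p ∣ G
    · refine ⟨G, hG, fun ρ hρ => ⟨fun h => ((h1 ρ hρ).1 h).mul_left p, fun h => ?_⟩, h2⟩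
      rcases hρ.dvd_or_dvd h with h | h
      · exact h.trans hpG
      · exact (h1 ρ hρ).2 h
    · refine ⟨p * G, mul_ne_zero hp.ne_zero hG, fun ρ hρ => ⟨fun h => ?_, fun h => ?_⟩,
        fun ρ hρ h => ?_⟩
      · rcases hρ.dvd_or_dvd h with h | h
        · exact h.mul_right a
        · exact ((h1 ρ hρ).1 h).mul_left p
      · rcases hρ.dvd_or_dvd h with h | h
        · exact h.mul_right G
        · exact ((h1 ρ hρ).2 h).mul_left p
      · by_cases hρp : ρ ∣ p
        · have hpρ : p ∣ ρ := (hρ.associated_of_dvd hp hρp).symm.dvd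
          have h3 : ρ * ρ ∣ ρ * G := h.trans (mul_dvd_mul_right hpρ G)
          have h4 : ρ ∣ G := (mul_dvd_mul_iff_left hρ.ne_zero).1 h3
          exact hpG (hpρ.trans h4)
        · have h3 : ρ ∣ G := (hρ.dvd_or_dvd ((dvd_mul_right ρ ρ).trans h)).resolve_left hρp
          obtain ⟨b, rfl⟩ := h3
          have h4 : ρ * ρ ∣ ρ * (p * b) := by
            rwa [show ρ * (p * b) = p * (ρ * b) by ring]
          have h5 : ρ ∣ p * b := (mul_dvd_mul_iff_left hρ.ne_zero).1 h4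
          have h6 : ρ ∣ b := (hρ.dvd_or_dvd h5).resolve_left hρp
          exact h2 ρ hρ (mul_dvd_mul_left ρ h6)

/-- `tau G φ - rename inl φ` is divisible by `rename inl G`. -/
theorem tau_sub (G φ : MvPolynomial σ ℚ) : rename Sum.inl G ∣ tau G φ - rename Sum.inl φ := by
  have h : ((Ideal.Quotient.mkₐ ℚ (Ideal.span {(rename Sum.inl G : MvPolynomial (σ ⊕ σ) ℚ)})).comp
      (tau G)) = (Ideal.Quotient.mkₐ ℚ (Ideal.span {rename Sum.inl G})).comp (rename Sum.inl) := by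
    apply MvPolynomial.algHom_ext
    intro j
    simp only [AlgHom.comp_apply, tau, aeval_X, rename_X, map_add, map_mul]
    have h0 : Ideal.Quotient.mkₐ ℚ (Ideal.span {(rename Sum.inl G : MvPolynomial (σ ⊕ σ) ℚ)})
        (rename Sum.inl G) = 0 :=
      Ideal.Quotient.eq_zero_iff_mem.2 (Ideal.mem_span_singleton_self _)
    rw [h0, zero_mul, add_zero]
  have h1 := AlgHom.congr_fun h φ
  exact Ideal.mem_span_singleton.1 (Ideal.Quotient.eq.1 h1)

/-- If all prime factors of `φ` divide `G` then `rename inl φ` divides `tau G φ`. -/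
theorem dvd_tau (G φ : MvPolynomial σ ℚ) : (∀ ρ, Prime ρ → ρ ∣ φ → ρ ∣ G) →
    rename Sum.inl φ ∣ tau G φ := by
  induction φ using UniqueFactorizationMonoid.induction_on_prime with
  | h₁ => intro _; simp
  | h₂ u hu => intro _; exact (hu.map (rename Sum.inl : _ →ₐ[ℚ] MvPolynomial (σ ⊕ σ) ℚ)).dvd
  | h₃ a p ha hp ih =>
    intro h
    rw [map_mul, map_mul]
    refine mul_dvd_mul ?_ (ih fun ρ hρ h1 => h ρ hρ (h1.mul_left p))
    have h1 : p ∣ G := h p hp (dvd_mul_right p a)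
    have h2 : (rename Sum.inl p : MvPolynomial (σ ⊕ σ) ℚ) ∣ tau G p - rename Sum.inl p :=
      (map_dvd (rename Sum.inl : _ →ₐ[ℚ] MvPolynomial (σ ⊕ σ) ℚ) h1).trans (tau_sub G p)
    have h3 := dvd_add h2 (dvd_refl (rename Sum.inl p : MvPolynomial (σ ⊕ σ) ℚ))
    rwa [sub_add_cancel] at h3

end RAD

/-- RAD. -/
theorem t_RAD : S_RAD := by
  intro σ H hH
  obtain ⟨G, hG, h1, h2⟩ := RAD.exists_radical H hH
  obtain ⟨Z, hZ⟩ := RAD.dvd_tau G H fun ρ hρ h => (h1 ρ hρ).2 h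
  exact ⟨G, Z, hG, h1, h2, hZ⟩

end OIF
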