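import Pool.Agent.OIF.St

/-!
# OIF, module STA: one step preserves comaximality
-/

set_option autoImplicit false

namespace OIF

namespace STA

variable {σ B : Type} [CommRing B] [Algebra ℚ B]

/-- Modulo `cc c s` the point `stp c s` is `C ∘ s`. -/
theorem congr (c : MvPolynomial (σ ⊕ σ) ℚ) (s : σ → B) (φ : MvPolynomial σ ℚ) :
    cc c s ∣ MvPolynomial.aeval (stp c s) φ - MvPolynomial.C (MvPolynomial.aeval s φ) := by
  induction φ using MvPolynomial.induction_on with
  | C r =>
    have h1 : MvPolynomial.aeval (stp c s) (MvPolynomial.C r) =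
        MvPolynomial.C (MvPolynomial.aeval s (MvPolynomial.C (σ := σ) r)) := by
      rw [MvPolynomial.aeval_C, MvPolynomial.aeval_C, MvPolynomial.algebraMap_apply]
    rw [h1, sub_self]
    exact dvd_zero _
  | add p q hp hq =>
    rw [map_add, map_add, map_add, add_sub_add_comm]
    exact dvd_add hp hq
  | mul_X p j hp =>
    have h2 : stp c s j - MvPolynomial.C (s j) =
        cc c s * (MvPolynomial.X none * MvPolynomial.X (some j)) := by
      rw [stp]
      ring
    have h3 : MvPolynomial.aeval (stp c s) p * stp c s j -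
        MvPolynomial.C (MvPolynomial.aeval s p) * MvPolynomial.C (s j) =
        (MvPolynomial.aeval (stp c s) p - MvPolynomial.C (MvPolynomial.aeval s p)) * stp c s j +
        MvPolynomial.C (MvPolynomial.aeval s p) * (stp c s j - MvPolynomial.C (s j)) := by
      ring
    rw [map_mul, map_mul, map_mul, MvPolynomial.aeval_X, MvPolynomial.aeval_X, h3]
    exact dvd_add (hp.mul_right _) ((Dvd.intro _ h2.symm).mul_left _)

end STA

theorem t_STA : S_STA := by
  intro σ a p c hc B _ _ s hs
  have hm : cc c s ∈ Ideal.span {MvPolynomial.aeval (stp c s) a,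
      MvPolynomial.aeval (stp c s) p} :=
    hc.mem (MvPolynomial (Option σ) B) (fun j => MvPolynomial.C (s j))
      (fun j => MvPolynomial.X (some j)) (MvPolynomial.X none * cc c s)
  have hC : ∀ φ : MvPolynomial σ ℚ, MvPolynomial.aeval (stp c s) φ ∈
      Ideal.span {MvPolynomial.aeval (stp c s) a, MvPolynomial.aeval (stp c s) p} →
      MvPolynomial.C (MvPolynomial.aeval s φ) ∈
      Ideal.span {MvPolynomial.aeval (stp c s) a, MvPolynomial.aeval (stp c s) p} := by
    intro φ hφ
    have h1 := Ideal.mem_of_dvd _ (STA.congr c s φ) hm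
    have h2 := Ideal.sub_mem _ hφ h1
    rwa [sub_sub_cancel] at h2
  have ha := hC a (Ideal.subset_span (Set.mem_insert _ _))
  have hp := hC p (Ideal.subset_span (Set.mem_insert_of_mem _ (Set.mem_singleton _)))
  obtain ⟨u, v, huv⟩ := hs
  have h1 : (1 : MvPolynomial (Option σ) B) ∈
      Ideal.span {MvPolynomial.aeval (stp c s) a, MvPolynomial.aeval (stp c s) p} := by
    have h3 := Ideal.add_mem _ (Ideal.mul_mem_left _ (MvPolynomial.C u) ha)
      (Ideal.mul_mem_left _ (MvPolynomial.C v) hp)
    rwa [← map_mul, ← map_mul, ← map_add, huv, map_one] at h3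
  exact Ideal.mem_span_pair.1 h1

end OIF
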