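import Pool.Agent.OIF.St

/-!
# Lifting of points
-/

set_option autoImplicit false

namespace OIF

open Polynomial OID OIE

namespace STB

theorem ev {τ S K : Type} [CommRing S] [Algebra ℚ S] [CommRing K] [Algebra ℚ K] (g : S →+* K)
    (v : τ → S) (c : MvPolynomial τ ℚ) :
    g (MvPolynomial.aeval v c) = MvPolynomial.aeval (fun i => g (v i)) c := by
  have h := MvPolynomial.comp_aeval_apply v g.toRatAlgHom c
  exact h

theorem ev_stp {σ B K : Type} [CommRing B] [Algebra ℚ B] [CommRing K] [Algebra ℚ K]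
    (c : MvPolynomial (σ ⊕ σ) ℚ) (s : σ → B) (f : B →+* K) (y : Option σ → K) (j : σ) :
    MvPolynomial.eval₂ f y (stp c s j) =
      f (s j) + y none * MvPolynomial.aeval (Sum.elim (fun i => f (s i)) (fun i => y (some i))) c *
        y (some j) := by
  have h1 : MvPolynomial.eval₂Hom f y (cc c s) =
      MvPolynomial.aeval (Sum.elim (fun i => f (s i)) (fun i => y (some i))) c := by
    rw [cc, ev]
    congr 2
    funext i
    rcases i with i | i
    · simp
    · simp
  show MvPolynomial.eval₂Hom f y (stp c s j) = _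
  rw [stp, map_add, map_mul, map_mul, h1]
  simp

end STB

open STB in
theorem t_STB : S_STB := by
  intro σ a p c hc s₀ hs₀ K _ _ t ht
  have hK : CharZero K := algebraRat.charZero K
  have hinf : Infinite K := CharZero.infinite K
  -- the first polynomial
  have hne1 := hc.ne K t ht
  have hs₀' : ¬ (MvPolynomial.aeval (fun j => algebraMap ℚ K (s₀ j)) a = 0 ∧
      MvPolynomial.aeval (fun j => algebraMap ℚ K (s₀ j)) p = 0) := by
    have e : ∀ φ : MvPolynomial σ ℚ, MvPolynomial.aeval (fun j => algebraMap ℚ K (s₀ j)) φ =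
        algebraMap ℚ K (MvPolynomial.aeval s₀ φ) := fun φ => (ev (algebraMap ℚ K) s₀ φ).symm
    rw [e, e]
    rintro ⟨h1, h2⟩
    exact hs₀ ⟨(map_eq_zero_iff _ (algebraMap ℚ K).injective).1 h1,
      (map_eq_zero_iff _ (algebraMap ℚ K).injective).1 h2⟩
  have hne2 := hc.ne K (fun j => algebraMap ℚ K (s₀ j)) hs₀'
  obtain ⟨Q1, hQ1⟩ : ∃ Q1 : MvPolynomial σ K, Q1 =
      MvPolynomial.aeval (Sum.elim (fun j => MvPolynomial.C (t j)) MvPolynomial.X) c := ⟨_, rfl⟩
  obtain ⟨Q2, hQ2⟩ : ∃ Q2 : MvPolynomial σ K, Q2 =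
      MvPolynomial.aeval (Sum.elim (fun j => MvPolynomial.C (algebraMap ℚ K (s₀ j)))
        MvPolynomial.X) c := ⟨_, rfl⟩
  rw [← hQ1] at hne1
  rw [← hQ2] at hne2
  obtain ⟨sub, hsub⟩ : ∃ sub : MvPolynomial σ K →ₐ[K] MvPolynomial σ K, sub =
      MvPolynomial.aeval (fun j => MvPolynomial.C (t j - algebraMap ℚ K (s₀ j)) -
        MvPolynomial.X j) := ⟨_, rfl⟩
  have hinv : ∀ q, sub (sub q) = q := by
    intro q
    have h : sub.comp sub = AlgHom.id K _ := by
      refine MvPolynomial.algHom_ext fun j => ?_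
      rw [AlgHom.comp_apply, hsub, MvPolynomial.aeval_X, map_sub, MvPolynomial.aeval_X,
        MvPolynomial.algHom_C, MvPolynomial.algebraMap_eq]
      simp
    exact DFunLike.congr_fun h q
  have hne3 : sub Q2 ≠ 0 := fun h => hne2 (by rw [← hinv Q2, h, map_zero])
  obtain ⟨δ, hδ⟩ : ∃ δ : σ → K, MvPolynomial.eval δ (Q1 * sub Q2) ≠ 0 := by
    by_contra hcon
    push Not at hcon
    exact mul_ne_zero hne1 hne3 (MvPolynomial.funext fun x => by rw [hcon x, map_zero])
  rw [map_mul] at hδ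
  have h1 : MvPolynomial.aeval (Sum.elim t δ) c ≠ 0 := by
    have e : MvPolynomial.eval δ Q1 = MvPolynomial.aeval (Sum.elim t δ) c := by
      rw [hQ1, ev]
      congr 2
      funext i
      rcases i with i | i <;> simp
    rw [← e]
    exact left_ne_zero_of_mul hδ
  have h2 : MvPolynomial.aeval (Sum.elim (fun j => algebraMap ℚ K (s₀ j))
      (fun j => t j - δ j - algebraMap ℚ K (s₀ j))) c ≠ 0 := by
    have e : MvPolynomial.eval δ (sub Q2) = MvPolynomial.aeval
        (Sum.elim (fun j => algebraMap ℚ K (s₀ j))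
          (fun j => t j - δ j - algebraMap ℚ K (s₀ j))) c := by
      have e2 : ∀ q, MvPolynomial.eval δ (sub q) =
          MvPolynomial.eval (fun j => t j - δ j - algebraMap ℚ K (s₀ j)) q := by
        intro q
        induction q using MvPolynomial.induction_on with
        | C a => rw [hsub, MvPolynomial.algHom_C, MvPolynomial.algebraMap_eq,
            MvPolynomial.eval_C, MvPolynomial.eval_C]
        | add p q hp hq => rw [map_add, map_add, map_add, hp, hq]
        | mul_X p i hp =>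
          rw [map_mul, map_mul, map_mul, hp, hsub, MvPolynomial.aeval_X, map_sub,
            MvPolynomial.eval_C, MvPolynomial.eval_X, MvPolynomial.eval_X]
          ring
      rw [e2, hQ2, ev]
      congr 2
      funext i
      rcases i with i | i <;> simp
    rw [← e]
    exact right_ne_zero_of_mul hδ
  obtain ⟨c₁, hc₁⟩ : ∃ c₁ : K, c₁ = MvPolynomial.aeval (Sum.elim t δ) c := ⟨_, rfl⟩
  obtain ⟨c₂, hc₂⟩ : ∃ c₂ : K, c₂ = MvPolynomial.aeval (Sum.elim (fun j => algebraMap ℚ K (s₀ j))
      (fun j => t j - δ j - algebraMap ℚ K (s₀ j))) c := ⟨_, rfl⟩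
  rw [← hc₁] at h1
  rw [← hc₂] at h2
  refine ⟨fun o => o.elim c₂⁻¹ (fun j => t j - δ j - algebraMap ℚ K (s₀ j)),
    fun o => o.elim c₁⁻¹ δ, fun j => ?_⟩
  have hu : ∀ j, (MvPolynomial.aeval (fun o : Option σ =>
      o.elim c₂⁻¹ (fun j => t j - δ j - algebraMap ℚ K (s₀ j))) :
      MvPolynomial (Option σ) ℚ →ₐ[ℚ] K).toRingHom (stp c s₀ j) = t j - δ j := by
    intro j
    have h3 := ev_stp c s₀ (algebraMap ℚ K)
      (fun o : Option σ => o.elim c₂⁻¹ (fun j => t j - δ j - algebraMap ℚ K (s₀ j))) j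
    simp only [Option.elim_none, Option.elim_some] at h3
    rw [← hc₂] at h3
    refine Eq.trans ?_ (h3.trans ?_)
    · rfl
    · rw [inv_mul_cancel₀ h2]
      ring
  rw [ev_stp, hu]
  simp only [hu, Option.elim_none, Option.elim_some]
  have h4 := hc.inv K (fun j => t j - δ j) δ 1
  have h5 : (fun j => t j - δ j + 1 * δ j) = t := by
    funext j
    ring
  rw [h5, ← hc₁] at h4
  rw [← h4, inv_mul_cancel₀ h1]
  ring

end OIF
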