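import Pool.Agent.OIF.St

/-!
# Module STC
-/

set_option autoImplicit false

namespace OIF

open Polynomial OID OIE

namespace STC

/-- Ring homomorphisms and values. -/
theorem map_aeval {σ A B : Type} [CommRing A] [Algebra ℚ A] [CommRing B] [Algebra ℚ B]
    (f : A →ₐ[ℚ] B) (x : σ → A) (y : σ → B) (h : ∀ j, f (x j) = y j) (φ : MvPolynomial σ ℚ) :
    f (MvPolynomial.aeval x φ) = MvPolynomial.aeval y φ := by
  have h1 : (f.comp (MvPolynomial.aeval x)) = (MvPolynomial.aeval y : MvPolynomial σ ℚ →ₐ[ℚ] B) := by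
    apply MvPolynomial.algHom_ext
    intro j
    simp [h j]
  exact congrArg (fun g : MvPolynomial σ ℚ →ₐ[ℚ] B => g φ) h1

/-- The value at `0`. -/
theorem eval_zero_stp {σ B : Type} [CommRing B] [Algebra ℚ B] (c : MvPolynomial (σ ⊕ σ) ℚ)
    (τ : σ → B) (φ : MvPolynomial σ ℚ) :
    MvPolynomial.aeval (fun _ : Option σ => (0 : B)) (MvPolynomial.aeval (stp c τ) φ) =
      MvPolynomial.aeval τ φ := by
  refine map_aeval ((MvPolynomial.aeval (fun _ : Option σ => (0 : B)) :
    MvPolynomial (Option σ) B →ₐ[B] B).restrictScalars ℚ) (stp c τ) τ ?_ φ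
  intro j
  simp [stp]

/-- Modulo `cc c τ`. -/
theorem cc_dvd {σ B : Type} [CommRing B] [Algebra ℚ B] (c : MvPolynomial (σ ⊕ σ) ℚ)
    (τ : σ → B) (φ : MvPolynomial σ ℚ) :
    cc c τ ∣ MvPolynomial.aeval (stp c τ) φ - MvPolynomial.C (MvPolynomial.aeval τ φ) := by
  rw [← Ideal.mem_span_singleton, ← Ideal.Quotient.mk_eq_mk_iff_sub_mem]
  have h1 := map_aeval (Ideal.Quotient.mkₐ ℚ (Ideal.span {cc c τ})) (stp c τ)
    (fun j => Ideal.Quotient.mk (Ideal.span {cc c τ}) (MvPolynomial.C (τ j))) (by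
      intro j
      rw [Ideal.Quotient.mkₐ_eq_mk, Ideal.Quotient.mk_eq_mk_iff_sub_mem,
        Ideal.mem_span_singleton]
      exact ⟨MvPolynomial.X none * MvPolynomial.X (some j), by simp only [stp]; ring⟩) φ
  have h2 := map_aeval ((Ideal.Quotient.mkₐ ℚ (Ideal.span {cc c τ})).comp
    ((Algebra.ofId B (MvPolynomial (Option σ) B)).restrictScalars ℚ)) τ
    (fun j => Ideal.Quotient.mk (Ideal.span {cc c τ}) (MvPolynomial.C (τ j))) (by
      intro j
      rfl) φ
  rw [Ideal.Quotient.mkₐ_eq_mk] at h1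
  rw [h1, ← h2]
  rfl

/-- The polynomial `cc` under a homomorphism. -/
theorem map_cc {σ B L : Type} [CommRing B] [Algebra ℚ B] [CommRing L] [Algebra ℚ L]
    (f : B →ₐ[ℚ] L) (c : MvPolynomial (σ ⊕ σ) ℚ) (τ : σ → B) :
    MvPolynomial.map (f : B →+* L) (cc c τ) = MvPolynomial.rename some
      (MvPolynomial.aeval (Sum.elim (fun j => MvPolynomial.C (f (τ j))) MvPolynomial.X) c :
        MvPolynomial σ L) := by
  have h1 := map_aeval (MvPolynomial.mapAlgHom (σ := Option σ) f)
    (Sum.elim (fun i => MvPolynomial.C (τ i)) (fun i => MvPolynomial.X (some i)))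
    (Sum.elim (fun i => MvPolynomial.C (f (τ i))) (fun i => MvPolynomial.X (some i))) (by
      rintro (j | j) <;> simp) c
  have h2 := map_aeval ((MvPolynomial.rename (R := L) (some : σ → Option σ)).restrictScalars ℚ)
    (Sum.elim (fun j => MvPolynomial.C (f (τ j))) MvPolynomial.X)
    (Sum.elim (fun i => MvPolynomial.C (f (τ i))) (fun i => MvPolynomial.X (some i))) (by
      rintro (j | j) <;> simp) c
  exact h1.trans h2.symm

/-- A divisor of a nonzero constant is constant. -/
theorem exists_C {σ B : Type} [CommRing B] [IsDomain B] (π : MvPolynomial σ B) (b : B)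
    (hb : b ≠ 0) (h : π ∣ MvPolynomial.C b) : ∃ ρ, π = MvPolynomial.C ρ := by
  obtain ⟨g, hg⟩ := h
  have hb' : (MvPolynomial.C b : MvPolynomial σ B) ≠ 0 := by
    rwa [Ne, MvPolynomial.C_eq_zero]
  have hπ : π ≠ 0 := by
    rintro rfl
    rw [zero_mul] at hg
    exact hb' hg
  have hg0 : g ≠ 0 := by
    rintro rfl
    rw [mul_zero] at hg
    exact hb' hg
  have h1 := MvPolynomial.totalDegree_mul_of_isDomain hπ hg0
  rw [← hg, MvPolynomial.totalDegree_C] at h1
  have h2 : π.totalDegree = 0 := by omega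
  exact ⟨_, MvPolynomial.totalDegree_eq_zero_iff_eq_C.1 h2⟩

end STC

open STC in
theorem t_STC : S_STC := by
  intro σ a p c hc B _ _ _ τ hcop hinj π hπ hdvd φ hφ
  rcases hπ.dvd_or_dvd hdvd with h | h
  · have hX : Prime (MvPolynomial.X none : MvPolynomial (Option σ) B) :=
      MvPolynomial.X_prime
    have hass : Associated π (MvPolynomial.X none) := hπ.associated_of_dvd hX h
    obtain ⟨g, hg⟩ := hass.symm.dvd.trans hφ
    apply hinj
    rw [map_zero, ← eval_zero_stp c τ φ, hg, map_mul]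
    simp
  · by_contra hφ0
    have hb : MvPolynomial.aeval τ φ ≠ 0 := fun h0 => hφ0 (hinj (by rw [h0, map_zero]))
    have h1 : π ∣ MvPolynomial.C (MvPolynomial.aeval τ φ) := by
      have := dvd_sub hφ (h.trans (cc_dvd c τ φ))
      rwa [sub_sub_cancel] at this
    obtain ⟨ρ, rfl⟩ := exists_C π _ hb h1
    have hρ : Prime ρ := (MvPolynomial.prime_C_iff _).1 hπ
    have : (Ideal.span {ρ}).IsPrime := (Ideal.span_singleton_prime hρ.ne_zero).2 hρ
    let L := FractionRing (B ⧸ Ideal.span {ρ})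
    let f : B →ₐ[ℚ] L :=
      (IsScalarTower.toAlgHom ℚ (B ⧸ Ideal.span {ρ}) L).comp (Ideal.Quotient.mkₐ ℚ _)
    have hfρ : f ρ = 0 := by
      have : Ideal.Quotient.mk (Ideal.span {ρ}) ρ = 0 :=
        Ideal.Quotient.eq_zero_iff_mem.2 (Ideal.mem_span_singleton_self ρ)
      simp only [f, AlgHom.comp_apply, Ideal.Quotient.mkₐ_eq_mk, this, map_zero]
    refine hc.ne L (fun j => f (τ j)) ?_ ?_
    · rintro ⟨h2, h3⟩
      obtain ⟨u, v, huv⟩ := hcop
      have h4 := congrArg f huv
      rw [map_add, map_mul, map_mul, map_aeval f τ _ (fun _ => rfl),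
        map_aeval f τ _ (fun _ => rfl), h2, h3, mul_zero, mul_zero, map_one, add_zero] at h4
      exact zero_ne_one h4
    · obtain ⟨g, hg⟩ := h
      have h5 := map_cc f c τ
      rw [hg, map_mul, MvPolynomial.map_C] at h5
      have h6 : ((f : B →+* L) ρ) = 0 := hfρ
      rw [h6, map_zero, zero_mul] at h5
      exact (MvPolynomial.rename_injective _ (Option.some_injective σ)) (by
        rw [← h5, map_zero])

end OIF
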