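import Mathlib
import Pool.Agent.OIF.St

/-!
# Module `STD`: away from the exceptional divisors
-/

set_option autoImplicit false

namespace OIF

open Polynomial OID OIE

namespace STD

/-- the homomorphism `X j ↦ X (some j)` -/
noncomputable def inc (σ B : Type) [CommRing B] [Algebra ℚ B] :
    MvPolynomial σ ℚ →ₐ[ℚ] MvPolynomial (Option σ) B :=
  MvPolynomial.aeval fun j => MvPolynomial.X (some j)

theorem inc_eq (σ B : Type) [CommRing B] [Algebra ℚ B] (φ : MvPolynomial σ ℚ) :
    MvPolynomial.optionEquivRight B σ (inc σ B φ) =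
      MvPolynomial.map ((Polynomial.C : B →+* B[X]).comp (algebraMap ℚ B)) φ := by
  induction φ using MvPolynomial.induction_on with
  | C a =>
    rw [inc, MvPolynomial.aeval_C, MvPolynomial.map_C]
    have h : algebraMap ℚ (MvPolynomial (Option σ) B) a = MvPolynomial.C (algebraMap ℚ B a) := rfl
    rw [h, MvPolynomial.optionEquivRight_C]
    rfl
  | add p q hp hq => rw [map_add, map_add, map_add, hp, hq]
  | mul_X p j hp =>
    rw [map_mul, map_mul, map_mul, hp, inc, MvPolynomial.aeval_X, MvPolynomial.map_X,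
      MvPolynomial.optionEquivRight_X_some]

theorem inc_inj (σ B : Type) [CommRing B] [IsDomain B] [Algebra ℚ B] :
    Function.Injective (inc σ B) := by
  have h : Function.Injective ((Polynomial.C : B →+* B[X]).comp (algebraMap ℚ B)) :=
    RingHom.injective _
  intro x y hxy
  apply MvPolynomial.map_injective _ h
  rw [← inc_eq, ← inc_eq, hxy]

theorem inc_cop (hPRM : S_PRM) (σ B : Type) [Finite σ] [CommRing B] [IsDomain B] [Algebra ℚ B] :
    Cop (inc σ B : MvPolynomial σ ℚ →+* MvPolynomial (Option σ) B) := by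
  intro π hπ
  have h1 := hPRM σ ℚ B[X] ((Polynomial.C : B →+* B[X]).comp (algebraMap ℚ B))
    (RingHom.injective _) (fun _ _ => IsPrincipalIdealRing.principal _)
    (MvPolynomial.optionEquivRight B σ π)
    ((MulEquiv.prime_iff (MvPolynomial.optionEquivRight B σ).toMulEquiv).2 hπ)
  convert h1 using 1
  ext φ
  rw [Ideal.mem_comap, Ideal.mem_comap, Ideal.mem_span_singleton, Ideal.mem_span_singleton,
    ← inc_eq]
  exact (map_dvd_iff (MvPolynomial.optionEquivRight B σ)).symm

theorem omg_inc (σ B : Type) [CommRing B] [Algebra ℚ B] (c : MvPolynomial (σ ⊕ σ) ℚ)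
    (τ : σ → B) (φ : MvPolynomial σ ℚ) :
    Omg c τ (inc σ B φ) = MvPolynomial.aeval (stp c τ) φ := by
  induction φ using MvPolynomial.induction_on with
  | C a =>
    rw [inc, MvPolynomial.aeval_C, MvPolynomial.aeval_C]
    have h : algebraMap ℚ (MvPolynomial (Option σ) B) a = MvPolynomial.C (algebraMap ℚ B a) := rfl
    rw [h, Omg, MvPolynomial.aeval_C]
    rfl
  | add p q hp hq => rw [map_add, map_add, map_add, hp, hq]
  | mul_X p j hp =>
    rw [map_mul, map_mul, map_mul, hp, inc, MvPolynomial.aeval_X, MvPolynomial.aeval_X,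
      Omg, MvPolynomial.aeval_X]
    rfl

end STD

theorem t_STD : M_STD := by
  intro hCPA hCPB hPRM hSTO hSTG σ _ c B _ _ _ _ τ hc π hπ hdvd
  obtain ⟨G, hG1, hG2⟩ := hSTG σ c B τ
  have h1 := hCPB (MvPolynomial (Option σ) B) (MvPolynomial (Option σ) B)
    (Omg c τ : MvPolynomial (Option σ) B →+* MvPolynomial (Option σ) B) G (hSTO σ c B τ hc)
    (fun h => (hG1 h).imp fun N h' => h'.imp fun h'' h3 => h3) π hπ (hG2 π hπ hdvd)
  have h2 := hCPA (MvPolynomial σ ℚ) (MvPolynomial (Option σ) B) (MvPolynomial (Option σ) B)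
    (STD.inc σ B : MvPolynomial σ ℚ →+* MvPolynomial (Option σ) B)
    (Omg c τ : MvPolynomial (Option σ) B →+* MvPolynomial (Option σ) B)
    (STD.inc_inj σ B) (STD.inc_cop hPRM σ B) π hπ h1
  have h4 : (MvPolynomial.aeval (R := ℚ) (stp c τ)).toRingHom =
      (Omg c τ : MvPolynomial (Option σ) B →+* MvPolynomial (Option σ) B).comp
        (STD.inc σ B : MvPolynomial σ ℚ →+* MvPolynomial (Option σ) B) :=
    RingHom.ext fun φ => (STD.omg_inc σ B c τ φ).symm
  rw [h4]
  exact h2

end OIF
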