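import Pool.Agent.OIF.St

/-!
# Module STG: the substitution is birational
-/

set_option autoImplicit false

namespace OIF

open MvPolynomial

namespace STG

variable {σ B : Type} [CommRing B] [Algebra ℚ B] (c : MvPolynomial (σ ⊕ σ) ℚ) (τ : σ → B)

/-- `h` times a power of the image of `G` is in the image -/
def Fr (G h : MvPolynomial (Option σ) B) : Prop :=
  ∃ (N : ℕ) (h' : MvPolynomial (Option σ) B), Omg c τ h' = Omg c τ G ^ N * h

theorem Fr.const (G : MvPolynomial (Option σ) B) (b : B) : Fr c τ G (C b) :=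
  ⟨0, C b, by rw [pow_zero, one_mul]; exact (Omg c τ).commutes b⟩

variable {c τ}

theorem Fr.add {G h₁ h₂ : MvPolynomial (Option σ) B} (H₁ : Fr c τ G h₁) (H₂ : Fr c τ G h₂) :
    Fr c τ G (h₁ + h₂) := by
  obtain ⟨N₁, k₁, e₁⟩ := H₁
  obtain ⟨N₂, k₂, e₂⟩ := H₂
  refine ⟨N₁ + N₂, G ^ N₂ * k₁ + G ^ N₁ * k₂, ?_⟩
  rw [map_add, map_mul, map_mul, map_pow, map_pow, e₁, e₂]
  ring

theorem Fr.mul {G h₁ h₂ : MvPolynomial (Option σ) B} (H₁ : Fr c τ G h₁) (H₂ : Fr c τ G h₂) :
    Fr c τ G (h₁ * h₂) := by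
  obtain ⟨N₁, k₁, e₁⟩ := H₁
  obtain ⟨N₂, k₂, e₂⟩ := H₂
  refine ⟨N₁ + N₂, k₁ * k₂, ?_⟩
  rw [map_mul, e₁, e₂]
  ring

theorem Omg_none : Omg c τ (X none) = X none * cc c τ := aeval_X _ _

theorem Omg_some (j : σ) : Omg c τ (X (some j)) =
    C (τ j) + X none * cc c τ * X (some j) := aeval_X _ _

theorem Omg_C (b : B) : Omg c τ (C b) = C b := (Omg c τ).commutes b

theorem Omg_sub (j : σ) : Omg c τ (X (some j) - C (τ j)) =
    Omg c τ (X none) * X (some j) := by
  rw [map_sub, Omg_some, Omg_C, Omg_none]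
  ring

theorem fr_some (j : σ) : Fr c τ (X none) (X (some j)) :=
  ⟨1, X (some j) - C (τ j), by rw [pow_one, Omg_sub]⟩

theorem fr_cc (d : MvPolynomial (σ ⊕ σ) ℚ) : Fr c τ (X none) (cc d τ) := by
  unfold cc
  induction d using MvPolynomial.induction_on with
  | C r =>
    rw [aeval_C]
    exact Fr.const c τ _ (algebraMap ℚ B r)
  | add a b ha hb =>
    rw [map_add]
    exact ha.add hb
  | mul_X a j ha =>
    rw [map_mul, aeval_X]
    refine ha.mul ?_
    rcases j with j | j
    · exact Fr.const c τ _ (τ j)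
    · exact fr_some j

end STG

open STG in
theorem t_STG : S_STG := by
  intro σ c B _ _ τ
  obtain ⟨N, c', hc'⟩ := fr_cc (c := c) (τ := τ) c
  refine ⟨X none * c', ?_, ?_⟩
  · intro h
    show Fr c τ (X none * c') h
    induction h using MvPolynomial.induction_on with
    | C b => exact Fr.const c τ _ b
    | add a b ha hb => exact ha.add hb
    | mul_X a j ha =>
      refine ha.mul ?_
      rcases j with _ | j
      · refine ⟨1, X none ^ (N + 2), ?_⟩
        rw [pow_one, map_mul, map_pow, hc', Omg_none]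
        ring
      · refine ⟨1, (X (some j) - C (τ j)) * c', ?_⟩
        rw [pow_one, map_mul, map_mul, Omg_sub]
        ring
  · intro π hπ hn hd
    rw [map_mul, hc', Omg_none] at hd
    have h1 : ¬ π ∣ cc c τ := fun h => hn (h.mul_left _)
    rcases hπ.dvd_or_dvd hd with h | h
    · exact hn h
    · rcases hπ.dvd_or_dvd h with h | h
      · exact hn (hπ.dvd_of_dvd_pow h)
      · exact h1 h

end OIF
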