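import Pool.Agent.OIF.St

/-!
# Module `STI`: injectivity of one step
-/

set_option autoImplicit false

namespace OIF

namespace STI

open MvPolynomial

variable {σ : Type} (c : MvPolynomial (σ ⊕ σ) ℚ) (s : σ → ℚ)

/-- the value of `cc` -/
theorem aeval_cc (x : Option σ → ℚ) :
    aeval x (cc c s) = aeval (Sum.elim s fun j => x (some j)) c := by
  unfold cc
  rw [← AlgHom.comp_apply, comp_aeval]
  congr 2
  funext i
  rcases i with i | i
  · simp
  · simp

/-- the polynomial `c (s, d)` -/
noncomputable def cp : MvPolynomial σ ℚ := aeval (Sum.elim (fun j => C (s j)) X) c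

theorem aeval_cp (d : σ → ℚ) : aeval d (cp c s) = aeval (Sum.elim s d) c := by
  unfold cp
  rw [← AlgHom.comp_apply, comp_aeval]
  congr 2
  funext i
  rcases i with i | i
  · simp
  · simp

/-- the value of `stp` -/
theorem aeval_stp (x : Option σ → ℚ) (j : σ) :
    aeval x (stp c s j) = s j + x none * aeval (Sum.elim s fun j => x (some j)) c * x (some j) := by
  unfold stp
  rw [map_add, map_mul, map_mul, aeval_cc, aeval_X, aeval_X, aeval_C]
  rfl

/-- a polynomial that is not zero has a nonzero value -/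
theorem exists_ne (f : MvPolynomial σ ℚ) (hf : f ≠ 0) : ∃ t : σ → ℚ, aeval t f ≠ 0 := by
  by_contra h
  push Not at h
  refine hf (MvPolynomial.funext fun t => ?_)
  rw [map_zero, ← h t]
  rfl

/-- translation -/
theorem shift_ne (f : MvPolynomial σ ℚ) (hf : f ≠ 0) :
    aeval (fun j => X j - C (s j) : σ → MvPolynomial σ ℚ) f ≠ 0 := by
  intro h
  obtain ⟨d, hd⟩ := exists_ne f hf
  apply hd
  have h1 := congrArg (aeval fun j => d j + s j) h
  rw [map_zero, ← AlgHom.comp_apply, comp_aeval] at h1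
  rw [← h1]
  congr 2
  funext j
  simp

end STI

open STI MvPolynomial in
theorem t_STI : S_STI := by
  intro σ a p c hc s₀ hs
  rw [injective_iff_map_eq_zero]
  intro φ hφ
  by_contra hne
  have h1 : cp c s₀ ≠ 0 := hc.ne ℚ s₀ hs
  have h2 := shift_ne s₀ _ h1
  obtain ⟨t, ht⟩ := exists_ne _ (mul_ne_zero hne h2)
  rw [map_mul] at ht
  have h3 : aeval t φ ≠ 0 := left_ne_zero_of_mul ht
  have h4 := right_ne_zero_of_mul ht
  rw [← AlgHom.comp_apply, comp_aeval] at h4
  have h5 : (fun i => aeval t (X i - C (s₀ i) : MvPolynomial σ ℚ)) = fun i => t i - s₀ i := by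
    funext i
    simp
  rw [h5, aeval_cp] at h4
  let x : Option σ → ℚ := fun o =>
    o.elim (aeval (Sum.elim s₀ fun i => t i - s₀ i) c)⁻¹ fun i => t i - s₀ i
  have h6 : ∀ j, aeval x (stp c s₀ j) = t j := by
    intro j
    rw [aeval_stp]
    change s₀ j + (aeval (Sum.elim s₀ fun i => t i - s₀ i) c)⁻¹ *
      aeval (Sum.elim s₀ fun i => t i - s₀ i) c * (t j - s₀ j) = t j
    rw [inv_mul_cancel₀ h4]
    ring
  apply h3
  have h7 := congrArg (aeval x) hφ
  rw [map_zero, ← AlgHom.comp_apply, comp_aeval] at h7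
  rw [← h7]
  congr 2
  funext j
  exact (h6 j).symm

end OIF
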