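import Pool.Agent.OIF.St

/-!
# STO: `Omg` is injective
-/

set_option autoImplicit false

open Polynomial OID OIE

namespace OIF

namespace STO

/-- Homomorphisms of `ℚ`-algebras and values of polynomials. -/
theorem hom_aeval {σ B K : Type} [CommRing B] [Algebra ℚ B] [CommRing K] [Algebra ℚ K]
    (φ : B →+* K) (f : σ → B) (c : MvPolynomial σ ℚ) :
    φ (MvPolynomial.aeval f c) = MvPolynomial.aeval (fun i => φ (f i)) c :=
  MvPolynomial.comp_aeval_apply f φ.toRatAlgHom c

variable {σ B K : Type} [CommRing B] [Field K]

/-- The value at a point of the field `K`. -/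
noncomputable def ev (a : B →+* K) {ω : Type} (x : ω → K) : MvPolynomial ω B →+* K :=
  MvPolynomial.eval₂Hom a x

theorem ev_C (a : B →+* K) {ω : Type} (x : ω → K) (b : B) :
    ev a x (MvPolynomial.C b) = a b :=
  MvPolynomial.eval₂Hom_C _ _ _

theorem ev_X (a : B →+* K) {ω : Type} (x : ω → K) (i : ω) :
    ev a x (MvPolynomial.X i) = x i :=
  MvPolynomial.eval₂Hom_X' _ _ _

/-- A nonzero polynomial has a nonzero value. -/
theorem exists_ev [Infinite K] (a : B →+* K) (ha : Function.Injective a) {ω : Type}
    (g : MvPolynomial ω B) (hg : g ≠ 0) : ∃ x : ω → K, ev a x g ≠ 0 := by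
  by_contra h
  push Not at h
  apply hg
  have h1 : MvPolynomial.map a g = 0 := by
    apply MvPolynomial.funext
    intro x
    rw [map_zero, MvPolynomial.eval_map]
    exact h x
  exact (map_eq_zero_iff _ (MvPolynomial.map_injective _ ha)).1 h1

theorem main [Infinite K] [IsDomain B] [Algebra ℚ B] [Algebra ℚ K] (a : B →+* K)
    (ha : Function.Injective a) (c : MvPolynomial (σ ⊕ σ) ℚ) (τ : σ → B) (hc : cc c τ ≠ 0)
    (g : MvPolynomial (Option σ) B) (hg : Omg c τ g = 0) : g = 0 := by
  by_contra hne
  obtain ⟨y, hy⟩ := exists_ev a ha (cc c τ) hc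
  obtain ⟨x, hx⟩ := exists_ev a ha (g * MvPolynomial.X none)
    (mul_ne_zero hne (MvPolynomial.X_ne_zero _))
  rw [map_mul, ev_X] at hx
  have hm : x none ≠ 0 := right_ne_zero_of_mul hx
  have hgx := left_ne_zero_of_mul hx
  -- the values of `cc`
  have hcc : ∀ z : Option σ → K, ev a z (cc c τ) =
      MvPolynomial.aeval (Sum.elim (fun i => a (τ i)) (fun i => z (some i))) c := by
    intro z
    rw [cc, hom_aeval]
    congr 1
    congr 1
    funext i
    rcases i with i | i
    · exact ev_C a z (τ i)
    · exact ev_X a z (some i)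
  -- the two polynomials in `d`
  let Q : MvPolynomial σ K := MvPolynomial.eval₂Hom (MvPolynomial.C.comp a)
    (fun o : Option σ => o.elim (MvPolynomial.C (x none))
      (fun j => MvPolynomial.C (a (τ j)) + MvPolynomial.C (x none) * MvPolynomial.X j)) g
  let R : MvPolynomial σ K := MvPolynomial.aeval
    (Sum.elim (fun i => MvPolynomial.C (a (τ i))) MvPolynomial.X) c
  have hQ : ∀ d : σ → K, MvPolynomial.eval d Q =
      ev a (fun o : Option σ => o.elim (x none) (fun j => a (τ j) + x none * d j)) g := by
    intro d
    have h1 : (MvPolynomial.eval d).comp (MvPolynomial.eval₂Hom (MvPolynomial.C.comp a)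
        (fun o : Option σ => o.elim (MvPolynomial.C (x none))
        (fun j => MvPolynomial.C (a (τ j)) + MvPolynomial.C (x none) * MvPolynomial.X j))) =
        ev a (fun o : Option σ => o.elim (x none) (fun j => a (τ j) + x none * d j)) := by
      apply MvPolynomial.ringHom_ext
      · intro b
        rw [ev_C]
        simp
      · intro o
        rw [ev_X]
        rcases o with _ | j
        · simp
        · simp
    exact congrArg (fun φ => φ g) h1
  have hR : ∀ d : σ → K, MvPolynomial.eval d R =
      MvPolynomial.aeval (Sum.elim (fun i => a (τ i)) d) c := by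
    intro d
    change MvPolynomial.eval d (MvPolynomial.aeval
      (Sum.elim (fun i => MvPolynomial.C (a (τ i))) MvPolynomial.X) c) = _
    rw [hom_aeval]
    congr 1
    congr 1
    funext i
    rcases i with i | i
    · simp
    · simp
  have hQ0 : Q ≠ 0 := by
    intro h
    apply hgx
    have h1 := hQ (fun j => (x (some j) - a (τ j)) / x none)
    rw [h, map_zero] at h1
    have h2 : (fun o : Option σ => o.elim (x none)
        (fun j => a (τ j) + x none * ((x (some j) - a (τ j)) / x none))) = x := by
      funext o
      rcases o with _ | j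
      · rfl
      · change a (τ j) + x none * ((x (some j) - a (τ j)) / x none) = x (some j)
        rw [mul_div_cancel₀ _ hm, add_sub_cancel]
    rw [h2] at h1
    exact h1.symm
  have hR0 : R ≠ 0 := by
    intro h
    apply hy
    rw [hcc, ← hR (fun i => y (some i)), h, map_zero]
  obtain ⟨d, hd⟩ : ∃ d : σ → K, MvPolynomial.eval d (Q * R) ≠ 0 := by
    by_contra h
    push Not at h
    exact mul_ne_zero hQ0 hR0 (MvPolynomial.funext fun d => by rw [h d, map_zero])
  rw [map_mul, hQ, hR] at hd
  have hd1 := left_ne_zero_of_mul hd
  have hd2 := right_ne_zero_of_mul hd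
  -- the point
  let z : Option σ → K := fun o => o.elim (x none /
    MvPolynomial.aeval (Sum.elim (fun i => a (τ i)) d) c) d
  have hz2 : ev a z (MvPolynomial.X none * cc c τ) = x none := by
    rw [map_mul, hcc z, ev_X]
    exact div_mul_cancel₀ _ hd2
  apply hd1
  have h1 : (ev a z).comp (Omg c τ).toRingHom =
      ev a (fun o : Option σ => o.elim (x none) (fun j => a (τ j) + x none * d j)) := by
    apply MvPolynomial.ringHom_ext
    · intro b
      rw [ev_C, RingHom.comp_apply]
      have h2 : (Omg c τ).toRingHom (MvPolynomial.C b) = MvPolynomial.C b :=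
        (Omg c τ).commutes b
      rw [h2, ev_C]
    · intro o
      rw [ev_X, RingHom.comp_apply]
      have h2 : (Omg c τ).toRingHom (MvPolynomial.X o) =
          o.elim (MvPolynomial.X none * cc c τ) (stp c τ) := MvPolynomial.aeval_X _ o
      rw [h2]
      rcases o with _ | j
      · exact hz2
      · change ev a z (MvPolynomial.C (τ j) + MvPolynomial.X none * cc c τ *
          MvPolynomial.X (some j)) = a (τ j) + x none * d j
        rw [map_add, map_mul, hz2, ev_C, ev_X]
        rfl
  have h3 := congrArg (fun φ => φ g) h1
  have h4 : (Omg c τ).toRingHom g = 0 := hg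
  simp only [RingHom.comp_apply, h4, map_zero] at h3
  exact h3.symm

end STO

theorem t_STO : S_STO := by
  intro σ c B _ _ _ τ hc
  have h0 : CharZero (FractionRing B) := algebraRat.charZero _
  exact (injective_iff_map_eq_zero _).2 fun g hg =>
    STO.main (algebraMap B (FractionRing B)) (IsFractionRing.injective B (FractionRing B)) c τ hc
      g hg

end OIF
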