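import Pool.Agent.OIF.St
import Pool.Agent.OIE.EI

/-!
# Module `TD`
-/

set_option autoImplicit false

namespace OIF

open Polynomial OID OIE

namespace TD

variable {σ : Type}

/-- Primes stay prime under `rename inl`. -/
theorem prime_inl (ρ : MvPolynomial σ ℚ) (h : Prime ρ) :
    Prime (MvPolynomial.rename (Sum.inl : σ → σ ⊕ σ) ρ) := by
  let e : MvPolynomial (σ ⊕ σ) ℚ ≃ₐ[ℚ] MvPolynomial σ (MvPolynomial σ ℚ) :=
    (MvPolynomial.renameEquiv ℚ (Equiv.sumComm σ σ)).trans (MvPolynomial.sumAlgEquiv ℚ σ σ)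
  have he : e (MvPolynomial.rename Sum.inl ρ) = MvPolynomial.C ρ := by
    have h2 : ((e : MvPolynomial (σ ⊕ σ) ℚ →ₐ[ℚ] MvPolynomial σ (MvPolynomial σ ℚ)).comp
        (MvPolynomial.rename Sum.inl)) =
        IsScalarTower.toAlgHom ℚ (MvPolynomial σ ℚ) (MvPolynomial σ (MvPolynomial σ ℚ)) := by
      apply MvPolynomial.algHom_ext
      intro j
      simp [e]
    have := congrArg (fun g => g ρ) h2
    exact this
  have h3 : Prime (e (MvPolynomial.rename Sum.inl ρ)) := by
    rw [he, MvPolynomial.prime_C_iff]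
    exact h
  exact (MulEquiv.prime_iff e.toMulEquiv).mp h3

/-- A prime factor. -/
theorem exists_factor (H : MvPolynomial σ ℚ) (hH : H ≠ 0) (π : MvPolynomial (σ ⊕ σ) ℚ)
    (hπ : Prime π) (h : π ∣ MvPolynomial.rename Sum.inl H) :
    ∃ ρ : MvPolynomial σ ℚ, Prime ρ ∧ ρ ∣ H ∧ π ∣ MvPolynomial.rename Sum.inl ρ := by
  revert hH h
  induction H using UniqueFactorizationMonoid.induction_on_prime with
  | h₁ => intro h0; exact absurd rfl h0
  | h₂ x hx =>
    intro _ h
    exact absurd (isUnit_of_dvd_unit h (hx.map _)) hπ.not_isUnit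
  | h₃ a p ha hp ih =>
    intro _ h
    rw [map_mul] at h
    rcases hπ.dvd_or_dvd h with h1 | h1
    · exact ⟨p, hp, dvd_mul_right _ _, h1⟩
    · obtain ⟨ρ, h2, h3, h4⟩ := ih ha h1
      exact ⟨ρ, h2, h3.mul_left _, h4⟩

/-- A variable with a derivative that is not divisible by `ρ`. -/
theorem exists_var (ρ : MvPolynomial σ ℚ) (h : Prime ρ) :
    ∃ j : σ, ¬ ρ ∣ MvPolynomial.pderiv j ρ := by
  classical
  have hne : ρ ≠ 0 := h.ne_zero
  have hnc : ∃ m ∈ ρ.support, m ≠ 0 := by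
    by_contra hcon
    push Not at hcon
    have : ρ = MvPolynomial.C (ρ.coeff 0) := by
      ext m
      rw [MvPolynomial.coeff_C]
      split_ifs with h0
      · rw [← h0]
      · by_contra h1
        exact h0 (hcon m (MvPolynomial.mem_support_iff.mpr h1)).symm
    have hu : IsUnit ρ := by
      rw [this]
      apply IsUnit.map
      rw [isUnit_iff_ne_zero]
      intro h0
      rw [h0, map_zero] at this
      exact hne this
    exact h.not_isUnit hu
  obtain ⟨m, hm, hm0⟩ := hnc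
  obtain ⟨j, hj⟩ : ∃ j, m j ≠ 0 := by
    by_contra hcon
    push Not at hcon
    exact hm0 (Finsupp.ext hcon)
  refine ⟨j, fun hd => ?_⟩
  have hp0 : MvPolynomial.pderiv j ρ ≠ 0 := by
    intro h0
    have h1 := MvPolynomial.coeff_pderiv (i := j) ρ (m - Finsupp.single j 1)
    rw [h0, MvPolynomial.coeff_zero] at h1
    have h2 : m - Finsupp.single j 1 + Finsupp.single j 1 = m := by
      apply tsub_add_cancel_of_le
      rw [Finsupp.single_le_iff]
      omega
    rw [h2] at h1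
    rcases mul_eq_zero.mp h1.symm with h3 | h3
    · exact MvPolynomial.mem_support_iff.mp hm h3
    · have h4 : (0 : ℚ) ≤ (((m - Finsupp.single j 1 : σ →₀ ℕ) j : ℕ) : ℚ) := Nat.cast_nonneg _
      linarith
  obtain ⟨c, hc⟩ := hd
  have hc0 : c ≠ 0 := by
    rintro rfl
    rw [mul_zero] at hc
    exact hp0 hc
  have h1 : MvPolynomial.degreeOf j (MvPolynomial.pderiv j ρ) =
      MvPolynomial.degreeOf j ρ + MvPolynomial.degreeOf j c := by
    rw [hc, MvPolynomial.degreeOf_mul_eq hne hc0]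
  have h2 : MvPolynomial.degreeOf j (MvPolynomial.pderiv j ρ) < MvPolynomial.degreeOf j ρ := by
    have hpos : 0 < MvPolynomial.degreeOf j ρ := by
      have : m j ≤ MvPolynomial.degreeOf j ρ := MvPolynomial.monomial_le_degreeOf j hm
      omega
    rw [MvPolynomial.degreeOf_lt_iff hpos]
    intro n hn
    have h3 := MvPolynomial.mem_support_iff.mp hn
    rw [MvPolynomial.coeff_pderiv] at h3
    have h4 : n + Finsupp.single j 1 ∈ ρ.support := by
      rw [MvPolynomial.mem_support_iff]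
      intro h5
      rw [h5, zero_mul] at h3
      exact h3 rfl
    have h5 := MvPolynomial.monomial_le_degreeOf j h4
    rw [Finsupp.add_apply, Finsupp.single_eq_same] at h5
    omega
  omega

/-- `tau G` is congruent to the inclusion modulo `rename inl G`. -/
theorem tau_dvd (G : MvPolynomial σ ℚ) (φ : MvPolynomial σ ℚ) :
    MvPolynomial.rename Sum.inl G ∣ tau G φ - MvPolynomial.rename Sum.inl φ :=
  OIE.EI.tau_dvd (MvPolynomial.rename Sum.inl G) φ

section

variable (j₀ : σ) [DecidableEq σ]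

/-- The specialisation. -/
noncomputable def Sp : MvPolynomial (σ ⊕ σ) ℚ →ₐ[ℚ] (MvPolynomial σ ℚ)[X] :=
  MvPolynomial.aeval (Sum.elim (fun j => C (MvPolynomial.X j)) (fun j => if j = j₀ then X else 0))

theorem Sp_inl (φ : MvPolynomial σ ℚ) : Sp j₀ (MvPolynomial.rename Sum.inl φ) = C φ := by
  have h2 : ((Sp j₀).comp (MvPolynomial.rename Sum.inl)) =
      IsScalarTower.toAlgHom ℚ (MvPolynomial σ ℚ) ((MvPolynomial σ ℚ)[X]) := by
    apply MvPolynomial.algHom_ext
    intro j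
    simp [Sp]
  have := congrArg (fun g => g φ) h2
  exact this

theorem Sp_tau_coeff (G φ : MvPolynomial σ ℚ) :
    (Sp j₀ (tau G φ)).coeff 0 = φ ∧
      (Sp j₀ (tau G φ)).coeff 1 = G * MvPolynomial.pderiv j₀ φ := by
  induction φ using MvPolynomial.induction_on with
  | C a =>
    have : Sp j₀ (tau G (MvPolynomial.C a)) = C (MvPolynomial.C a) := by
      have h1 : tau G (MvPolynomial.C a) = MvPolynomial.rename Sum.inl (MvPolynomial.C a) := by
        rw [MvPolynomial.rename_C]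
        simp [tau]
      rw [h1, Sp_inl]
    rw [this, coeff_C_zero, coeff_C_succ, MvPolynomial.pderiv_C, mul_zero]
    exact ⟨rfl, rfl⟩
  | add p q hp hq =>
    rw [map_add, map_add, coeff_add, coeff_add, hp.1, hp.2, hq.1, hq.2, map_add, mul_add]
    exact ⟨rfl, rfl⟩
  | mul_X p j hp =>
    have e : Sp j₀ (tau G (MvPolynomial.X j)) =
        C (MvPolynomial.X j) + C G * (if j = j₀ then X else 0) := by
      have h1 : tau G (MvPolynomial.X j) = MvPolynomial.X (Sum.inl j) +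
          MvPolynomial.rename Sum.inl G * MvPolynomial.X (Sum.inr j) := by
        simp [tau]
      rw [h1, map_add, map_mul, Sp_inl]
      simp [Sp]
    rw [map_mul, map_mul, e]
    constructor
    · rw [mul_coeff_zero, hp.1, coeff_add, coeff_C_zero, mul_coeff_zero]
      split_ifs
      · rw [coeff_X_zero, mul_zero, add_zero]
      · rw [coeff_zero, mul_zero, add_zero]
    · have h3 : ∀ a b : (MvPolynomial σ ℚ)[X], (a * b).coeff 1 =
          a.coeff 0 * b.coeff 1 + a.coeff 1 * b.coeff 0 := by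
        intro a b
        rw [coeff_mul, Finset.Nat.antidiagonal_succ]
        simp
      rw [h3, hp.1, hp.2, coeff_add, coeff_add, coeff_C_zero, coeff_C_succ, mul_coeff_zero, h3,
        MvPolynomial.pderiv_mul, MvPolynomial.pderiv_X, coeff_C_zero, coeff_C_succ]
      by_cases hj : j = j₀
      · subst hj
        rw [if_pos rfl, coeff_X_zero, coeff_X_one, Pi.single_eq_same]
        ring
      · rw [if_neg hj, coeff_zero, coeff_zero, Pi.single_eq_of_ne (fun h => hj h)]
        ring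

end

end TD

open TD in
/-- The statement, without hypotheses. -/
theorem TD.main : S_TD := by
  classical
  intro σ _ H G Z hR hH π hπ hd
  obtain ⟨ρ, hρ, hρH, hπρ⟩ := exists_factor H hH π hπ hd
  refine ⟨ρ, hρ, hρH, ?_⟩
  intro h hh n
  obtain ⟨j₀, hj⟩ := exists_var ρ hρ
  have hρG : ρ ∣ G := (hR.dvd ρ hρ).mpr hρH
  obtain ⟨G₁, hG₁⟩ := hρG
  have hρG₁ : ¬ ρ ∣ G₁ := by
    rintro ⟨c, hc⟩
    refine hR.sqf ρ hρ ⟨c, ?_⟩
    rw [hG₁, hc]; ring
  -- associated primes
  have hass : MvPolynomial.rename Sum.inl ρ ∣ π := by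
    have h1 : Associated π (MvPolynomial.rename Sum.inl ρ) :=
      hπ.irreducible.associated_of_dvd (prime_inl ρ hρ).irreducible hπρ
    exact h1.symm.dvd
  -- the quotient
  set I : Ideal (MvPolynomial σ ℚ) := Ideal.span {ρ} with hI
  have hIp : I.IsPrime := by
    rw [hI, Ideal.span_singleton_prime hρ.ne_zero]
    exact hρ
  set mk : MvPolynomial σ ℚ →+* (MvPolynomial σ ℚ ⧸ I) := Ideal.Quotient.mk I with hmk
  have hmk0 : ∀ φ, mk φ = 0 ↔ ρ ∣ φ := by
    intro φ
    rw [hmk, Ideal.Quotient.eq_zero_iff_mem, hI, Ideal.mem_span_singleton]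
  let Θ : MvPolynomial (σ ⊕ σ) ℚ →+* (MvPolynomial σ ℚ ⧸ I)[X] :=
    (mapRingHom mk).comp ((Sp j₀ : MvPolynomial (σ ⊕ σ) ℚ →ₐ[ℚ] _) : _ →+* _)
  have hΘ : ∀ φ, Θ φ = (Sp j₀ φ).map mk := fun φ => rfl
  have hΘinl : ∀ φ, Θ (MvPolynomial.rename Sum.inl φ) = C (mk φ) := by
    intro φ
    rw [hΘ, Sp_inl, map_C]
  have hΘG : ∀ φ, Θ (tau G φ) = C (mk φ) := by
    intro φ
    obtain ⟨c, hc⟩ := tau_dvd G φ
    have h1 : tau G φ = MvPolynomial.rename Sum.inl φ + MvPolynomial.rename Sum.inl G * c := by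
      rw [← hc]; ring
    rw [h1, map_add, map_mul, hΘinl, hΘinl, (hmk0 G).mpr ⟨G₁, hG₁⟩, map_zero, zero_mul, add_zero]
  -- the cofactor of `ρ`
  obtain ⟨Zρ, hZρ⟩ : MvPolynomial.rename Sum.inl ρ ∣ tau G ρ := by
    obtain ⟨c, hc⟩ := tau_dvd G ρ
    refine ⟨1 + MvPolynomial.rename Sum.inl G₁ * c, ?_⟩
    have h1 : tau G ρ = MvPolynomial.rename Sum.inl ρ + MvPolynomial.rename Sum.inl G * c := by
      rw [← hc]; ring
    rw [h1, hG₁, map_mul]; ring
  have hcoef : (Sp j₀ Zρ).coeff 1 = G₁ * MvPolynomial.pderiv j₀ ρ := by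
    have h1 := (Sp_tau_coeff j₀ G ρ).2
    rw [hZρ, map_mul, Sp_inl, coeff_C_mul, hG₁, mul_assoc] at h1
    exact mul_left_cancel₀ hρ.ne_zero h1
  have hdeg : 0 < (Θ Zρ).natDegree := by
    by_contra hcon
    have h1 : (Θ Zρ).coeff 1 = 0 := by
      apply coeff_eq_zero_of_natDegree_lt
      omega
    rw [hΘ, coeff_map, hcoef, hmk0] at h1
    rcases hρ.dvd_or_dvd h1 with h2 | h2
    · exact hρG₁ h2
    · exact hj h2
  -- the power of `ρ` in `H`
  obtain ⟨e, H₁, hH₁, hHe⟩ : ∃ (e : ℕ) (H₁ : MvPolynomial σ ℚ), ¬ ρ ∣ H₁ ∧ H = ρ ^ e * H₁ := by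
    have hf : FiniteMultiplicity ρ H := FiniteMultiplicity.of_prime_left hρ hH
    obtain ⟨c, h1, h2⟩ := hf.exists_eq_pow_mul_and_not_dvd
    exact ⟨_, c, h2, h1⟩
  have he : 0 < e := by
    rcases Nat.eq_zero_or_pos e with h0 | h0
    · rw [h0, pow_zero, one_mul] at hHe
      rw [hHe] at hρH
      exact absurd hρH hH₁
    · exact h0
  have hZe : Θ Z = (Θ Zρ) ^ e := by
    have h1 := hR.cof
    rw [hHe, map_mul, map_pow, map_mul, map_pow, hZρ, mul_pow] at h1
    have h2 : Zρ ^ e * tau G H₁ = MvPolynomial.rename Sum.inl H₁ * Z := by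
      have h3 : (MvPolynomial.rename Sum.inl ρ : MvPolynomial (σ ⊕ σ) ℚ) ^ e ≠ 0 :=
        pow_ne_zero _ (prime_inl ρ hρ).ne_zero
      apply mul_left_cancel₀ h3
      calc (MvPolynomial.rename Sum.inl ρ : MvPolynomial (σ ⊕ σ) ℚ) ^ e * (Zρ ^ e * tau G H₁)
          = MvPolynomial.rename Sum.inl ρ ^ e * Zρ ^ e * tau G H₁ := by ring
        _ = MvPolynomial.rename Sum.inl ρ ^ e * MvPolynomial.rename Sum.inl H₁ * Z := h1
        _ = _ := by ring
    have h4 := congrArg Θ h2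
    rw [map_mul, map_mul, map_pow, hΘG, hΘinl, mul_comm (Θ Zρ ^ e)] at h4
    have h5 : (C (mk H₁) : (MvPolynomial σ ℚ ⧸ I)[X]) ≠ 0 := by
      rw [Ne, C_eq_zero, hmk0]
      exact hH₁
    exact (mul_left_cancel₀ h5 h4).symm
  have hZdeg : 0 < (Θ Z).natDegree := by
    rw [hZe, natDegree_pow]
    exact Nat.mul_pos he hdeg
  -- the equation
  have h0 : Θ (h.eval₂ (tau G : MvPolynomial σ ℚ →+* MvPolynomial (σ ⊕ σ) ℚ) Z) = 0 := by
    obtain ⟨c, hc⟩ := hass.trans hh
    rw [hc, map_mul, hΘinl, (hmk0 ρ).mpr dvd_rfl, map_zero, zero_mul]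
  have h1 : Θ (h.eval₂ (tau G : MvPolynomial σ ℚ →+* MvPolynomial (σ ⊕ σ) ℚ) Z) =
      (h.map mk).comp (Θ Z) := by
    rw [hom_eval₂, comp, eval₂_map]
    congr 1
    exact RingHom.ext fun φ => hΘG φ
  rw [h1, comp_eq_zero_iff] at h0
  have h2 : h.map mk = 0 := by
    rcases h0 with h3 | ⟨_, h3⟩
    · exact h3
    · rw [h3, natDegree_C] at hZdeg
      exact absurd hZdeg (lt_irrefl _)
  have h3 := congrArg (fun g => g.coeff n) h2
  simp only [coeff_map, coeff_zero] at h3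
  exact (hmk0 _).mp h3

/-- **TD** (proof by helper65) -/
theorem t_TD : S_TD := TD.main

end OIF
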