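import Pool.Agent.OIF.St

/-!
# Module TI
-/

set_option autoImplicit false

namespace OIF

open Polynomial OID OIE

namespace TI

/-- `(ℚ[σ])[X] ≃ (ℚ[X])[σ]`. -/
noncomputable def dl (σ : Type) : (MvPolynomial σ ℚ)[X] ≃ₐ[ℚ] MvPolynomial σ ℚ[X] :=
  (MvPolynomial.optionEquivLeft ℚ σ).symm.trans (MvPolynomial.optionEquivRight ℚ σ)

theorem dl_X (σ : Type) : dl σ X = MvPolynomial.C X := by
  simp [dl]

theorem dl_CC (σ : Type) (r : ℚ) : dl σ (C (MvPolynomial.C r)) = MvPolynomial.C (C r) := by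
  simp [dl]

theorem dl_CX (σ : Type) (j : σ) : dl σ (C (MvPolynomial.X j)) = MvPolynomial.X j := by
  simp [dl]

/-- `ℚ[σ ⊕ σ] ≃ (ℚ[σ])[σ]`, `inl` goes to the constants. -/
noncomputable def ee (σ : Type) :
    MvPolynomial (σ ⊕ σ) ℚ ≃ₐ[ℚ] MvPolynomial σ (MvPolynomial σ ℚ) :=
  (MvPolynomial.renameEquiv ℚ (Equiv.sumComm σ σ)).trans (MvPolynomial.sumAlgEquiv ℚ σ σ)

theorem ee_inl (σ : Type) (j : σ) : ee σ (MvPolynomial.X (Sum.inl j)) =
    MvPolynomial.C (MvPolynomial.X j) := by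
  simp [ee]

theorem ee_inr (σ : Type) (j : σ) : ee σ (MvPolynomial.X (Sum.inr j)) = MvPolynomial.X j := by
  simp [ee]

theorem ee_C (σ : Type) (r : ℚ) : ee σ (MvPolynomial.C r) = MvPolynomial.C (MvPolynomial.C r) := by
  simp [ee]

theorem ee_rename (σ : Type) (g : MvPolynomial σ ℚ) :
    ee σ (MvPolynomial.rename Sum.inl g) = MvPolynomial.C g := by
  induction g using MvPolynomial.induction_on with
  | C a => rw [MvPolynomial.rename_C, ee_C]
  | add p q hp hq => rw [map_add, map_add, hp, hq, map_add]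
  | mul_X p j hp => rw [map_mul, map_mul, hp, MvPolynomial.rename_X, ee_inl, map_mul]

/-- A prime that divides `rename inl G` divides `rename inl ρ` for a prime factor `ρ` of `G`. -/
theorem exists_factor {σ : Type} {G : MvPolynomial σ ℚ} (hG : G ≠ 0)
    {π : MvPolynomial (σ ⊕ σ) ℚ} (hπ : Prime π)
    (h : π ∣ MvPolynomial.rename Sum.inl G) :
    ∃ ρ, Prime ρ ∧ ρ ∣ G ∧ π ∣ MvPolynomial.rename Sum.inl ρ := by
  revert hG h
  induction G using UniqueFactorizationMonoid.induction_on_prime with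
  | h₁ => exact fun h0 => absurd rfl h0
  | h₂ u hu =>
    intro _ h
    exact absurd (isUnit_of_dvd_unit h (hu.map (MvPolynomial.rename Sum.inl))) hπ.not_isUnit
  | h₃ a p ha hp ih =>
    intro _ h
    rw [map_mul] at h
    rcases hπ.dvd_or_dvd h with h1 | h1
    · exact ⟨p, hp, Dvd.intro _ rfl, h1⟩
    · obtain ⟨ρ, h2, h3, h4⟩ := ih ha h1
      exact ⟨ρ, h2, h3.mul_left _, h4⟩

end TI

open TI in
theorem t_TI : M_TI := by
  intro hCPA hPRM hLAM σ _ H G Z hR hH hu π hπ hdvd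
  -- `ℚ[X] → S`
  let κ : ℚ[X] →+* MvPolynomial σ ℚ := (Polynomial.aeval (R := ℚ) H).toRingHom
  have hκ : Function.Injective κ := by
    rw [injective_iff_map_eq_zero]
    intro f hf
    by_contra hf0
    have hint : IsIntegral ℚ H := (isAlgebraic_iff_isIntegral).1 ⟨f, hf0, hf⟩
    exact hu (hint.isUnit hH)
  have hcκ : Cop κ := fun _ _ => IsPrincipalIdealRing.principal _
  have hcop : Cop (MvPolynomial.map (σ := σ) κ) := hPRM σ _ _ κ hκ hcκ
  have hinj : Function.Injective (MvPolynomial.map (σ := σ) κ) := MvPolynomial.map_injective _ hκ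
  have hπ' : Prime (ee σ π) := (MulEquiv.prime_iff (ee σ).toMulEquiv).2 hπ
  have hnd : ¬ ee σ π ∣ MvPolynomial.C G := by
    intro h
    rw [← ee_rename] at h
    have h1 : π ∣ MvPolynomial.rename Sum.inl G := (map_dvd_iff (ee σ)).1 h
    obtain ⟨ρ, h2, h3, h4⟩ := exists_factor hR.ne hπ h1
    exact hdvd (h4.trans (map_dvd _ ((hR.dvd ρ h2).1 h3)))
  have h1 := hLAM σ (MvPolynomial σ ℚ) MvPolynomial.X G hR.ne (ee σ π) hπ' hnd
  have h2 := hCPA (MvPolynomial σ ℚ[X]) (MvPolynomial σ (MvPolynomial σ ℚ))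
    (MvPolynomial σ (MvPolynomial σ ℚ)) (MvPolynomial.map κ) (lam MvPolynomial.X G).toRingHom
    hinj hcop (ee σ π) hπ' h1
  -- the two homomorphisms agree
  have hcomp : ((ee σ).toRingEquiv : MvPolynomial (σ ⊕ σ) ℚ →+* MvPolynomial σ (MvPolynomial σ ℚ)).comp
      (eval₂RingHom (tau G : MvPolynomial σ ℚ →+* MvPolynomial (σ ⊕ σ) ℚ)
        (MvPolynomial.rename Sum.inl H)) =
      ((lam MvPolynomial.X G).toRingHom.comp (MvPolynomial.map κ)).comp
        ((dl σ).toRingEquiv : (MvPolynomial σ ℚ)[X] →+* MvPolynomial σ ℚ[X]) := by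
    apply Polynomial.ringHom_ext'
    · apply MvPolynomial.ringHom_ext
      · intro r
        simp [dl_CC, ee_C, κ, tau]
      · intro j
        simp [dl_CX, ee_inl, ee_inr, ee_rename, κ, tau, lam]
    · simp [dl_X, ee_rename, κ]
  have h3 : Ideal.comap (eval₂RingHom (tau G : MvPolynomial σ ℚ →+* MvPolynomial (σ ⊕ σ) ℚ)
        (MvPolynomial.rename Sum.inl H)) (Ideal.span {π}) =
      Ideal.comap ((dl σ).toRingEquiv : (MvPolynomial σ ℚ)[X] →+* MvPolynomial σ ℚ[X])
        (Ideal.comap ((lam MvPolynomial.X G).toRingHom.comp (MvPolynomial.map κ))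
          (Ideal.span {ee σ π})) := by
    rw [Ideal.comap_comap, ← hcomp, ← Ideal.comap_comap]
    congr 1
    ext x
    rw [Ideal.mem_comap, Ideal.mem_span_singleton, Ideal.mem_span_singleton]
    exact (map_dvd_iff (ee σ)).symm
  rw [h3]
  obtain ⟨g, hg⟩ := h2
  refine ⟨(dl σ).symm g, ?_⟩
  rw [hg]
  ext x
  rw [Ideal.mem_comap]
  simp only [Ideal.submodule_span_eq, Ideal.mem_span_singleton]
  constructor
  · rintro ⟨c, hc⟩
    refine ⟨(dl σ).symm c, ?_⟩
    apply (dl σ).injective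
    rw [map_mul, AlgEquiv.apply_symm_apply, AlgEquiv.apply_symm_apply]
    exact hc
  · rintro ⟨c, rfl⟩
    refine ⟨dl σ c, ?_⟩
    change dl σ ((dl σ).symm g * c) = _
    rw [map_mul, AlgEquiv.apply_symm_apply]

end OIF
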