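import Pool.Agent.OIF.St

/-!
# Universal sentences about divisibility and greatest common divisors
-/

set_option autoImplicit false

namespace OIF

open OIE MvPolynomial

namespace UDV

variable {M : Type} [CommRing M]

/-- The system `e = 0` (`e ∈ E`), `g ≠ 0` (`g ∈ G`) in the ring `R`, with the values `h` of the variables. -/
def Sat (E G : List (MvPolynomial M ℤ)) {R : Type} [CommRing R] (h : M → R) : Prop :=
  (∀ e ∈ E, aeval h e = 0) ∧ ∀ g ∈ G, aeval h g ≠ 0

omit [CommRing M] in
theorem sat_append {E G E' G' : List (MvPolynomial M ℤ)} {R : Type} [CommRing R] {h : M → R} :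
    Sat (E ++ E') (G ++ G') h ↔ Sat E G h ∧ Sat E' G' h := by
  unfold Sat
  constructor
  · rintro ⟨h1, h2⟩
    exact ⟨⟨fun e he => h1 e (List.mem_append.2 (Or.inl he)),
      fun g hg => h2 g (List.mem_append.2 (Or.inl hg))⟩,
      ⟨fun e he => h1 e (List.mem_append.2 (Or.inr he)),
      fun g hg => h2 g (List.mem_append.2 (Or.inr hg))⟩⟩
  · rintro ⟨⟨h1, h2⟩, h3, h4⟩
    exact ⟨fun e he => (List.mem_append.1 he).elim (h1 e) (h3 e),
      fun g hg => (List.mem_append.1 hg).elim (h2 g) (h4 g)⟩

theorem sq_sum (l : List ℤ) (h : (l.map fun e => e ^ 2).sum = 0) : ∀ e ∈ l, e = 0 := by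
  have hnn : ∀ l : List ℤ, 0 ≤ (l.map fun e => e ^ 2).sum := by
    intro l
    induction l with
    | nil => simp
    | cons a l ih =>
      rw [List.map_cons, List.sum_cons]
      exact add_nonneg (sq_nonneg a) ih
  induction l with
  | nil => intro e he; simp at he
  | cons a l ih =>
    rw [List.map_cons, List.sum_cons] at h
    have h1 := hnn l
    have h2 := sq_nonneg a
    have h3 : a ^ 2 = 0 := by linarith
    have h4 : (l.map fun e => e ^ 2).sum = 0 := by linarith
    intro e he
    rcases List.mem_cons.1 he with rfl | he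
    · exact pow_eq_zero_iff (two_ne_zero) |>.1 h3
    · exact ih h4 e he

theorem exists_h [IsDomain M] (hD : Dio M) (E G : List (MvPolynomial M ℤ))
    (hs : Sat E G (id : M → M)) : ∃ h : M → ℤ, Sat E G h := by
  classical
  obtain ⟨s, q₁, q₂, hq₁, hq₂⟩ :=
    exists_finset_rename₂ (E.map fun e => e ^ 2).sum G.prod
  let e : s ≃ Fin s.card := s.equivFin
  have hx : ∀ q : MvPolynomial s ℤ, aeval (fun i => ((e.symm i : s) : M)) (rename e q) =
      aeval (id : M → M) (rename ((↑) : s → M) q) := by
    intro q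
    rw [aeval_rename, aeval_rename]
    have : ((fun i => ((e.symm i : s) : M)) ∘ e) = (id ∘ ((↑) : s → M)) := by
      funext i
      simp
    rw [this]
  obtain ⟨z, hz1, hz2⟩ := hD s.card (rename e q₁) (rename e q₂)
    ⟨fun i => ((e.symm i : s) : M), by
      rw [hx, ← hq₁, map_list_sum]
      apply List.sum_eq_zero
      intro t ht
      simp only [List.map_map, List.mem_map] at ht
      obtain ⟨e', he', rfl⟩ := ht
      simp only [Function.comp_apply, map_pow]
      rw [hs.1 e' he']
      ring, by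
      rw [hx, ← hq₂, map_list_prod]
      apply List.prod_ne_zero
      intro h0
      obtain ⟨g, hg, hg0⟩ := List.mem_map.1 h0
      exact hs.2 g hg hg0⟩
  let h : M → ℤ := fun m => if hm : m ∈ s then z (e ⟨m, hm⟩) else 0
  have hh : ∀ q : MvPolynomial s ℤ, aeval h (rename ((↑) : s → M) q) = eval z (rename e q) := by
    intro q
    rw [aeval_rename, eval_rename]
    have : (h ∘ ((↑) : s → M)) = z ∘ e := by
      funext i
      simp [h]
    rw [this]
    exact congrArg (fun t : MvPolynomial s ℤ →+* ℤ => t q) (coe_aeval_eq_eval _)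
  refine ⟨h, ?_, ?_⟩
  · have h1 : aeval h (E.map fun e => e ^ 2).sum = 0 := by
      rw [hq₁, hh, hz1]
    rw [map_list_sum, List.map_map] at h1
    have h2 := sq_sum (E.map (aeval h)) (by
      rw [List.map_map]
      rw [← h1]
      congr 1
      apply List.map_congr_left
      intro a _
      simp)
    intro e' he'
    exact h2 _ (List.mem_map.2 ⟨e', he', rfl⟩)
  · have h1 : aeval h G.prod ≠ 0 := by
      rw [hq₂, hh]
      exact hz2
    intro g hg h0
    apply h1
    rw [map_list_prod]
    exact List.prod_eq_zero (List.mem_map.2 ⟨g, hg, h0⟩)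

/-- Bezout. -/
theorem bez [IsPrincipalIdealRing M] (p q : M) :
    ∃ d a b u v : M, p = d * a ∧ q = d * b ∧ d = u * p + v * q := by
  obtain ⟨d, hd⟩ := (IsPrincipalIdealRing.principal (Ideal.span {p, q})).principal
  have hd' : Ideal.span {p, q} = Ideal.span {d} := hd
  have h1 : p ∈ Ideal.span {d} := hd' ▸ Ideal.subset_span (Set.mem_insert _ _)
  have h2 : q ∈ Ideal.span {d} := hd' ▸ Ideal.subset_span (Set.mem_insert_of_mem _ rfl)
  have h3 : d ∈ Ideal.span {p, q} := hd' ▸ Ideal.mem_span_singleton_self d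
  obtain ⟨a, ha⟩ := Ideal.mem_span_singleton.1 h1
  obtain ⟨b, hb⟩ := Ideal.mem_span_singleton.1 h2
  obtain ⟨u, v, huv⟩ := Ideal.mem_span_pair.1 h3
  exact ⟨d, a, b, u, v, ha, hb, huv.symm⟩

theorem gcd_iff {R : Type} [CommRing R] {p q r d a b u v : R} (h1 : p = d * a) (h2 : q = d * b)
    (h3 : d = u * p + v * q) : (∀ c, c ∣ r ↔ c ∣ p ∧ c ∣ q) ↔ r ∣ d ∧ d ∣ r := by
  constructor
  · intro h
    have h4 := (h r).1 dvd_rfl
    refine ⟨?_, (h d).2 ⟨⟨a, h1⟩, ⟨b, h2⟩⟩⟩
    rw [h3]
    exact dvd_add (h4.1.mul_left u) (h4.2.mul_left v)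
  · rintro ⟨h4, h5⟩ c
    constructor
    · intro h
      exact ⟨(h.trans h4).trans ⟨a, h1⟩, (h.trans h4).trans ⟨b, h2⟩⟩
    · rintro ⟨h6, h7⟩
      refine dvd_trans ?_ h5
      rw [h3]
      exact dvd_add (h6.mul_left u) (h7.mul_left v)

theorem loc_dvd [IsDomain M] [IsPrincipalIdealRing M] (P Q : MvPolynomial M ℤ) :
    ∃ E G : List (MvPolynomial M ℤ), Sat E G (id : M → M) ∧ ∀ h : M → ℤ, Sat E G h →
      (aeval (id : M → M) P ∣ aeval (id : M → M) Q ↔ aeval h P ∣ aeval h Q) := by
  by_cases hd : aeval (id : M → M) P ∣ aeval (id : M → M) Q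
  · obtain ⟨c, hc⟩ := hd
    refine ⟨[Q - P * X c], [], ⟨?_, ?_⟩, ?_⟩
    · intro e he
      rw [List.mem_singleton] at he
      subst he
      rw [map_sub, map_mul, aeval_X, hc]
      simp
    · intro g hg
      simp at hg
    · intro h hh
      have h1 := hh.1 _ (List.mem_singleton_self _)
      rw [map_sub, map_mul, aeval_X, sub_eq_zero] at h1
      exact ⟨fun _ => ⟨h c, h1⟩, fun _ => ⟨c, hc⟩⟩
  · by_cases hp : aeval (id : M → M) P = 0
    · refine ⟨[P], [Q], ⟨?_, ?_⟩, ?_⟩
      · intro e he
        rw [List.mem_singleton] at he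
        rw [he, hp]
      · intro g hg h0
        rw [List.mem_singleton] at hg
        rw [hg] at h0
        exact hd (by rw [h0]; exact dvd_zero _)
      · intro h hh
        have h1 := hh.1 _ (List.mem_singleton_self _)
        have h2 := hh.2 _ (List.mem_singleton_self _)
        refine ⟨fun h3 => absurd h3 hd, fun h3 => absurd ?_ h2⟩
        rw [h1] at h3
        exact zero_dvd_iff.1 h3
    · obtain ⟨d, a, b, u, v, h1, h2, h3⟩ :=
        bez (aeval (id : M → M) P) (aeval (id : M → M) Q)
      have hd0 : d ≠ 0 := fun h => hp (by rw [h1, h, zero_mul])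
      have h4 : u * a + v * b = 1 := by
        apply mul_left_cancel₀ hd0
        calc d * (u * a + v * b) = u * (d * a) + v * (d * b) := by ring
          _ = d := by rw [← h1, ← h2]; exact h3.symm
          _ = d * 1 := (mul_one d).symm
      have h5 : a ^ 2 - 1 ≠ 0 := by
        intro h
        apply hd
        refine ⟨a * b, ?_⟩
        rw [h1, h2]
        have h6 : a ^ 2 = 1 := sub_eq_zero.1 h
        calc d * b = d * a ^ 2 * b := by rw [h6, mul_one]
          _ = d * a * (a * b) := by ring
      refine ⟨[P - X d * X a, Q - X d * X b, X u * X a + X v * X b - 1], [P, X a ^ 2 - 1],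
        ⟨?_, ?_⟩, ?_⟩
      · intro e he
        simp only [List.mem_cons, List.not_mem_nil, or_false] at he
        rcases he with rfl | rfl | rfl
        · rw [map_sub, map_mul, aeval_X, aeval_X, h1]
          simp
        · rw [map_sub, map_mul, aeval_X, aeval_X, h2]
          simp
        · rw [map_sub, map_add, map_mul, map_mul, aeval_X, aeval_X, aeval_X, aeval_X, map_one]
          exact sub_eq_zero.2 h4
      · intro g hg
        simp only [List.mem_cons, List.not_mem_nil, or_false] at hg
        rcases hg with rfl | rfl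
        · exact hp
        · rw [map_sub, map_pow, aeval_X, map_one]
          exact h5
      · intro h hh
        refine ⟨fun h6 => absurd h6 hd, fun h6 => ?_⟩
        exfalso
        have e1 := hh.1 (P - X d * X a) (by simp)
        have e2 := hh.1 (Q - X d * X b) (by simp)
        have e3 := hh.1 (X u * X a + X v * X b - 1) (by simp)
        have e4 := hh.2 P (by simp)
        have e5 := hh.2 (X a ^ 2 - 1) (by simp)
        rw [map_sub, map_mul, aeval_X, aeval_X, sub_eq_zero] at e1 e2
        rw [map_sub, map_add, map_mul, map_mul, aeval_X, aeval_X, aeval_X, aeval_X, map_one,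
          sub_eq_zero] at e3
        rw [map_sub, map_pow, aeval_X, map_one] at e5
        rw [e1, e2] at h6
        have hd' : h d ≠ 0 := fun h0 => e4 (by rw [e1, h0, zero_mul])
        have h7 : h a ∣ h b := (mul_dvd_mul_iff_left hd').1 h6
        have h8 : h a ∣ 1 := by
          rw [← e3]
          exact dvd_add (dvd_mul_left _ _) (h7.mul_left _)
        have h9 : h a = 1 ∨ h a = -1 := Int.isUnit_iff.1 (isUnit_of_dvd_one h8)
        apply e5
        rcases h9 with h9 | h9 <;> rw [h9] <;> norm_num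

theorem loc_gcd [IsDomain M] [IsPrincipalIdealRing M] (P Q R : MvPolynomial M ℤ) :
    ∃ E G : List (MvPolynomial M ℤ), Sat E G (id : M → M) ∧ ∀ h : M → ℤ, Sat E G h →
      ((∀ c : M, c ∣ aeval (id : M → M) R ↔ c ∣ aeval (id : M → M) P ∧ c ∣ aeval (id : M → M) Q) ↔
        ∀ c : ℤ, c ∣ aeval h R ↔ c ∣ aeval h P ∧ c ∣ aeval h Q) := by
  obtain ⟨d, a, b, u, v, h1, h2, h3⟩ :=
    bez (aeval (id : M → M) P) (aeval (id : M → M) Q)
  obtain ⟨E1, G1, s1, t1⟩ := loc_dvd (M := M) R (X d)
  obtain ⟨E2, G2, s2, t2⟩ := loc_dvd (M := M) (X d) R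
  refine ⟨[P - X d * X a, Q - X d * X b, X d - (X u * P + X v * Q)] ++ (E1 ++ E2),
    [] ++ (G1 ++ G2), ?_, ?_⟩
  · rw [sat_append, sat_append]
    refine ⟨⟨?_, ?_⟩, s1, s2⟩
    · intro e he
      simp only [List.mem_cons, List.not_mem_nil, or_false] at he
      rcases he with rfl | rfl | rfl
      · rw [map_sub, map_mul, aeval_X, aeval_X]
        exact sub_eq_zero.2 h1
      · rw [map_sub, map_mul, aeval_X, aeval_X]
        exact sub_eq_zero.2 h2
      · rw [map_sub, map_add, map_mul, map_mul, aeval_X, aeval_X, aeval_X]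
        exact sub_eq_zero.2 h3
    · intro g hg
      simp at hg
  · intro h hh
    rw [sat_append, sat_append] at hh
    obtain ⟨⟨hh1, -⟩, hh2, hh3⟩ := hh
    have e1 := hh1 (P - X d * X a) (by simp)
    have e2 := hh1 (Q - X d * X b) (by simp)
    have e3 := hh1 (X d - (X u * P + X v * Q)) (by simp)
    rw [map_sub, map_mul, aeval_X, aeval_X, sub_eq_zero] at e1 e2
    rw [map_sub, map_add, map_mul, map_mul, aeval_X, aeval_X, aeval_X, sub_eq_zero] at e3
    have f1 := t1 h hh2
    have f2 := t2 h hh3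
    rw [aeval_X, aeval_X] at f1 f2
    rw [gcd_iff h1 h2 h3, gcd_iff e1 e2 e3, ← f1, ← f2]
    rfl

theorem loc [IsDomain M] [IsPrincipalIdealRing M] {n : ℕ} (x : Fin n → M) (φ : Qf n) :
    ∃ E G : List (MvPolynomial M ℤ), Sat E G (id : M → M) ∧ ∀ h : M → ℤ, Sat E G h →
      (φ.holds x ↔ φ.holds (h ∘ x)) := by
  have hx : ∀ p : MvPolynomial (Fin n) ℤ, aeval (id : M → M) (rename x p) = aeval x p := by
    intro p
    rw [aeval_rename]
    rfl
  have hh : ∀ (h : M → ℤ) (p : MvPolynomial (Fin n) ℤ),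
      aeval h (rename x p) = aeval (h ∘ x) p := by
    intro h p
    rw [aeval_rename]
  induction φ with
  | eq p =>
    by_cases h0 : aeval x p = 0
    · refine ⟨[rename x p], [], ⟨?_, ?_⟩, ?_⟩
      · intro e he
        rw [List.mem_singleton] at he
        rw [he, hx, h0]
      · intro g hg
        simp at hg
      · intro h hs
        have h1 := hs.1 _ (List.mem_singleton_self _)
        rw [hh] at h1
        exact ⟨fun _ => h1, fun _ => h0⟩
    · refine ⟨[], [rename x p], ⟨?_, ?_⟩, ?_⟩
      · intro g hg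
        simp at hg
      · intro e he
        rw [List.mem_singleton] at he
        rw [he, hx]
        exact h0
      · intro h hs
        have h1 := hs.2 _ (List.mem_singleton_self _)
        rw [hh] at h1
        exact ⟨fun h2 => absurd h2 h0, fun h2 => absurd h2 h1⟩
  | dvd p q =>
    obtain ⟨E, G, hs, ht⟩ := loc_dvd (rename x p) (rename x q)
    refine ⟨E, G, hs, fun h hE => ?_⟩
    have := ht h hE
    rw [hx, hx, hh, hh] at this
    exact this
  | gcd p q r =>
    obtain ⟨E, G, hs, ht⟩ := loc_gcd (rename x p) (rename x q) (rename x r)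
    refine ⟨E, G, hs, fun h hE => ?_⟩
    have := ht h hE
    rw [hx, hx, hx, hh, hh, hh] at this
    exact this
  | not φ ih =>
    obtain ⟨E, G, hs, ht⟩ := ih
    exact ⟨E, G, hs, fun h hE => not_congr (ht h hE)⟩
  | and φ ψ ih ih' =>
    obtain ⟨E, G, hs, ht⟩ := ih
    obtain ⟨E', G', hs', ht'⟩ := ih'
    refine ⟨E ++ E', G ++ G', sat_append.2 ⟨hs, hs'⟩, fun h hE => ?_⟩
    have hE' := sat_append.1 hE
    exact and_congr (ht h hE'.1) (ht' h hE'.2)

end UDV

open UDV in
theorem t_UDV : S_UDV := by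
  intro M _ _ _ hD n φ hZ x
  obtain ⟨E, G, hs, ht⟩ := loc x φ
  obtain ⟨h, hh⟩ := exists_h hD E G hs
  exact (ht h hh).2 (hZ _)

end OIF
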